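import Pool.Agent.T6.H95.KS.Trans

/-!
# The Lie algebra of a subgroup given by an orthogonal projection
-/

set_option autoImplicit false

namespace Pool.Agent.T6.H95.KS

open MeasureTheory Set Matrix
open scoped ENNReal InnerProductSpace
open Pool.Agent.TH591.TT
open Pool.Agent.H888R2.KC (KI Km ip Km_skew Km_complete Km_parseval)

variable {N : ℕ}

/-- an orthogonal projection of matrices onto a Lie algebra of skew matrices -/
structure PJ (P : Matrix (Fin N) (Fin N) ℝ →ₗ[ℝ] Matrix (Fin N) (Fin N) ℝ) : Prop where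
  idem : ∀ K, P (P K) = P K
  sym : ∀ K L, hs (P K) L = hs K (P L)
  skew : ∀ K, Kᵀ = -K → (P K)ᵀ = -(P K)
  br : ∀ K L, Kᵀ = -K → Lᵀ = -L → P (P K * P L - P L * P K) = P K * P L - P L * P K

variable {P : Matrix (Fin N) (Fin N) ℝ →ₗ[ℝ] Matrix (Fin N) (Fin N) ℝ}

theorem complete (K : Matrix (Fin N) (Fin N) ℝ) (hK : Kᵀ = -K) :
    ∑ k, hs (Km ℝ k) K • Km ℝ k = K := by
  have h := Km_complete (𝕜 := ℝ) K (by rw [Matrix.conjTranspose_eq_transpose_of_trivial, hK])
  simp only [ip_hs] at h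
  exact h

/-- the frame of the Lie algebra -/
noncomputable def Ak (P : Matrix (Fin N) (Fin N) ℝ →ₗ[ℝ] Matrix (Fin N) (Fin N) ℝ) (k : KI N) :
    Matrix (Fin N) (Fin N) ℝ := P (Km ℝ k)

theorem PJ.Ak_skew (h : PJ P) (k : KI N) : (Ak P k)ᵀ = -Ak P k := h.skew _ (Km_tp k)

theorem PJ.tight (h : PJ P) (M : Matrix (Fin N) (Fin N) ℝ) (hM : Mᵀ = -M) (hP : P M = M) :
    ∑ k, hs (Ak P k) M • Ak P k = M := by
  have h1 : ∀ k, hs (Ak P k) M • Ak P k = P (hs (Km ℝ k) M • Km ℝ k) := by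
    intro k
    unfold Ak
    rw [map_smul, h.sym, hP]
  rw [Finset.sum_congr rfl fun k _ => h1 k, ← map_sum, complete M hM, hP]

theorem PJ.par (h : PJ P) (M : Matrix (Fin N) (Fin N) ℝ) :
    ∑ k, hs (Ak P k) M ^ 2 ≤ hs M M := by
  have h1 : ∀ k, hs (Ak P k) M = hs (Km ℝ k) (P M) := fun k => h.sym _ _
  simp only [h1]
  refine (parseval_le _).trans ?_
  have h2 := hs_nonneg (M - P M)
  rw [hs_sub_left, hs_sub_right, hs_sub_right, hs_comm (P M) M] at h2
  have h3 : hs (P M) (P M) = hs M (P M) := by rw [h.sym, h.idem]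
  linarith

/-- invariance of the inner product -/
theorem hs_br (A B C : Matrix (Fin N) (Fin N) ℝ) (hA : Aᵀ = -A) :
    hs (A * B - B * A) C = - hs B (A * C - C * A) := by
  rw [hs_sub_left, hs_sub_right, hs_mul_left, hs_mul_right, hA, Matrix.neg_mul, Matrix.mul_neg,
    hs_neg_right, hs_neg_right]
  ring

theorem hs_sum_left {ι : Type} (S : Finset ι) (B : ι → Matrix (Fin N) (Fin N) ℝ)
    (A : Matrix (Fin N) (Fin N) ℝ) : hs (∑ k ∈ S, B k) A = ∑ k ∈ S, hs (B k) A := by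
  rw [hs_comm, hs_sum_right]
  exact Finset.sum_congr rfl fun k _ => hs_comm _ _

theorem hs_smul_left (A B : Matrix (Fin N) (Fin N) ℝ) (t : ℝ) : hs (t • A) B = t * hs A B := by
  rw [hs_comm, hs_smul_right, hs_comm]

/-- half of the terms of the Casimir operator -/
theorem PJ.sum_APA (h : PJ P) (X : Matrix (Fin N) (Fin N) ℝ) :
    ∑ k, Ak P k * X * Ak P k = ∑ k, Km ℝ k * X * Ak P k := by
  have h1 : ∀ k, Ak P k * X * Ak P k =
      ∑ b, hs (Km ℝ b) (Ak P k) • (Km ℝ b * X * Ak P k) := by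
    intro k
    conv_lhs => rw [← complete (Ak P k) (h.Ak_skew k)]
    rw [Finset.sum_mul, Finset.sum_mul]
    refine Finset.sum_congr rfl fun b _ => ?_
    rw [complete (Ak P k) (h.Ak_skew k), Matrix.smul_mul, Matrix.smul_mul]
  rw [Finset.sum_congr rfl fun k _ => h1 k, Finset.sum_comm]
  refine Finset.sum_congr rfl fun b _ => ?_
  have h2 : ∀ k, hs (Km ℝ b) (Ak P k) • (Km ℝ b * X * Ak P k) =
      Km ℝ b * X * P (hs (Km ℝ k) (Ak P b) • Km ℝ k) := by
    intro k
    have e : hs (Km ℝ b) (Ak P k) = hs (Km ℝ k) (Ak P b) := by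
      unfold Ak
      rw [hs_comm, h.sym, hs_comm (Km ℝ k)]
    rw [e, map_smul, Matrix.mul_smul]
    rfl
  rw [Finset.sum_congr rfl fun k _ => h2 k, ← Finset.mul_sum, ← map_sum,
    complete _ (h.Ak_skew b)]
  unfold Ak
  rw [h.idem]

/-- The Lie algebra data: `β` is the value of `∑ A X A` on the Lie algebra and `-α` the one of
`∑ A A`. -/
theorem PJ.struc (h : PJ P) (α β : ℝ)
    (hα : ∑ k, Ak P k * Ak P k = (-α) • (1 : Matrix (Fin N) (Fin N) ℝ))
    (hβ : ∀ l, ∑ k, Ak P k * Ak P l * Ak P k = β • Ak P l) :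
    ∃ c : KI N → KI N → KI N → ℝ, (∀ i j k, c j i k = - c i j k) ∧
    (∀ i j k, c i k j = - c i j k) ∧
    (∀ i j, Ak P i * Ak P j - Ak P j * Ak P i = ∑ k, c i j k • Ak P k) ∧
    (∀ k, ∑ l, (∑ i, ∑ j, c i j k * c i j l) • Ak P l = (2 * α + 2 * β) • Ak P k) := by
  have hbr : ∀ i j, ∑ k, hs (Ak P i * Ak P j - Ak P j * Ak P i) (Ak P k) • Ak P k =
      Ak P i * Ak P j - Ak P j * Ak P i := by
    intro i j
    have h1 := h.tight (Ak P i * Ak P j - Ak P j * Ak P i) (by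
      rw [Matrix.transpose_sub, Matrix.transpose_mul, Matrix.transpose_mul, h.Ak_skew, h.Ak_skew,
        Matrix.neg_mul, Matrix.neg_mul, Matrix.mul_neg, Matrix.mul_neg, neg_neg, neg_neg, neg_sub])
      (h.br _ _ (Km_tp i) (Km_tp j))
    simp only [hs_comm (Ak P _) (Ak P i * Ak P j - Ak P j * Ak P i)] at h1
    exact h1
  refine ⟨fun i j k => hs (Ak P i * Ak P j - Ak P j * Ak P i) (Ak P k), ?_, ?_, ?_, ?_⟩
  · intro i j k
    show hs (Ak P j * Ak P i - Ak P i * Ak P j) (Ak P k) =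
      -hs (Ak P i * Ak P j - Ak P j * Ak P i) (Ak P k)
    have : Ak P j * Ak P i - Ak P i * Ak P j = -(Ak P i * Ak P j - Ak P j * Ak P i) := by abel
    rw [this, hs_comm, hs_neg_right, hs_comm]
  · intro i j k
    show hs (Ak P i * Ak P k - Ak P k * Ak P i) (Ak P j) =
      -hs (Ak P i * Ak P j - Ak P j * Ak P i) (Ak P k)
    rw [hs_br _ _ _ (h.Ak_skew i), hs_comm]
  · intro i j
    exact (hbr i j).symm
  · intro k
    have e1 : ∀ l, (∑ i, ∑ j, hs (Ak P i * Ak P j - Ak P j * Ak P i) (Ak P k) *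
        hs (Ak P i * Ak P j - Ak P j * Ak P i) (Ak P l)) • Ak P l =
        ∑ i, ∑ j, hs (Ak P i * Ak P j - Ak P j * Ak P i) (Ak P k) •
          (hs (Ak P i * Ak P j - Ak P j * Ak P i) (Ak P l) • Ak P l) := by
      intro l
      rw [Finset.sum_smul]
      refine Finset.sum_congr rfl fun i _ => ?_
      rw [Finset.sum_smul]
      refine Finset.sum_congr rfl fun j _ => ?_
      rw [smul_smul]
    rw [Finset.sum_congr rfl fun l _ => e1 l, Finset.sum_comm]
    have e2 : ∀ i, ∑ l, ∑ j, hs (Ak P i * Ak P j - Ak P j * Ak P i) (Ak P k) •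
          (hs (Ak P i * Ak P j - Ak P j * Ak P i) (Ak P l) • Ak P l) =
        -(Ak P i * (Ak P i * Ak P k - Ak P k * Ak P i) -
          (Ak P i * Ak P k - Ak P k * Ak P i) * Ak P i) := by
      intro i
      rw [Finset.sum_comm]
      have e3 : ∀ j, ∑ l, hs (Ak P i * Ak P j - Ak P j * Ak P i) (Ak P k) •
          (hs (Ak P i * Ak P j - Ak P j * Ak P i) (Ak P l) • Ak P l) =
          -(Ak P i * (hs (Ak P i * Ak P k - Ak P k * Ak P i) (Ak P j) • Ak P j) -
            (hs (Ak P i * Ak P k - Ak P k * Ak P i) (Ak P j) • Ak P j) * Ak P i) := by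
        intro j
        rw [← Finset.smul_sum, hbr, hs_br _ _ _ (h.Ak_skew i), hs_comm (Ak P j), neg_smul,
          smul_sub, Matrix.mul_smul, Matrix.smul_mul]
      rw [Finset.sum_congr rfl fun j _ => e3 j, Finset.sum_neg_distrib, Finset.sum_sub_distrib,
        ← Finset.mul_sum, ← Finset.sum_mul, hbr]
    rw [Finset.sum_congr rfl fun i _ => e2 i]
    have e4 : ∀ i, -(Ak P i * (Ak P i * Ak P k - Ak P k * Ak P i) -
          (Ak P i * Ak P k - Ak P k * Ak P i) * Ak P i) =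
        (2 : ℝ) • (Ak P i * Ak P k * Ak P i) - (Ak P i * Ak P i) * Ak P k -
          Ak P k * (Ak P i * Ak P i) := by
      intro i
      rw [two_smul]
      simp only [Matrix.mul_sub, Matrix.sub_mul, Matrix.mul_assoc]
      abel
    rw [Finset.sum_congr rfl fun i _ => e4 i, Finset.sum_sub_distrib, Finset.sum_sub_distrib,
      ← Finset.smul_sum, hβ, ← Finset.sum_mul, ← Finset.mul_sum, hα, Matrix.smul_mul,
      Matrix.mul_smul, Matrix.one_mul, Matrix.mul_one, smul_smul, ← sub_smul, ← sub_smul]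
    congr 1
    ring

/-- the Casimir operator on matrices -/
theorem PJ.casM (h : PJ P) (α : ℝ)
    (hα : ∑ k, Ak P k * Ak P k = (-α) • (1 : Matrix (Fin N) (Fin N) ℝ))
    (X : Matrix (Fin N) (Fin N) ℝ) :
    ∑ k, hs (Ak P k * X - X * Ak P k) (Ak P k * X - X * Ak P k) =
      2 * α * hs X X + 2 * hs X (∑ k, Ak P k * X * Ak P k) := by
  have h1 : ∀ k, hs (Ak P k * X - X * Ak P k) (Ak P k * X - X * Ak P k) =
      hs X ((2 : ℝ) • (Ak P k * X * Ak P k) - Ak P k * Ak P k * X - X * (Ak P k * Ak P k)) := by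
    intro k
    rw [hs_sub_left, hs_mul_left, hs_mul_right, h.Ak_skew, ← hs_sub_right]
    congr 1
    rw [two_smul]
    simp only [Matrix.neg_mul, Matrix.mul_neg, Matrix.mul_sub, Matrix.sub_mul, Matrix.mul_assoc]
    abel
  rw [Finset.sum_congr rfl fun k _ => h1 k, ← hs_sum_right, Finset.sum_sub_distrib,
    Finset.sum_sub_distrib, ← Finset.smul_sum, ← Finset.sum_mul, ← Finset.mul_sum, hα,
    Matrix.smul_mul, Matrix.mul_smul, Matrix.one_mul, Matrix.mul_one]
  rw [hs_sub_right, hs_sub_right, hs_smul_right, hs_smul_right]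
  ring

/-- the Casimir operator on vectors -/
theorem PJ.casV (h : PJ P) (α : ℝ)
    (hα : ∑ k, Ak P k * Ak P k = (-α) • (1 : Matrix (Fin N) (Fin N) ℝ)) {m : ℕ}
    (Y : Matrix (Fin N) (Fin m) ℝ) :
    ∑ k, hs (Ak P k * Y : Matrix (Fin N) (Fin m) ℝ) (Ak P k * Y) = α * hs Y Y := by
  have h1 : ∀ k, hs (Ak P k * Y : Matrix (Fin N) (Fin m) ℝ) (Ak P k * Y) =
      hs Y (-(Ak P k * Ak P k * Y)) := by
    intro k
    rw [hs_mul_left, h.Ak_skew, Matrix.neg_mul, ← Matrix.mul_assoc]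
  rw [Finset.sum_congr rfl fun k _ => h1 k, ← hs_sum_right, Finset.sum_neg_distrib,
    ← Matrix.sum_mul, hα, Matrix.smul_mul, Matrix.one_mul, hs_neg_right, hs_smul_right]
  ring

section
open scoped Matrix.Norms.Operator

set_option backward.isDefEq.respectTransparency false in
theorem exp_comm (K L : Matrix (Fin N) (Fin N) ℝ) (h : K * L = L * K) :
    NormedSpace.exp K * L = L * NormedSpace.exp K := by
  have h1 : Commute L K := h.symm
  exact (h1.exp_right).symm

end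

/-- one parameter groups of orthogonal matrices commuting with given matrices -/
theorem path_comm {Γ : Type} [Fintype Γ] (J : Γ → Matrix (Fin N) (Fin N) ℝ)
    (K : Matrix (Fin N) (Fin N) ℝ) (hK : Kᵀ = -K) (hJ : ∀ γ, K * J γ = J γ * K) :
    ∃ U : ℝ → Matrix (Fin N) (Fin N) ℝ, (∀ t, U t ∈ Hc J) ∧ U 0 = 1 ∧
      (∀ s t, U (s + t) = U s * U t) ∧ ∀ a b, HasDerivAt (fun t => U t a b) (K a b) 0 := by
  obtain ⟨U, hU⟩ : ∃ U : ℝ → Matrix (Fin N) (Fin N) ℝ, U = fun t => NormedSpace.exp (t • K) :=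
    ⟨_, rfl⟩
  have hadd : ∀ s t : ℝ, U (s + t) = U s * U t := by
    intro s t
    simp only [hU]
    rw [add_smul]
    exact Matrix.exp_add_of_commute _ _ ((Commute.refl K).smul_left s |>.smul_right t)
  have h0 : U 0 = 1 := by
    rw [hU]
    simp
  refine ⟨U, fun t => ⟨?_, ?_⟩, h0, hadd, ?_⟩
  · have hstar : star (U t) = U (-t) := by
      rw [hU]
      show (NormedSpace.exp (t • K))ᵀ = NormedSpace.exp ((-t) • K)
      rw [← Matrix.exp_transpose, Matrix.transpose_smul, hK]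
      simp
    rw [Matrix.mem_orthogonalGroup_iff]
    show U t * star (U t) = 1
    rw [hstar, ← hadd, add_neg_cancel, h0]
  · intro γ
    rw [hU]
    apply exp_comm
    rw [Matrix.smul_mul, Matrix.mul_smul, hJ]
  · intro a b
    rw [hU]
    exact exp_der K (en a b)

end Pool.Agent.T6.H95.KS
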