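import Pool.Agent.TH591.TT.Sub

/-!
# Tuples of matrices and vectors: groups of orthogonal matrices commuting with given matrices

The modules `Pool.Agent.TH591.TT` treat the group `SO(N)`. Here the group is an arbitrary set `H` of
orthogonal matrices, closed under products and transposes, whose matrices commute with the matrices
`J γ`, and the Lie algebra is given by a finite family `A k` of skew matrices.
-/

set_option autoImplicit false

namespace Pool.Agent.T6.H95.KS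

open MeasureTheory Set Matrix
open scoped ENNReal InnerProductSpace
open Pool.Agent.TH591.TT

/-- a set of orthogonal matrices closed under products and transposes -/
structure Gp {N : ℕ} (H : Set (Matrix (Fin N) (Fin N) ℝ)) : Prop where
  orth : ∀ g ∈ H, g ∈ Matrix.orthogonalGroup (Fin N) ℝ
  tp : ∀ g ∈ H, gᵀ ∈ H
  mul : ∀ g ∈ H, ∀ h ∈ H, g * h ∈ H

/-- Lie algebra data: skew matrices which generate one parameter groups in `H`, with structure
constants, such that the Killing form is `κ0` -/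
structure LA {N : ℕ} {κ' : Type} [Fintype κ'] (H : Set (Matrix (Fin N) (Fin N) ℝ))
    (A : κ' → Matrix (Fin N) (Fin N) ℝ) (κ0 : ℝ) : Prop where
  skew : ∀ k, (A k)ᵀ = -A k
  path : ∀ k, ∃ U : ℝ → Matrix (Fin N) (Fin N) ℝ, (∀ t, U t ∈ H) ∧ U 0 = 1 ∧
    (∀ s t, U (s + t) = U s * U t) ∧ ∀ a b, HasDerivAt (fun t => U t a b) (A k a b) 0
  struc : ∃ c : κ' → κ' → κ' → ℝ, (∀ i j k, c j i k = - c i j k) ∧
    (∀ i j k, c i k j = - c i j k) ∧
    (∀ i j, A i * A j - A j * A i = ∑ k, c i j k • A k) ∧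
    (∀ k, ∑ l, (∑ i, ∑ j, c i j k * c i j l) • A l = κ0 • A k)
  kpos : 0 < κ0
  par : ∀ M : Matrix (Fin N) (Fin N) ℝ, ∑ k, hs (A k) M ^ 2 ≤ hs M M

/-- the matrices `J γ` commute with `H`, and the Casimir operator of the `A k` is at least `c` on
the orthogonal complement of the `J γ` and on vectors -/
structure CA {N : ℕ} {κ' Γ : Type} [Fintype κ'] [Fintype Γ] (H : Set (Matrix (Fin N) (Fin N) ℝ))
    (A : κ' → Matrix (Fin N) (Fin N) ℝ) (J : Γ → Matrix (Fin N) (Fin N) ℝ) (c : ℝ) : Prop where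
  comm : ∀ g ∈ H, ∀ γ, g * J γ = J γ * g
  cpos : 0 < c
  casM : ∀ X : Matrix (Fin N) (Fin N) ℝ, c * (hs X X - ∑ γ, hs (J γ) X ^ 2 / N) ≤
    ∑ k, hs (A k * X - X * A k) (A k * X - X * A k)
  casV : ∀ (m : ℕ) (Y : Matrix (Fin N) (Fin m) ℝ), c * hs Y Y ≤
    ∑ k, hs (A k * Y : Matrix (Fin N) (Fin m) ℝ) (A k * Y)

section sub

variable {κ κ' Γ : Type} [Fintype κ] [Fintype κ'] [Fintype Γ] {q m N : ℕ}
  {ι : V κ →ₗᵢ[ℝ] V (Ix q m N)}
  {H : Set (Matrix (Fin N) (Fin N) ℝ)} {A : κ' → Matrix (Fin N) (Fin N) ℝ}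
  {J : Γ → Matrix (Fin N) (Fin N) ℝ} {κ0 c : ℝ}

/-- the range of `ι` is invariant under `H` -/
def InvH (H : Set (Matrix (Fin N) (Fin N) ℝ)) (ι : V κ →ₗᵢ[ℝ] V (Ix q m N)) : Prop :=
  ∀ g ∈ H, ∀ x, ∃ y, ι y = RR g (ι x)

theorem ι_aH (hι : InvH H ι) {g : Matrix (Fin N) (Fin N) ℝ} (hg : g ∈ H) (x : V κ) :
    ι (aS ι g x) = RR g (ι x) := by
  obtain ⟨y, hy⟩ := hι g hg x
  rw [aS_apply, ← hy, pj_ι]

/-- the isometry of `g` -/
noncomputable def isoH (hH : Gp H) (hι : InvH H ι) (g : Matrix (Fin N) (Fin N) ℝ) (hg : g ∈ H) :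
    V κ ≃ₗᵢ[ℝ] V κ :=
  { aS ι g with
    invFun := aS ι gᵀ
    left_inv := fun x => by
      show aS ι gᵀ (aS ι g x) = x
      apply ι.injective
      rw [ι_aH hι (hH.tp g hg), ι_aH hι hg, RR_RR, orth2 (hH.orth g hg), RR_one]
    right_inv := fun x => by
      show aS ι g (aS ι gᵀ x) = x
      apply ι.injective
      rw [ι_aH hι hg, ι_aH hι (hH.tp g hg), RR_RR, orth1 (hH.orth g hg), RR_one]
    norm_map' := fun x => by
      show ‖aS ι g x‖ = ‖x‖
      rw [← ι.norm_map (aS ι g x), ι_aH hι hg, norm_RR (hH.orth g hg), ι.norm_map] }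

theorem isoH_apply (hH : Gp H) (hι : InvH H ι) (g : Matrix (Fin N) (Fin N) ℝ) (hg : g ∈ H)
    (x : V κ) : ι (isoH hH hι g hg x) = RR g (ι x) := ι_aH hι hg x

/-- the group of the subspace -/
def GH (H : Set (Matrix (Fin N) (Fin N) ℝ)) (ι : V κ →ₗᵢ[ℝ] V (Ix q m N)) :
    Set (V κ ≃ₗᵢ[ℝ] V κ) :=
  {e | ∃ g ∈ H, ∀ x, ι (e x) = RR g (ι x)}

theorem isoH_mem (hH : Gp H) (hι : InvH H ι) (g : Matrix (Fin N) (Fin N) ℝ) (hg : g ∈ H) :
    isoH hH hι g hg ∈ GH H ι := ⟨g, hg, isoH_apply hH hι g hg⟩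

/-- derivative of the action along a one parameter group -/
theorem RR_der (K : Matrix (Fin N) (Fin N) ℝ) (hK : Kᵀ = -K) (U : ℝ → Matrix (Fin N) (Fin N) ℝ)
    (h0 : U 0 = 1) (hder : ∀ a b, HasDerivAt (fun t => U t a b) (K a b) 0) (x : V (Ix q m N)) :
    HasDerivAt (fun t => RR (U t) x) (DR K x) 0 := by
  have h1 : HasDerivAt (fun t : ℝ => fun p : Ix q m N => (RR (U t) x) p)
      (fun p => (DR K x) p) 0 := by
    rw [hasDerivAt_pi]
    intro p
    rcases p with ⟨j, a, b⟩ | ⟨i, a⟩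
    · have e1 := mul_der (fun t => U t) (fun _ => mt j x) K 0 hder
        (fun a b => hasDerivAt_const _ _)
      have e2 := mul_der (fun t => U t * mt j x) (fun t => (U t)ᵀ) (K * mt j x + U 0 * 0) Kᵀ e1
        (fun a b => hder b a) a b
      have e3 : ((K * mt j x + U 0 * 0) * (U 0)ᵀ + U 0 * mt j x * Kᵀ) =
          mt j (DR K x) := by
        rw [h0, mt_DR, hK, Matrix.transpose_one, Matrix.mul_zero, add_zero, Matrix.mul_one,
          Matrix.one_mul, Matrix.mul_neg, sub_eq_add_neg]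
      rw [e3] at e2
      exact e2
    · have e1 := mul_der (fun t => U t) (fun _ => vt x) K 0 hder
        (fun a b => hasDerivAt_const _ _) a i
      have e3 : (K * vt x + U 0 * (0 : Matrix (Fin N) (Fin m) ℝ)) = vt (DR K x) := by
        rw [vt_DR, Matrix.mul_zero, add_zero]
      rw [e3] at e1
      exact e1
  exact ((PiLp.continuousLinearEquiv 2 ℝ
    (fun _ : Ix q m N => ℝ)).symm.hasFDerivAt).comp_hasDerivAt (0 : ℝ) h1

theorem ι_DH (hA : LA H A κ0) (hι : InvH H ι) (k : κ') (x : V κ) :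
    ι (DS ι (A k) x) = DR (A k) (ι x) := by
  obtain ⟨U, hU, h0, hadd, hder⟩ := hA.path k
  have h1 := RR_der (A k) (hA.skew k) U h0 hder (ι x)
  have h2 : HasDerivAt (fun t => ι (pj ι (RR (U t) (ι x)))) (ι (pj ι (DR (A k) (ι x)))) 0 :=
    ((ι.toContinuousLinearMap.comp (pj ι)).hasFDerivAt).comp_hasDerivAt (0 : ℝ) h1
  have h3 : (fun t => ι (pj ι (RR (U t) (ι x)))) = fun t => RR (U t) (ι x) := by
    funext t
    exact ι_aH hι (hU t) x
  rw [h3] at h2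
  exact h2.unique h1

/-- the fixed vectors -/
def FH (H : Set (Matrix (Fin N) (Fin N) ℝ)) (ι : V κ →ₗᵢ[ℝ] V (Ix q m N)) :
    Submodule ℝ (V κ) where
  carrier := {x | ∀ g ∈ H, RR g (ι x) = ι x}
  add_mem' := by
    intro x y hx hy g hg
    rw [map_add, map_add, hx g hg, hy g hg]
  zero_mem' := by
    intro g _
    rw [map_zero, map_zero]
  smul_mem' := by
    intro c x hx g hg
    rw [map_smul, map_smul, hx g hg]

theorem FH_DR (hA : LA H A κ0) (x : V κ) (hx : x ∈ FH H ι) (k : κ') : DR (A k) (ι x) = 0 := by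
  obtain ⟨U, hU, h0, hadd, hder⟩ := hA.path k
  have h1 := RR_der (A k) (hA.skew k) U h0 hder (ι x)
  have h3 : (fun t => RR (U t) (ι x)) = fun _ => ι x := by
    funext t
    exact hx (U t) (hU t)
  rw [h3] at h1
  exact h1.unique (hasDerivAt_const _ _)

/-- the orthonormal basis of the fixed vectors -/
noncomputable def ebH (H : Set (Matrix (Fin N) (Fin N) ℝ)) (ι : V κ →ₗᵢ[ℝ] V (Ix q m N))
    (j : Fin (Module.finrank ℝ (FH H ι))) : V κ :=
  (stdOrthonormalBasis ℝ (FH H ι) j : V κ)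

theorem ebH_orth : Orthonormal ℝ (ebH H ι) := by
  have h := (stdOrthonormalBasis ℝ (FH H ι)).orthonormal
  exact h.comp_linearIsometry (FH H ι).subtypeₗᵢ

theorem ebH_sum (w : V κ) :
    ∑ j, ⟪ebH H ι j, w⟫_ℝ ^ 2 = ‖(FH H ι).orthogonalProjection w‖ ^ 2 := by
  have h := (stdOrthonormalBasis ℝ (FH H ι)).sum_sq_norm_inner_right
    ((FH H ι).orthogonalProjection w)
  rw [← h]
  refine Finset.sum_congr rfl fun j _ => ?_
  rw [Real.norm_eq_abs, sq_abs]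
  congr 1
  have h2 : ⟪stdOrthonormalBasis ℝ (FH H ι) j, (FH H ι).orthogonalProjection w⟫_ℝ =
      ⟪(stdOrthonormalBasis ℝ (FH H ι) j : V κ), ((FH H ι).orthogonalProjection w : V κ)⟫_ℝ := rfl
  rw [h2]
  have h3 : ⟪(stdOrthonormalBasis ℝ (FH H ι) j : V κ), w - (FH H ι).orthogonalProjection w⟫_ℝ = 0 :=
    Submodule.sub_starProjection_mem_orthogonal (K := FH H ι) w _
      (stdOrthonormalBasis ℝ (FH H ι) j).2
  rw [inner_sub_right] at h3
  show ⟪(stdOrthonormalBasis ℝ (FH H ι) j : V κ), w⟫_ℝ = _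
  linarith

/-- the fixed vectors of the space of tuples -/
noncomputable def eJ (J : Γ → Matrix (Fin N) (Fin N) ℝ) (j : Fin q) (γ : Γ) : V (Ix q m N) :=
  mk (fun i => if i = j then (Real.sqrt N)⁻¹ • J γ else 0) 0

theorem inner_eJ (j : Fin q) (γ : Γ) (x : V (Ix q m N)) :
    ⟪eJ J j γ, x⟫_ℝ = (Real.sqrt N)⁻¹ * hs (J γ) (mt j x) := by
  rw [inner_mv]
  unfold eJ
  rw [vt_mk]
  have h1 : hs (0 : Matrix (Fin N) (Fin m) ℝ) (vt x) = 0 := by simp [hs]
  rw [h1, add_zero, Finset.sum_eq_single j]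
  · rw [mt_mk, if_pos rfl, hs_comm, hs_smul_right, hs_comm]
  · intro i _ hi
    rw [mt_mk, if_neg hi]
    simp [hs]
  · intro h
    exact absurd (Finset.mem_univ j) h

theorem eJ_fix (hH : Gp H) (hC : CA H A J c) (g : Matrix (Fin N) (Fin N) ℝ) (hg : g ∈ H)
    (j : Fin q) (γ : Γ) : RR g (eJ J j γ : V (Ix q m N)) = eJ J j γ := by
  refine ext_mv (fun i => ?_) ?_
  · rw [mt_RR]
    unfold eJ
    rw [mt_mk]
    split_ifs
    · rw [Matrix.mul_smul, Matrix.smul_mul, hC.comm g hg, Matrix.mul_assoc, orth1 (hH.orth g hg),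
        Matrix.mul_one]
    · rw [Matrix.mul_zero, Matrix.zero_mul]
  · rw [vt_RR]
    unfold eJ
    rw [vt_mk, Matrix.mul_zero]

/-- the vector of the invariant functional -/
theorem pj_eJ_mem (hH : Gp H) (hC : CA H A J c) (hι : InvH H ι) (l : Fin q) (γ : Γ) :
    pj ι (eJ J l γ) ∈ FH H ι := by
  intro g hg
  rw [← ι_aH hι hg]
  congr 1
  refine ext_inner_right ℝ fun y => ?_
  have h1 : ⟪aS ι g (pj ι (eJ J l γ)), y⟫_ℝ = ⟪pj ι (eJ J l γ), aS ι gᵀ y⟫_ℝ := by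
    have h2 := (isoH hH hι g hg).inner_map_map (pj ι (eJ J l γ)) (aS ι gᵀ y)
    have h3 : isoH hH hι g hg (aS ι gᵀ y) = y := (isoH hH hι g hg).apply_symm_apply y
    rw [h3] at h2
    exact h2
  have hg' := hH.tp g hg
  rw [h1, pj_inner, pj_inner, ι_aH hι hg']
  have h4 := (iso (q := q) (m := m) gᵀ (hH.orth _ hg')).inner_map_map (eJ J l γ) (ι y)
  rw [iso_apply, iso_apply, eJ_fix hH hC gᵀ hg'] at h4
  exact h4

theorem casT (hN : 1 ≤ N) (hC : CA H A J c) (x : V (Ix q m N)) :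
    c * (‖x‖ ^ 2 - ∑ j, ∑ γ, ⟪eJ J j γ, x⟫_ℝ ^ 2) ≤ ∑ k, ‖DR (A k) x‖ ^ 2 := by
  have hN0 : (0 : ℝ) < N := by exact_mod_cast hN
  have h1 : ∑ k, ‖DR (A k) x‖ ^ 2 = ∑ j, ∑ k, hs (A k * mt j x - mt j x * A k)
      (A k * mt j x - mt j x * A k) + ∑ k, hs (A k * vt x) (A k * vt x) := by
    simp only [norm_mv, mt_DR, vt_DR]
    rw [Finset.sum_add_distrib, Finset.sum_comm]
  have h2 : ∀ (j : Fin q) (γ : Γ), ⟪eJ J j γ, x⟫_ℝ ^ 2 = hs (J γ) (mt j x) ^ 2 / N := by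
    intro j γ
    rw [inner_eJ, mul_pow, inv_pow, Real.sq_sqrt hN0.le]
    field_simp
  rw [h1, norm_mv]
  simp only [h2]
  have h3 := Finset.sum_le_sum fun j (_ : j ∈ (Finset.univ : Finset (Fin q))) =>
    hC.casM (mt j x)
  rw [← Finset.mul_sum, Finset.sum_sub_distrib] at h3
  have h4 := hC.casV m (vt x)
  linarith

theorem casH (hN : 1 ≤ N) (hH : Gp H) (hA : LA H A κ0) (hC : CA H A J c) (hι : InvH H ι)
    (w : V κ) :
    c * (‖w‖ ^ 2 - ∑ j, ⟪ebH H ι j, w⟫_ℝ ^ 2) ≤ ∑ k, ‖DS ι (A k) w‖ ^ 2 := by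
  rw [ebH_sum]
  obtain ⟨p, hp⟩ : ∃ p : V κ, p = ((FH H ι).orthogonalProjection w : V κ) := ⟨_, rfl⟩
  obtain ⟨w', hw'⟩ : ∃ w' : V κ, w' = w - p := ⟨_, rfl⟩
  have hpF : p ∈ FH H ι := by rw [hp]; exact ((FH H ι).orthogonalProjection w).2
  have hw'F : ∀ f ∈ FH H ι, ⟪f, w'⟫_ℝ = 0 := by
    rw [hw', hp]
    exact fun f hf => Submodule.sub_starProjection_mem_orthogonal (K := FH H ι) w f hf
  have hpn : ‖(FH H ι).orthogonalProjection w‖ = ‖p‖ := by rw [hp]; rfl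
  have hww : w = p + w' := by rw [hw']; abel
  have hn : ‖w‖ ^ 2 = ‖p‖ ^ 2 + ‖w'‖ ^ 2 := by
    rw [hww, norm_add_sq_real, hw'F p hpF]
    ring
  have hD : ∀ k, ‖DS ι (A k) w‖ ^ 2 = ‖DR (A k) (ι w')‖ ^ 2 := by
    intro k
    rw [← ι.norm_map, ι_DH hA hι]
    congr 2
    rw [hww, map_add, map_add, FH_DR hA p hpF, zero_add]
  rw [Finset.sum_congr rfl fun k _ => hD k, hpn, hn]
  have h1 := casT hN hC (ι w')
  have h2 : ∑ l, ∑ γ, ⟪eJ J l γ, ι w'⟫_ℝ ^ 2 = 0 := by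
    refine Finset.sum_eq_zero fun l _ => Finset.sum_eq_zero fun γ _ => ?_
    rw [← pj_inner, hw'F _ (pj_eJ_mem hH hC hι l γ)]
    norm_num
  rw [h2, sub_zero, ι.norm_map] at h1
  have e : ‖p‖ ^ 2 + ‖w'‖ ^ 2 - ‖p‖ ^ 2 = ‖w'‖ ^ 2 := by ring
  rw [e]
  exact h1

theorem FH_le (hN : 1 ≤ N) (hA : LA H A κ0) (hC : CA H A J c) :
    Module.finrank ℝ (FH H ι) ≤ q * Fintype.card Γ := by
  let F : FH H ι →ₗ[ℝ] (Fin q × Γ → ℝ) :=
    { toFun := fun x l => ⟪eJ J l.1 l.2, ι (x : V κ)⟫_ℝ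
      map_add' := fun x y => by
        funext l
        simp only [Submodule.coe_add, map_add, inner_add_right, Pi.add_apply]
      map_smul' := fun c x => by
        funext l
        simp only [Submodule.coe_smul, map_smul, inner_smul_right, Pi.smul_apply, smul_eq_mul,
          RingHom.id_apply] }
  have hF : Function.Injective F := by
    rw [injective_iff_map_eq_zero]
    rintro ⟨x, hx⟩ h0
    have h1 := casT (q := q) (m := m) hN hC (ι x)
    have h2 : ∑ l, ∑ γ, ⟪eJ J l γ, ι x⟫_ℝ ^ 2 = 0 := by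
      refine Finset.sum_eq_zero fun l _ => Finset.sum_eq_zero fun γ _ => ?_
      have := congrFun h0 (l, γ)
      change ⟪eJ J l γ, ι x⟫_ℝ = 0 at this
      rw [this]
      norm_num
    have h3 : ∑ k, ‖DR (A k) (ι x)‖ ^ 2 = 0 := by
      refine Finset.sum_eq_zero fun k _ => ?_
      rw [FH_DR hA x hx, norm_zero]
      norm_num
    rw [h2, h3, sub_zero, ι.norm_map] at h1
    have h4 : ‖x‖ ^ 2 ≤ 0 := by
      have h5 := hC.cpos
      nlinarith
    have h5 : x = 0 := by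
      have h6 : ‖x‖ ^ 2 = 0 := le_antisymm h4 (sq_nonneg _)
      exact norm_eq_zero.1 (pow_eq_zero_iff (two_ne_zero) |>.1 h6)
    exact Subtype.ext h5
  have h := LinearMap.finrank_le_finrank_of_injective hF
  rw [Module.finrank_fintype_fun_eq_card, Fintype.card_prod, Fintype.card_fin] at h
  exact h

theorem dataH (hN : 1 ≤ N) (hH : Gp H) (hA : LA H A κ0) (hC : CA H A J c) (hι : InvH H ι) :
    LD (GH H ι) (fun k => DS ι (A k)) (ebH H ι) κ0 c := by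
  obtain ⟨c', hc1, hc2, hc3, hc4⟩ := hA.struc
  refine ⟨?_, ⟨c', hc1, hc2, ?_, ?_⟩, hA.kpos, hC.cpos, ebH_orth,
    casH hN hH hA hC hι, ?_, ?_⟩
  · intro k x y
    rw [← ι.inner_map_map, ← ι.inner_map_map x, ι_DH hA hι, ι_DH hA hι]
    exact DR_skew (hA.skew k) _ _
  · intro i j x
    apply ι.injective
    simp only [map_sub, map_sum, map_smul, ι_DH hA hι]
    rw [DR_comm, hc3 i j, DR_sum]
  · intro k x
    apply ι.injective
    simp only [map_sum, map_smul, ι_DH hA hι]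
    rw [← DR_sum, hc4 k, DR_smul]
  · intro k
    obtain ⟨U, hU, h0, hadd, hder⟩ := hA.path k
    refine ⟨fun t => isoH hH hι (U t) (hU t), fun t => isoH_mem hH hι _ _, ?_, ?_, ?_⟩
    · intro x
      apply ι.injective
      rw [isoH_apply, h0, RR_one]
    · intro s t x
      apply ι.injective
      rw [isoH_apply, isoH_apply, isoH_apply, RR_RR, hadd]
    · intro x
      exact ((pj ι).hasFDerivAt).comp_hasDerivAt (0 : ℝ)
        (RR_der (A k) (hA.skew k) U h0 hder (ι x))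
  · rintro e ⟨g, hg, he⟩ j
    apply ι.injective
    rw [he]
    exact (stdOrthonormalBasis ℝ (FH H ι) j).2 g hg

end sub

section op

variable {κ' : Type} [Fintype κ'] {q m N : ℕ} {H : Set (Matrix (Fin N) (Fin N) ℝ)}
  {A : κ' → Matrix (Fin N) (Fin N) ℝ} {κ0 : ℝ}

theorem BB_LH (hA : LA H A κ0) (r : ℝ) (x : V (Ix q m N)) (hx : x ∈ BB q m N r)
    (w : V (Ix q m N)) :
    ∑ k, ⟪w, DR (A k) x⟫_ℝ ^ 2 ≤ 4 * r ^ 2 * (q + 1) * ‖w‖ ^ 2 := by
  obtain ⟨T, hT⟩ : ∃ T : Option (Fin q) → Matrix (Fin N) (Fin N) ℝ, T = fun o => o.elim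
      (vt w * (vt x)ᵀ) fun j => mt j w * (mt j x)ᵀ - (mt j x)ᵀ * mt j w := ⟨_, rfl⟩
  have hTn : T none = vt w * (vt x)ᵀ := by rw [hT]; rfl
  have hTs : ∀ j, T (some j) = mt j w * (mt j x)ᵀ - (mt j x)ᵀ * mt j w := fun j => by rw [hT]; rfl
  have h1 : ∀ k, ⟪w, DR (A k) x⟫_ℝ = hs (A k) (∑ o, T o) := by
    intro k
    rw [inner_mv, hs_sum_right, Fintype.sum_option, add_comm, hTn]
    congr 1
    · rw [vt_DR, hs_comm, hs_mul_right]
    · refine Finset.sum_congr rfl fun j _ => ?_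
      rw [mt_DR, hTs, hs_sub_right, hs_sub_right, hs_comm (mt j w) (A k * mt j x),
        hs_mul_right, hs_comm (mt j w) (mt j x * A k), hs_mul_left]
  simp only [h1]
  refine (hA.par _).trans ((hs_sum_le T).trans ?_)
  rw [Fintype.card_option, Fintype.card_fin, Fintype.sum_option, hTn]
  have hr : 0 ≤ r := (norm_nonneg _).trans hx.2
  have h2 : hs (vt w * (vt x)ᵀ) (vt w * (vt x)ᵀ) ≤ r ^ 2 * hs (vt w) (vt w) := by
    have e1 : hs (vt w * (vt x)ᵀ) (vt w * (vt x)ᵀ) = hs (vt x * (vt w)ᵀ) (vt x * (vt w)ᵀ) := by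
      rw [← hs_tp, Matrix.transpose_mul, Matrix.transpose_transpose]
    rw [e1]
    refine (hs_mul_le _ _).trans ?_
    rw [hs_tp]
    exact mul_le_mul_of_nonneg_right (pow_le_pow_left₀ (norm_nonneg _) hx.2 2) (hs_nonneg _)
  have h3 : ∀ j : Fin q, hs (T (some j)) (T (some j)) ≤ 4 * r ^ 2 * hs (mt j w) (mt j w) := by
    intro j
    rw [hTs]
    refine (hs_sub_le _ _).trans ?_
    have e1 : hs (mt j w * (mt j x)ᵀ) (mt j w * (mt j x)ᵀ) ≤ r ^ 2 * hs (mt j w) (mt j w) := by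
      have e2 : hs (mt j w * (mt j x)ᵀ) (mt j w * (mt j x)ᵀ) =
          hs (mt j x * (mt j w)ᵀ) (mt j x * (mt j w)ᵀ) := by
        rw [← hs_tp, Matrix.transpose_mul, Matrix.transpose_transpose]
      rw [e2]
      refine (hs_mul_le _ _).trans ?_
      rw [hs_tp]
      exact mul_le_mul_of_nonneg_right (pow_le_pow_left₀ (norm_nonneg _) (hx.1 j) 2) (hs_nonneg _)
    have e2 : hs ((mt j x)ᵀ * mt j w) ((mt j x)ᵀ * mt j w) ≤ r ^ 2 * hs (mt j w) (mt j w) := by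
      refine (hs_mul_le _ _).trans ?_
      exact mul_le_mul_of_nonneg_right
        (pow_le_pow_left₀ (norm_nonneg _) ((norm_tp _).trans (hx.1 j)) 2) (hs_nonneg _)
    linarith
  have h4 : ∑ j : Fin q, hs (T (some j)) (T (some j)) ≤
      4 * r ^ 2 * ∑ j, hs (mt j w) (mt j w) := by
    rw [Finset.mul_sum]
    exact Finset.sum_le_sum fun j _ => h3 j
  have h5 : hs (vt w * (vt x)ᵀ) (vt w * (vt x)ᵀ) + ∑ j : Fin q, hs (T (some j)) (T (some j)) ≤
      4 * r ^ 2 * ‖w‖ ^ 2 := by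
    rw [norm_mv]
    have h6 : 0 ≤ r ^ 2 * hs (vt w) (vt w) := mul_nonneg (sq_nonneg r) (hs_nonneg _)
    linarith
  push_cast
  calc ((q : ℝ) + 1) * (hs (vt w * (vt x)ᵀ) (vt w * (vt x)ᵀ) +
        ∑ j : Fin q, hs (T (some j)) (T (some j))) ≤ (q + 1) * (4 * r ^ 2 * ‖w‖ ^ 2) :=
        mul_le_mul_of_nonneg_left h5 (by positivity)
    _ = 4 * r ^ 2 * (q + 1) * ‖w‖ ^ 2 := by ring

theorem BB_invH {κ : Type} [Fintype κ] {ι : V κ →ₗᵢ[ℝ] V (Ix q m N)} (hH : Gp H) (r : ℝ) :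
    ∀ e ∈ GH H ι, ∀ x, e x ∈ ι ⁻¹' (BB q m N r) ↔ x ∈ ι ⁻¹' (BB q m N r) := by
  rintro e ⟨g, hg, he⟩ x
  show ι (e x) ∈ BB q m N r ↔ ι x ∈ BB q m N r
  rw [he]
  exact BB_inv r (iso g (hH.orth g hg)) (iso_mem g (hH.orth g hg)) (ι x)

end op

end Pool.Agent.T6.H95.KS
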