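import Pool.Agent.T6.H95.KS.Un

/-!
# The special unitary group
-/

set_option autoImplicit false

namespace Pool.Agent.T6.H95.KS

open MeasureTheory Set Matrix
open scoped ENNReal InnerProductSpace
open Pool.Agent.TH591.TT
open Pool.Agent.H888R2.KC (KI Km ip Km_skew Km_complete Km_parseval)

section det

variable {N : ℕ}

/-- derivative of the determinant at the identity -/
theorem hasDerivAt_det' {k : ℕ} (g : ℝ → Matrix (Fin k) (Fin k) ℂ) (g' : Matrix (Fin k) (Fin k) ℂ)
    (hg : ∀ i j, HasDerivAt (fun t => g t i j) (g' i j) 0) (h1 : g 0 = 1) :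
    HasDerivAt (fun t => (g t).det) g'.trace 0 := by
  have h2 : ∀ σ : Equiv.Perm (Fin k), HasDerivAt (fun t => ∏ i, g t (σ i) i)
      (∑ i, (∏ j ∈ Finset.univ.erase i, g 0 (σ j) j) • g' (σ i) i) 0 := fun σ =>
    HasDerivAt.fun_finsetProd (u := Finset.univ) (f := fun i t => g t (σ i) i)
      (f' := fun i => g' (σ i) i) (fun i _ => hg (σ i) i)
  have h3 : HasDerivAt (fun t => ∑ σ : Equiv.Perm (Fin k),
      ((Equiv.Perm.sign σ : ℤ) : ℂ) * ∏ i, g t (σ i) i)
      (∑ σ : Equiv.Perm (Fin k), ((Equiv.Perm.sign σ : ℤ) : ℂ) *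
        ∑ i, (∏ j ∈ Finset.univ.erase i, g 0 (σ j) j) • g' (σ i) i) 0 :=
    HasDerivAt.fun_sum (fun σ _ => (h2 σ).const_mul _)
  have h4 : (∑ σ : Equiv.Perm (Fin k), ((Equiv.Perm.sign σ : ℤ) : ℂ) *
        ∑ i, (∏ j ∈ Finset.univ.erase i, g 0 (σ j) j) • g' (σ i) i) = g'.trace := by
    rw [Finset.sum_eq_single 1]
    · simp [h1, Matrix.trace]
    · intro σ _ hσ
      rw [Finset.sum_eq_zero, mul_zero]
      intro i _
      have : ∃ j, j ≠ i ∧ σ j ≠ j := by
        by_contra hcon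
        push Not at hcon
        apply hσ
        ext j
        by_cases hj : j = i
        · subst hj
          by_contra hne
          have hne' : σ j ≠ j := fun h => hne (by rw [h]; rfl)
          have := hcon (σ j) hne'
          exact hne' (σ.injective this)
        · rw [hcon j hj]; rfl
      obtain ⟨j, hj, hj'⟩ := this
      rw [Finset.prod_eq_zero (Finset.mem_erase.mpr ⟨hj, Finset.mem_univ j⟩), zero_smul]
      rw [h1, Matrix.one_apply_ne hj']
    · intro h
      exact absurd (Finset.mem_univ _) h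
  rw [h4] at h3
  have h5 : (fun t => (g t).det) = fun t => ∑ σ : Equiv.Perm (Fin k),
      ((Equiv.Perm.sign σ : ℤ) : ℂ) * ∏ i, g t (σ i) i := by
    funext t
    rw [Matrix.det_apply']
  rw [h5]
  exact h3

/-- complexification -/
noncomputable def cx (A : Matrix (Fin N) (Fin N) ℝ) : Matrix (Fin N) (Fin N) ℂ :=
  A.map Complex.ofReal

theorem cx_mul (A B : Matrix (Fin N) (Fin N) ℝ) : cx (A * B) = cx A * cx B := by
  unfold cx
  exact Matrix.map_mul (f := Complex.ofRealHom)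

theorem cx_one : cx (1 : Matrix (Fin N) (Fin N) ℝ) = 1 := by
  unfold cx
  exact Matrix.map_one _ Complex.ofReal_zero Complex.ofReal_one

theorem cx_trace (A : Matrix (Fin N) (Fin N) ℝ) : (cx A).trace = (A.trace : ℂ) := by
  unfold cx
  simp [Matrix.trace]

/-- the projection onto the eigenspace of `I` for the eigenvalue `i` -/
noncomputable def Pi' (I : Matrix (Fin N) (Fin N) ℝ) : Matrix (Fin N) (Fin N) ℂ :=
  (1 / 2 : ℂ) • (1 - Complex.I • cx I)

/-- the determinant of a matrix commuting with `I` as a complex linear map -/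
noncomputable def dC (I g : Matrix (Fin N) (Fin N) ℝ) : ℂ :=
  (cx g * Pi' I + (1 - Pi' I)).det

theorem Pi_idem {I : Matrix (Fin N) (Fin N) ℝ} (h : I * I = -1) : Pi' I * Pi' I = Pi' I := by
  unfold Pi'
  have h1 : cx I * cx I = -1 := by
    rw [← cx_mul, h]
    have : cx (-1 : Matrix (Fin N) (Fin N) ℝ) = - cx 1 := by
      unfold cx
      ext i j
      simp only [Matrix.neg_apply, Matrix.map_apply, Complex.ofReal_neg]
    rw [this, cx_one]
  have h2 : (1 - Complex.I • cx I) * (1 - Complex.I • cx I) = (2 : ℂ) • (1 - Complex.I • cx I) := by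
    rw [Matrix.sub_mul, Matrix.mul_sub, Matrix.mul_sub, Matrix.one_mul, Matrix.mul_one,
      Matrix.one_mul, Matrix.smul_mul, Matrix.mul_smul, smul_smul, h1, Complex.I_mul_I, two_smul]
    simp
    abel
  rw [Matrix.smul_mul, Matrix.mul_smul, h2, smul_smul, smul_smul]
  norm_num

theorem Pi_comm {I g : Matrix (Fin N) (Fin N) ℝ} (h : g * I = I * g) :
    cx g * Pi' I = Pi' I * cx g := by
  unfold Pi'
  rw [Matrix.mul_smul, Matrix.smul_mul, Matrix.mul_sub, Matrix.sub_mul, Matrix.mul_one,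
    Matrix.one_mul, Matrix.mul_smul, Matrix.smul_mul, ← cx_mul, ← cx_mul, h]

theorem dC_mul {I g h : Matrix (Fin N) (Fin N) ℝ} (hI : I * I = -1) (hh : h * I = I * h) :
    dC I (g * h) = dC I g * dC I h := by
  unfold dC
  rw [← Matrix.det_mul]
  congr 1
  have h1 := Pi_idem hI
  have h2 := Pi_comm hh
  have h3 : Pi' I * (cx h * Pi' I) = cx h * Pi' I := by
    rw [h2, ← Matrix.mul_assoc, h1]
  rw [cx_mul, Matrix.add_mul, Matrix.mul_add, Matrix.mul_add, Matrix.mul_assoc (cx g) (Pi' I),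
    h3, Matrix.mul_assoc (cx g) (Pi' I), Matrix.sub_mul, Matrix.sub_mul, Matrix.mul_sub,
    Matrix.mul_sub, h1, h3]
  simp only [Matrix.mul_one, Matrix.one_mul, sub_self, Matrix.mul_zero, sub_zero, add_zero,
    zero_add, Matrix.mul_assoc]

theorem dC_one (I : Matrix (Fin N) (Fin N) ℝ) : dC I 1 = 1 := by
  unfold dC
  rw [cx_one, Matrix.one_mul, add_sub_cancel, Matrix.det_one]

/-- the determinant along a one parameter group -/
theorem dC_path {I K : Matrix (Fin N) (Fin N) ℝ} (hI : I * I = -1)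
    (U : ℝ → Matrix (Fin N) (Fin N) ℝ) (hUI : ∀ t, U t * I = I * U t) (h0 : U 0 = 1)
    (hadd : ∀ s t, U (s + t) = U s * U t)
    (hder : ∀ a b, HasDerivAt (fun t => U t a b) (K a b) 0) (t : ℝ) :
    dC I (U t) = Complex.exp (t * (cx K * Pi' I).trace) := by
  obtain ⟨f, hf⟩ : ∃ f : ℝ → ℂ, f = fun t => dC I (U t) := ⟨_, rfl⟩
  obtain ⟨c, hc⟩ : ∃ c : ℂ, c = (cx K * Pi' I).trace := ⟨_, rfl⟩
  have hf0 : f 0 = 1 := by rw [hf]; show dC I (U 0) = 1; rw [h0, dC_one]
  have hfadd : ∀ s t, f (s + t) = f s * f t := by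
    intro s t
    rw [hf]
    show dC I (U (s + t)) = dC I (U s) * dC I (U t)
    rw [hadd, dC_mul hI (hUI t)]
  have hd0 : HasDerivAt f c 0 := by
    rw [hf, hc]
    refine hasDerivAt_det' (fun t => cx (U t) * Pi' I + (1 - Pi' I)) (cx K * Pi' I) ?_ ?_
    · intro i j
      have h1 : ∀ k, HasDerivAt (fun t => (cx (U t)) i k * Pi' I k j) (cx K i k * Pi' I k j) 0 := by
        intro k
        have h2 : HasDerivAt (fun t => ((U t i k : ℝ) : ℂ)) ((K i k : ℝ) : ℂ) 0 :=
          (hder i k).ofReal_comp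
        exact h2.mul_const _
      have h2 : HasDerivAt (fun t => ∑ k, (cx (U t)) i k * Pi' I k j + (1 - Pi' I) i j)
          (∑ k, cx K i k * Pi' I k j) 0 :=
        (HasDerivAt.fun_sum fun k _ => h1 k).add_const _
      have h3 : (fun t => (cx (U t) * Pi' I + (1 - Pi' I)) i j) =
          fun t => ∑ k, (cx (U t)) i k * Pi' I k j + (1 - Pi' I) i j := by
        funext t
        rw [Matrix.add_apply, Matrix.mul_apply]
      rw [h3, Matrix.mul_apply]
      exact h2
    · rw [h0, cx_one, Matrix.one_mul, add_sub_cancel]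
  have hd : ∀ s, HasDerivAt f (f s * c) s := by
    intro s
    have h1 : HasDerivAt (fun r => f s * f (r - s)) (f s * c) s := by
      have h2 : HasDerivAt f c (s - s) := by rw [sub_self]; exact hd0
      exact (h2.comp_sub_const s s).const_mul _
    have h3 : f = fun r => f s * f (r - s) := by
      funext r
      rw [← hfadd, add_sub_cancel]
    rw [h3]
    simp only [sub_self, hf0, mul_one]
    exact h1
  have hg : ∀ s : ℝ, HasDerivAt (fun r : ℝ => f r * Complex.exp (-(r * c))) 0 s := by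
    intro s
    have h1 : HasDerivAt (fun r : ℝ => Complex.exp (-((r : ℂ) * c)))
        (Complex.exp (-((s : ℂ) * c)) * -c) s := by
      have h2 : HasDerivAt (fun r : ℝ => -((r : ℂ) * c)) (-(1 * c)) s :=
        ((Complex.ofRealCLM.hasDerivAt (x := s)).mul_const c).neg
      rw [one_mul] at h2
      exact h2.cexp
    have h2 := (hd s).mul h1
    have h3 : f s * c * Complex.exp (-((s : ℂ) * c)) +
        f s * (Complex.exp (-((s : ℂ) * c)) * -c) = 0 := by ring
    rw [h3] at h2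
    exact h2
  have hconst := is_const_of_deriv_eq_zero (fun s => (hg s).differentiableAt)
    (fun s => (hg s).deriv) t 0
  simp only [hf0, Complex.ofReal_zero, zero_mul, neg_zero, Complex.exp_zero, mul_one] at hconst
  have h5 : f t = Complex.exp (t * c) := by
    have h6 : f t * Complex.exp (-(t * c)) * Complex.exp (t * c) = Complex.exp (t * c) := by
      rw [hconst, one_mul]
    rw [mul_assoc, ← Complex.exp_add, neg_add_cancel, Complex.exp_zero, mul_one] at h6
    exact h6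
  rw [hf] at h5
  rw [← hc]
  exact h5

theorem tr_Pi (I K : Matrix (Fin N) (Fin N) ℝ) :
    (cx K * Pi' I).trace = (1 / 2 : ℂ) * ((K.trace : ℂ) - Complex.I * ((K * I).trace : ℂ)) := by
  unfold Pi'
  rw [Matrix.mul_smul, Matrix.trace_smul, Matrix.mul_sub, Matrix.mul_one, Matrix.trace_sub,
    Matrix.mul_smul, Matrix.trace_smul, ← cx_mul, cx_trace, cx_trace, smul_eq_mul, smul_eq_mul]

/-- the determinant of an orthogonal matrix commuting with `I` has absolute value one -/
theorem dC_abs {I g : Matrix (Fin N) (Fin N) ℝ} (h : Cpx I) (hg : g ∈ Hc (CC I)) :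
    ‖dC I g‖ = 1 := by
  have hgI : g * I = I * g := hg.2 1
  have hgt := (Hc_gp (CC I)).tp g hg
  have hgtI : gᵀ * I = I * gᵀ := hgt.2 1
  have h1 : dC I (gᵀ * g) = dC I gᵀ * dC I g := dC_mul h.sI hgI
  rw [orth2 hg.1, dC_one] at h1
  have h2 : dC I gᵀ = star (dC I g) := by
    unfold dC
    rw [← Matrix.det_conjTranspose]
    congr 1
    have hP : (Pi' I)ᴴ = Pi' I := by
      have hcI : (cx I)ᴴ = - cx I := by
        have : (cx I)ᴴ = cx Iᵀ := by
          unfold cx
          ext i j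
          simp [Matrix.conjTranspose_apply]
        rw [this, h.tI]
        unfold cx
        ext i j
        simp
      unfold Pi'
      rw [Matrix.conjTranspose_smul, Matrix.conjTranspose_sub, Matrix.conjTranspose_one,
        Matrix.conjTranspose_smul, hcI]
      congr 1
      · simp
      · simp
    have hc : (cx g)ᴴ = cx gᵀ := by
      unfold cx
      ext i j
      simp [Matrix.conjTranspose_apply]
    rw [Matrix.conjTranspose_add, Matrix.conjTranspose_mul, Matrix.conjTranspose_sub,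
      Matrix.conjTranspose_one, hP, hc, Pi_comm hgtI]
  rw [h2] at h1
  have h3 : ‖dC I g‖ * ‖dC I g‖ = 1 := by
    have := congrArg norm h1
    rw [norm_mul, norm_star, norm_one] at this
    exact this.symm
  nlinarith [norm_nonneg (dC I g)]

end det

section su

variable {N : ℕ}

/-- the special unitary group -/
def Hs (I : Matrix (Fin N) (Fin N) ℝ) : Set (Matrix (Fin N) (Fin N) ℝ) :=
  {g | g ∈ Hc (CC I) ∧ dC I g = 1}

theorem Hs_gp {I : Matrix (Fin N) (Fin N) ℝ} (h : Cpx I) : Gp (Hs I) := by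
  have hG := Hc_gp (CC I)
  refine ⟨fun g hg => hG.orth g hg.1, fun g hg => ⟨hG.tp g hg.1, ?_⟩,
    fun g hg k hk => ⟨hG.mul g hg.1 k hk.1, ?_⟩⟩
  · have h1 : dC I (gᵀ * g) = dC I gᵀ * dC I g := dC_mul h.sI (hg.1.2 1)
    rw [orth2 hg.1.1, dC_one, hg.2, mul_one] at h1
    exact h1.symm
  · rw [dC_mul h.sI (hk.1.2 1), hg.2, hk.2, mul_one]

/-- the rotation by the angle `φ` in the complex line of the unit vector `w` -/
noncomputable def Ph (I : Matrix (Fin N) (Fin N) ℝ) (w : EuclideanSpace ℝ (Fin N)) (φ : ℝ) :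
    Matrix (Fin N) (Fin N) ℝ :=
  1 - WW (CC I) (vv w w) + Real.cos φ • WW (CC I) (vv w w) +
    Real.sin φ • (I * WW (CC I) (vv w w))

theorem Ph_zero (I : Matrix (Fin N) (Fin N) ℝ) (w : EuclideanSpace ℝ (Fin N)) : Ph I w 0 = 1 := by
  unfold Ph
  rw [Real.cos_zero, Real.sin_zero, one_smul, zero_smul, add_zero, sub_add_cancel]

theorem Ph_add {I : Matrix (Fin N) (Fin N) ℝ} (h : Cpx I) (w : EuclideanSpace ℝ (Fin N))
    (hw : ‖w‖ = 1) (a b : ℝ) : Ph I w (a + b) = Ph I w a * Ph I w b := by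
  obtain ⟨W, hW⟩ : ∃ W : Matrix (Fin N) (Fin N) ℝ, W = WW (CC I) (vv w w) := ⟨_, rfl⟩
  have hWW : W * W = W := by
    rw [hW, h.qj.W_W, hw, one_pow, one_smul]
  have hIW : I * W = W * I := by
    rw [hW]
    exact (h.qj.W_comm _ 1).symm
  have h1 : W * (I * W) = I * W := by rw [hIW, ← Matrix.mul_assoc, hWW]
  have h2 : I * W * W = I * W := by rw [Matrix.mul_assoc, hWW]
  have h3 : I * W * (I * W) = -W := by
    rw [hIW, Matrix.mul_assoc, ← Matrix.mul_assoc I W I, hIW, Matrix.mul_assoc, h.sI,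
      Matrix.mul_neg, Matrix.mul_one, Matrix.mul_neg, hWW]
  unfold Ph
  rw [← hW, Real.cos_add, Real.sin_add]
  simp only [Matrix.add_mul, Matrix.sub_mul, Matrix.mul_add, Matrix.mul_sub, Matrix.one_mul,
    Matrix.mul_one, Matrix.smul_mul, Matrix.mul_smul, hWW, h1, h2, h3, smul_sub, smul_neg,
    add_smul, sub_smul, smul_add, smul_smul]
  have e1 : (Real.sin b * Real.sin a) • W = (Real.sin a * Real.sin b) • W := by rw [mul_comm]
  have e2 : (Real.cos b * Real.cos a) • W = (Real.cos a * Real.cos b) • W := by rw [mul_comm]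
  have e3 : (Real.cos b * Real.sin a) • (I * W) = (Real.sin a * Real.cos b) • (I * W) := by
    rw [mul_comm]
  have e4 : (Real.sin b * Real.cos a) • (I * W) = (Real.cos a * Real.sin b) • (I * W) := by
    rw [mul_comm]
  try rw [e1]
  try rw [e2]
  try rw [e3]
  try rw [e4]
  abel

theorem Ph_mem {I : Matrix (Fin N) (Fin N) ℝ} (h : Cpx I) (w : EuclideanSpace ℝ (Fin N))
    (hw : ‖w‖ = 1) (φ : ℝ) : Ph I w φ ∈ Hc (CC I) := by
  have hIW : I * WW (CC I) (vv w w) = WW (CC I) (vv w w) * I := (h.qj.W_comm _ 1).symm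
  constructor
  · rw [Matrix.mem_orthogonalGroup_iff]
    show Ph I w φ * (Ph I w φ)ᵀ = 1
    have h1 : (Ph I w φ)ᵀ = Ph I w (-φ) := by
      unfold Ph
      rw [Matrix.transpose_add, Matrix.transpose_add, Matrix.transpose_sub, Matrix.transpose_one,
        Matrix.transpose_smul, Matrix.transpose_smul, Matrix.transpose_mul, W_tp, h.tI,
        Real.cos_neg, Real.sin_neg, hIW, Matrix.mul_neg, smul_neg, neg_smul]
    rw [h1, ← Ph_add h w hw, add_neg_cancel, Ph_zero]
  · intro γ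
    have hI : I * CC I γ = CC I γ * I := Cpx.I_comm γ
    unfold Ph
    simp only [Matrix.add_mul, Matrix.sub_mul, Matrix.mul_add, Matrix.mul_sub, Matrix.one_mul,
      Matrix.mul_one, Matrix.smul_mul, Matrix.mul_smul, h.qj.W_comm]
    congr 2
    rw [Matrix.mul_assoc, h.qj.W_comm, ← Matrix.mul_assoc, hI, Matrix.mul_assoc]

theorem Ph_det {I : Matrix (Fin N) (Fin N) ℝ} (h : Cpx I) (w : EuclideanSpace ℝ (Fin N))
    (hw : ‖w‖ = 1) (φ : ℝ) : dC I (Ph I w φ) = Complex.exp (φ * Complex.I) := by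
  obtain ⟨W, hW⟩ : ∃ W : Matrix (Fin N) (Fin N) ℝ, W = WW (CC I) (vv w w) := ⟨_, rfl⟩
  have hIW : I * W = W * I := by
    rw [hW]
    exact (h.qj.W_comm _ 1).symm
  have hder : ∀ a b, HasDerivAt (fun t => Ph I w t a b) ((I * W) a b) 0 := by
    intro a b
    have h1 : (fun t => Ph I w t a b) = fun t => (1 - W) a b + Real.cos t * W a b +
        Real.sin t * (I * W) a b := by
      funext t
      unfold Ph
      rw [← hW]
      rfl
    have h2 : HasDerivAt (fun t => (1 - W) a b + Real.cos t * W a b +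
        Real.sin t * (I * W) a b) (-Real.sin 0 * W a b + Real.cos 0 * (I * W) a b) 0 :=
      (((Real.hasDerivAt_cos 0).mul_const _).const_add _).add
        ((Real.hasDerivAt_sin 0).mul_const _)
    rw [Real.sin_zero, Real.cos_zero, neg_zero, zero_mul, zero_add, one_mul] at h2
    rw [h1]
    exact h2
  have h1 := dC_path h.sI (fun t => Ph I w t) (fun t => (Ph_mem h w hw t).2 1) (Ph_zero I w)
    (Ph_add h w hw) hder φ
  have htr : W.trace = 2 := by
    have hWt : ∀ γ : Fin 2, (CC I γ * vv w w * (CC I γ)ᵀ).trace = 1 := by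
      intro γ
      rw [Matrix.trace_mul_comm, ← Matrix.mul_assoc, h.qj.orth, Matrix.one_mul]
      unfold vv
      rw [Matrix.trace_vecMulVec]
      have h2 := real_inner_self_eq_norm_sq w
      rw [hw, one_pow, PiLp.inner_apply] at h2
      rw [dotProduct, ← h2]
      refine Finset.sum_congr rfl fun i _ => ?_
      simp [sq]
    rw [hW]
    unfold WW
    rw [Matrix.trace_sum, Finset.sum_congr rfl fun γ _ => hWt γ]
    simp
  have htIW : (I * W).trace = 0 := by
    have h2 := Matrix.trace_transpose (I * W)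
    have h3 : (I * W)ᵀ = -(I * W) := by
      rw [Matrix.transpose_mul, h.tI, hW, W_tp, Matrix.mul_neg, ← hW, hIW]
    rw [h3, Matrix.trace_neg] at h2
    linarith
  have htIWI : (I * W * I).trace = -2 := by
    rw [hIW, Matrix.mul_assoc, h.sI, Matrix.mul_neg, Matrix.mul_one, Matrix.trace_neg, htr]
  show dC I (Ph I w φ) = _
  have h5 : dC I (Ph I w φ) = Complex.exp (φ * (cx (I * W) * Pi' I).trace) := h1
  rw [h5, tr_Pi, htIW, htIWI]
  congr 1
  push_cast
  ring

theorem Ph_fix {I : Matrix (Fin N) (Fin N) ℝ} {w x : EuclideanSpace ℝ (Fin N)}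
    (hx : Pe (CC I) w x) (φ : ℝ) : tm (Ph I w φ) x = x := by
  unfold Ph
  rw [map_add, map_add, map_sub, map_smul, map_smul, ContinuousLinearMap.add_apply,
    ContinuousLinearMap.add_apply, ContinuousLinearMap.sub_apply, ContinuousLinearMap.smul_apply,
    ContinuousLinearMap.smul_apply, tm_one, tm_mul, W_perp hx, map_zero, smul_zero, smul_zero,
    sub_zero, add_zero, add_zero]

/-- transitivity of the special unitary group -/
theorem Hs_trans {I : Matrix (Fin N) (Fin N) ℝ} (h : Cpx I) (hN : 6 ≤ N)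
    (v y z : EuclideanSpace ℝ (Fin N)) (hy : Pe (CC I) v y) (hz : Pe (CC I) v z)
    (hn : ‖y‖ = ‖z‖) : ∃ g ∈ Hs I, tm g v = v ∧ tm g y = z := by
  obtain ⟨g, hg, hgv, hgy⟩ := h.qj.trans v y z hy hz hn
  -- a unit vector orthogonal to the complex lines of `v` and `z`
  obtain ⟨w, hw, hwv, hwz⟩ : ∃ w : EuclideanSpace ℝ (Fin N), ‖w‖ = 1 ∧ Pe (CC I) v w ∧
      Pe (CC I) z w := by
    obtain ⟨Q, hQ⟩ : ∃ Q : Submodule ℝ (EuclideanSpace ℝ (Fin N)),
      Q = Submodule.span ℝ (Set.range fun p : Fin 2 × Fin 2 =>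
        tm (CC I p.1) (![v, z] p.2)) := ⟨_, rfl⟩
    have hQd : Module.finrank ℝ Q ≤ 4 := by
      rw [hQ]
      have h2 : Module.finrank ℝ (Submodule.span ℝ (Set.range fun p : Fin 2 × Fin 2 =>
        tm (CC I p.1) (![v, z] p.2))) ≤ Fintype.card (Fin 2 × Fin 2) := finrank_range_le_card _
      exact h2.trans (by simp)
    have hsum := Q.finrank_add_finrank_orthogonal
    rw [finrank_euclideanSpace, Fintype.card_fin] at hsum
    have h5 : 0 < Module.finrank ℝ Qᗮ := by omega
    have := Module.finrank_pos_iff.1 h5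
    obtain ⟨⟨p, hp⟩, hp0⟩ := exists_ne (0 : ↥Qᗮ)
    have hp0' : p ≠ 0 := fun h => hp0 (Subtype.ext h)
    have hn : 0 < ‖p‖ := norm_pos_iff.2 hp0'
    have hmem : ∀ γ : Fin 2, ∀ a : Fin 2, ⟪tm (CC I γ) (![v, z] a), p⟫_ℝ = 0 := by
      intro γ a
      exact hp _ (by rw [hQ]; exact Submodule.subset_span ⟨(γ, a), rfl⟩)
    refine ⟨‖p‖⁻¹ • p, ?_, ?_, ?_⟩
    · rw [norm_smul, norm_inv, norm_norm, inv_mul_cancel₀ hn.ne']
    · exact Pe.smul (fun γ => hmem γ 0) _
    · exact Pe.smul (fun γ => hmem γ 1) _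
  have habs := dC_abs h hg
  obtain ⟨θ, hθ⟩ : ∃ θ : ℝ, dC I g = Complex.exp (θ * Complex.I) := by
    refine ⟨Complex.arg (dC I g), ?_⟩
    have := Complex.norm_mul_exp_arg_mul_I (dC I g)
    rw [habs, Complex.ofReal_one, one_mul] at this
    exact this.symm
  refine ⟨Ph I w (-θ) * g, ⟨(Hc_gp _).mul _ (Ph_mem h w hw _) _ hg, ?_⟩, ?_, ?_⟩
  · rw [dC_mul h.sI (hg.2 1), Ph_det h w hw, hθ, ← Complex.exp_add]
    have : ((-θ : ℝ) : ℂ) * Complex.I + (θ : ℂ) * Complex.I = 0 := by
      push_cast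
      ring
    rw [this, Complex.exp_zero]
  · rw [tm_mul, hgv, Ph_fix (h.qj.pe_symm hwv)]
  · rw [tm_mul, hgy, Ph_fix (h.qj.pe_symm hwz)]

theorem Hs_st {I : Matrix (Fin N) (Fin N) ℝ} (h : Cpx I) (hN : 6 ≤ N) : ST (Hs I) (CC I) :=
  ⟨Hs_gp h, h.qj, fun g hg => hg.1.2, Hs_trans h hN, by simp, by simp; omega, by omega⟩

theorem Hs_la {I : Matrix (Fin N) (Fin N) ℝ} (h : Cpx I) (hN : 1 ≤ N) :
    LA (Hs I) (Ak (PU I)) ((N : ℝ) / 2) := by
  have hL := h.la hN
  have hp := h.pj hN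
  refine ⟨hL.skew, fun k => ?_, hL.struc, hL.kpos, hL.par⟩
  obtain ⟨U, hU, h0, hadd, hder⟩ := hL.path k
  refine ⟨U, fun t => ⟨hU t, ?_⟩, h0, hadd, hder⟩
  rw [dC_path h.sI U (fun t => (hU t).2 1) h0 hadd hder, tr_Pi]
  have h1 : (Ak (PU I) k).trace = 0 := by
    have h2 := Matrix.trace_transpose (Ak (PU I) k)
    rw [hp.Ak_skew, Matrix.trace_neg] at h2
    linarith
  have h2 : (Ak (PU I) k * I).trace = 0 := by
    have h3 : hs I (Ak (PU I) k) = 0 := h.hs_PU hN _
    have h4 : Ak (PU I) k * I = I * Ak (PU I) k := h.PU_comm _ 1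
    rw [hs_tr, h.tI, Matrix.neg_mul, Matrix.trace_neg, ← h4] at h3
    linarith
  rw [h1, h2]
  simp

theorem Hs_ca {I : Matrix (Fin N) (Fin N) ℝ} (h : Cpx I) (hN : 6 ≤ N) :
    CA (Hs I) (Ak (PU I)) (CC I) ((N : ℝ) / 16) := by
  have hC := h.ca hN
  exact ⟨fun g hg => hC.comm g hg.1, hC.cpos, hC.casM, hC.casV⟩

/-- **KLS for tuples of matrices and vectors invariant under the special unitary group.** -/
theorem sp_su : ∃ C : ℝ, 0 < C ∧ ∀ {κ : Type} [Fintype κ] {q m N : ℕ}
    (I : Matrix (Fin N) (Fin N) ℝ), Cpx I →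
    ∀ ι : V κ →ₗᵢ[ℝ] V (Ix q m N), InvH (Hs I) ι →
    SP (GH (Hs I) ι) (C * fac q m N) := by
  obtain ⟨C, hC, hsp⟩ := spH
  obtain ⟨C', hC', hsm⟩ := spSmall
  refine ⟨max C C', lt_max_of_lt_left hC, ?_⟩
  intro κ _ q m N I h ι hι
  have hmono : ∀ C1 C2 : ℝ, C1 ≤ C2 → SP (GH (Hs I) ι) (C1 * fac q m N) →
      SP (GH (Hs I) ι) (C2 * fac q m N) := by
    intro C1 C2 h12 h1 ρ hρ hb hu s hs hmom f hf
    refine (h1 ρ hρ hb hu s hs hmom f hf).trans
      (mul_le_mul_of_nonneg_right ?_ (integral_nonneg fun x => by positivity))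
    have := fac_pos q m N
    exact mul_le_mul_of_nonneg_right (mul_le_mul_of_nonneg_right h12 this.le) hs.le
  by_cases hN : N < 8
  · exact hmono _ _ (le_max_right _ _) (hsm _ hN ι)
  · have hN8 : (8 : ℝ) ≤ N := by exact_mod_cast (by omega : 8 ≤ N)
    refine hmono _ _ (le_max_left _ _) ?_
    exact hsp (Hs_st h (by omega)) (Hs_la h (by omega)) (Hs_ca h (by omega))
      (by linarith) le_rfl ι hι

end su

end Pool.Agent.T6.H95.KS
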