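import Pool.Agent.TH591.TT.FinS

/-!
# Small matrices: the crude bound
-/

set_option autoImplicit false

namespace Pool.Agent.T6.H95.KS

open MeasureTheory Set Matrix
open scoped ENNReal InnerProductSpace
open Pool.Agent.TH591.TT
open Pool.Agent.H212R2.KLS (mu Bdd)
open Pool.Agent.H888R2.KT (LC)

/-- For matrices of size less than `8` the Poincare inequality holds without invariance, with the
constant of the dimension. -/
theorem spSmall : ∃ C : ℝ, 0 < C ∧ ∀ {κ : Type} [Fintype κ] {q m N : ℕ}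
    (G : Set (V κ ≃ₗᵢ[ℝ] V κ)), N < 8 →
    ∀ _ι : V κ →ₗᵢ[ℝ] V (Ix q m N), SP G (C * fac q m N) := by
  obtain ⟨C₀, hC₀, hcr⟩ := Pool.Agent.H888R2.KT.crude
  refine ⟨C₀ * 343, by positivity, ?_⟩
  intro κ _ q m N G hN ι ρ hρ hb h1 s hs hmom f hf
  have hprob : IsProbabilityMeasure (mu ρ) := ⟨h1⟩
  have hball := ball_null hρ.meas hb
  have hLC : LC ρ := ⟨hρ.nonneg, hρ.meas, hρ.logc, hb, by rw [h1]; exact ENNReal.one_ne_top,
    by intro h; rw [h] at h1; simp at h1⟩
  obtain ⟨σ, hσ⟩ : ∃ σ : ℝ, σ = Real.sqrt (343 * fac q m N * s) := ⟨_, rfl⟩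
  have hf0 := fac_pos q m N
  have hσ0 : 0 < σ := by rw [hσ]; exact Real.sqrt_pos.2 (by positivity)
  have hσ2 : σ ^ 2 = 343 * fac q m N * s := by rw [hσ]; exact Real.sq_sqrt (by positivity)
  have hN8 : (N : ℝ) ≤ 7 := by exact_mod_cast (by omega : N ≤ 7)
  have hq0 : (0 : ℝ) ≤ q := Nat.cast_nonneg q
  have hm0 : (0 : ℝ) ≤ m := Nat.cast_nonneg m
  have hN0 : (0 : ℝ) ≤ N := Nat.cast_nonneg N
  -- the dimension
  have hdim : (Fintype.card κ : ℝ) ≤ q * (N * N) + m * N := by
    have h2 := LinearMap.finrank_le_finrank_of_injective (f := ι.toLinearMap) ι.injective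
    rw [finrank_euclideanSpace, finrank_euclideanSpace, Fintype.card_sum, Fintype.card_prod,
      Fintype.card_prod, Fintype.card_prod, Fintype.card_fin, Fintype.card_fin,
      Fintype.card_fin] at h2
    exact_mod_cast h2
  have hfac : (Fintype.card κ : ℝ) ≤ 343 * fac q m N := by
    refine hdim.trans ?_
    unfold fac
    rcases Nat.eq_zero_or_pos N with h0 | h0
    · rw [h0]
      push_cast
      have : (0 : ℝ) ≤ 343 * (((q : ℝ) + 1) ^ 2 * (1 + (q + m) / 0) ^ 2) := by positivity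
      linarith
    · have hN1 : (0 : ℝ) < N := by exact_mod_cast h0
      obtain ⟨b, hb⟩ : ∃ b : ℝ, b = 1 + ((q : ℝ) + m) / N := ⟨_, rfl⟩
      rw [← hb]
      have e1 : (q : ℝ) + m = (b - 1) * N := by
        rw [hb]
        field_simp
        ring
      have hb1 : 1 ≤ b := by
        rw [hb]
        have : (0 : ℝ) ≤ ((q : ℝ) + m) / N := by positivity
        linarith
      have e2 : (q : ℝ) * (N * N) + m * N ≤ 49 * ((q : ℝ) + m) := by
        have h3 : (N : ℝ) * N ≤ 49 := by nlinarith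
        have h4 : (m : ℝ) * N ≤ m * 49 := mul_le_mul_of_nonneg_left (by linarith) hm0
        nlinarith
      have e3 : 49 * ((q : ℝ) + m) ≤ 343 * b := by
        rw [e1]
        nlinarith
      have e4 : (1 : ℝ) ≤ ((q : ℝ) + 1) ^ 2 := by nlinarith
      have e5 : b ≤ b ^ 2 := by nlinarith
      have e6 : b ^ 2 ≤ ((q : ℝ) + 1) ^ 2 * b ^ 2 := le_mul_of_one_le_left (by positivity) e4
      linarith
  have hmom' : ∫ x, ‖x‖ ^ 2 ∂(mu ρ) ≤ σ ^ 2 := by
    classical
    have e1 : ∀ x : V κ, ‖x‖ ^ 2 = ∑ k, ⟪EuclideanSpace.single k (1 : ℝ), x⟫_ℝ ^ 2 := by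
      intro x
      rw [EuclideanSpace.real_norm_sq_eq]
      refine Finset.sum_congr rfl fun k _ => ?_
      rw [EuclideanSpace.inner_single_left]
      simp
    simp only [e1]
    rw [integral_finsetSum _ fun k _ => intg (mu ρ) hball _ (by fun_prop)]
    have h2 : ∀ k ∈ (Finset.univ : Finset κ),
        ∫ x, ⟪EuclideanSpace.single k (1 : ℝ), x⟫_ℝ ^ 2 ∂(mu ρ) ≤ s := by
      intro k _
      have h3 := hmom (EuclideanSpace.single k 1)
      simpa using h3
    refine (Finset.sum_le_sum h2).trans ?_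
    rw [Finset.sum_const, Finset.card_univ, nsmul_eq_mul, hσ2]
    exact mul_le_mul_of_nonneg_right hfac hs.le
  have h2 := hcr ρ hLC h1 σ hσ0 hmom' f hf
  rw [hσ2] at h2
  refine h2.trans (le_of_eq ?_)
  ring

end Pool.Agent.T6.H95.KS
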