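import Pool.Agent.T6.H95.KS.Alg
import Pool.Agent.T6.H95.KS.Fin

/-!
# The compact symplectic group
-/

set_option autoImplicit false

namespace Pool.Agent.T6.H95.KS

open MeasureTheory Set Matrix
open scoped ENNReal InnerProductSpace
open Pool.Agent.TH591.TT
open Pool.Agent.H888R2.KC (KI Km ip Km_skew Km_complete Km_parseval)

section general

variable {Γ : Type} [Fintype Γ] {N : ℕ} {J : Γ → Matrix (Fin N) (Fin N) ℝ}

theorem QJ.tp_ne (h : QJ J) {o : Γ} (ho : J o = 1) (γ : Γ) (hγ : γ ≠ o) : (J γ)ᵀ = -J γ := by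
  have h1 := h.skew γ o hγ
  rw [ho, Matrix.mul_one, Matrix.transpose_transpose] at h1
  have h2 := congrArg Neg.neg h1
  rw [neg_neg] at h2
  exact h2.symm

theorem QJ.conj_tp (h : QJ J) (γ : Γ) (M : Matrix (Fin N) (Fin N) ℝ) :
    (J γ)ᵀ * M * J γ = J γ * M * (J γ)ᵀ := by
  classical
  obtain ⟨o, ho⟩ := h.one
  by_cases hγ : γ = o
  · rw [hγ, ho]
    simp
  · rw [h.tp_ne ho γ hγ]
    simp

/-- the average as a linear map -/
noncomputable def PW (J : Γ → Matrix (Fin N) (Fin N) ℝ) :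
    Matrix (Fin N) (Fin N) ℝ →ₗ[ℝ] Matrix (Fin N) (Fin N) ℝ where
  toFun K := (Fintype.card Γ : ℝ)⁻¹ • WW J K
  map_add' K L := by
    unfold WW
    simp only [Matrix.mul_add, Matrix.add_mul, Finset.sum_add_distrib, smul_add]
  map_smul' c K := by
    unfold WW
    simp only [Matrix.mul_smul, Matrix.smul_mul, ← Finset.smul_sum, RingHom.id_apply]
    rw [smul_comm]

theorem PW_apply (K : Matrix (Fin N) (Fin N) ℝ) :
    PW J K = (Fintype.card Γ : ℝ)⁻¹ • WW J K := rfl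

theorem QJ.card_pos (h : QJ J) : (0 : ℝ) < Fintype.card Γ := by
  obtain ⟨o, -⟩ := h.one
  have : Nonempty Γ := ⟨o⟩
  exact_mod_cast Fintype.card_pos

theorem QJ.W_of_comm (h : QJ J) (M : Matrix (Fin N) (Fin N) ℝ)
    (hM : ∀ γ, M * J γ = J γ * M) : WW J M = (Fintype.card Γ : ℝ) • M := by
  unfold WW
  have h1 : ∀ γ, J γ * M * (J γ)ᵀ = M := by
    intro γ
    rw [← hM, Matrix.mul_assoc, h.orth', Matrix.mul_one]
  rw [Finset.sum_congr rfl fun γ _ => h1 γ, Finset.sum_const, Finset.card_univ, Nat.cast_smul_eq_nsmul]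

theorem QJ.PW_of_comm (h : QJ J) (M : Matrix (Fin N) (Fin N) ℝ)
    (hM : ∀ γ, M * J γ = J γ * M) : PW J M = M := by
  rw [PW_apply, h.W_of_comm M hM, smul_smul, inv_mul_cancel₀ h.card_pos.ne', one_smul]

theorem QJ.PW_comm (h : QJ J) (M : Matrix (Fin N) (Fin N) ℝ) (γ : Γ) :
    PW J M * J γ = J γ * PW J M := by
  rw [PW_apply, Matrix.smul_mul, Matrix.mul_smul, h.W_comm]

theorem WW_tp (M : Matrix (Fin N) (Fin N) ℝ) : (WW J M)ᵀ = WW J Mᵀ := by
  unfold WW
  rw [Matrix.transpose_sum]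
  refine Finset.sum_congr rfl fun γ _ => ?_
  rw [Matrix.transpose_mul, Matrix.transpose_mul, Matrix.transpose_transpose, Matrix.mul_assoc]

theorem QJ.pj (h : QJ J) : PJ (PW J) := by
  refine ⟨fun K => h.PW_of_comm _ (h.PW_comm K), fun K L => ?_, fun K hK => ?_,
    fun K L _ _ => h.PW_of_comm _ fun γ => ?_⟩
  · rw [PW_apply, PW_apply, hs_smul_left, hs_smul_right]
    congr 1
    unfold WW
    rw [hs_sum_left, hs_sum_right]
    refine Finset.sum_congr rfl fun γ _ => ?_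
    rw [← h.conj_tp γ L, hs_mul_right, Matrix.transpose_transpose, hs_mul_left, Matrix.mul_assoc]
  · rw [PW_apply, Matrix.transpose_smul, WW_tp, hK]
    unfold WW
    simp
  · have e : ∀ A B : Matrix (Fin N) (Fin N) ℝ, A * J γ = J γ * A → B * J γ = J γ * B →
        A * B * J γ = J γ * (A * B) := by
      intro A B hA hB
      rw [Matrix.mul_assoc, hB, ← Matrix.mul_assoc, hA, Matrix.mul_assoc]
    rw [Matrix.sub_mul, Matrix.mul_sub, e _ _ (h.PW_comm K γ) (h.PW_comm L γ),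
      e _ _ (h.PW_comm L γ) (h.PW_comm K γ)]

/-- the operator `X ↦ ∑ A X A` -/
theorem QJ.sumA (h : QJ J) (X : Matrix (Fin N) (Fin N) ℝ) :
    ∑ k, Ak (PW J) k * X * Ak (PW J) k =
      (2 * (Fintype.card Γ : ℝ))⁻¹ • ∑ γ, ((J γ)ᵀ * Xᵀ * (J γ)ᵀ - (X * J γ).trace • (J γ)ᵀ) := by
  rw [h.pj.sum_APA]
  have h1 : ∀ k : KI N, Km ℝ k * X * Ak (PW J) k =
      ∑ γ, (Fintype.card Γ : ℝ)⁻¹ • (Km ℝ k * (X * J γ) * Km ℝ k * (J γ)ᵀ) := by
    intro k
    unfold Ak
    rw [PW_apply, Matrix.mul_smul]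
    unfold WW
    rw [Finset.mul_sum, Finset.smul_sum]
    refine Finset.sum_congr rfl fun γ _ => ?_
    simp only [Matrix.mul_assoc]
  rw [Finset.sum_congr rfl fun k _ => h1 k, Finset.sum_comm, Finset.smul_sum]
  refine Finset.sum_congr rfl fun γ _ => ?_
  rw [← Finset.smul_sum, ← Finset.sum_mul, sumKMK, Matrix.smul_mul, Matrix.sub_mul,
    Matrix.smul_mul, Matrix.one_mul, Matrix.transpose_mul, smul_smul]
  congr 1
  rw [mul_inv]
  ring

theorem QJ.tr_zero (h : QJ J) {o : Γ} (ho : J o = 1) (γ : Γ) (hγ : γ ≠ o) : (J γ).trace = 0 := by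
  have h1 := Matrix.trace_transpose (J γ)
  rw [h.tp_ne ho γ hγ, Matrix.trace_neg] at h1
  linarith

theorem QJ.tp_tp (h : QJ J) {o : Γ} (ho : J o = 1) (γ : Γ) (hγ : γ ≠ o) :
    (J γ)ᵀ * (J γ)ᵀ = -1 := by
  have h1 := h.orth γ
  have h2 := h.tp_ne ho γ hγ
  calc (J γ)ᵀ * (J γ)ᵀ = (J γ)ᵀ * (-J γ) := by rw [← h2]
    _ = -1 := by rw [Matrix.mul_neg, h1]

theorem QJ.alpha (h : QJ J) : ∑ k, Ak (PW J) k * Ak (PW J) k =
    (-(((N : ℝ) + Fintype.card Γ - 2) / (2 * Fintype.card Γ))) •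
      (1 : Matrix (Fin N) (Fin N) ℝ) := by
  classical
  obtain ⟨o, ho⟩ := h.one
  have h1 := h.sumA 1
  simp only [Matrix.mul_one, Matrix.transpose_one, Matrix.one_mul] at h1
  rw [h1, ← Finset.add_sum_erase _ _ (Finset.mem_univ o)]
  have h2 : ∀ γ ∈ Finset.univ.erase o, ((J γ)ᵀ * (J γ)ᵀ - (J γ).trace • (J γ)ᵀ) = -1 := by
    intro γ hγ
    have hne := Finset.ne_of_mem_erase hγ
    rw [h.tp_tp ho γ hne, h.tr_zero ho γ hne, zero_smul, sub_zero]
  rw [Finset.sum_congr rfl h2, ho, Matrix.transpose_one, Matrix.mul_one, Matrix.trace_one,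
    Fintype.card_fin, Finset.sum_const, Finset.card_erase_of_mem (Finset.mem_univ o),
    Finset.card_univ]
  have hc := h.card_pos
  have hc1 : 1 ≤ Fintype.card Γ := by
    have : Nonempty Γ := ⟨o⟩
    exact Fintype.card_pos
  have e1 : ((Fintype.card Γ - 1 : ℕ) : ℝ) = (Fintype.card Γ : ℝ) - 1 := by
    rw [Nat.cast_sub hc1, Nat.cast_one]
  have e2 : (Fintype.card Γ - 1) • (-1 : Matrix (Fin N) (Fin N) ℝ) =
      (-((Fintype.card Γ : ℝ) - 1)) • (1 : Matrix (Fin N) (Fin N) ℝ) := by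
    rw [← Nat.cast_smul_eq_nsmul ℝ, e1, smul_neg, neg_smul]
  have e3 : (1 : Matrix (Fin N) (Fin N) ℝ) - (N : ℝ) • 1 +
      (-((Fintype.card Γ : ℝ) - 1)) • (1 : Matrix (Fin N) (Fin N) ℝ) =
      (1 - (N : ℝ) - ((Fintype.card Γ : ℝ) - 1)) • (1 : Matrix (Fin N) (Fin N) ℝ) := by
    rw [sub_smul, sub_smul, one_smul, neg_smul]
    abel
  rw [e2, e3, smul_smul]
  congr 1
  field_simp
  ring

/-- the value of `∑ A X A` for skew `X` which commute with the `J γ` and are orthogonal to them -/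
theorem QJ.beta (h : QJ J) (X : Matrix (Fin N) (Fin N) ℝ) (hX : Xᵀ = -X)
    (hc : ∀ γ, X * J γ = J γ * X) (ht : ∀ γ, (X * J γ).trace = 0) :
    ∑ k, Ak (PW J) k * X * Ak (PW J) k =
      (((Fintype.card Γ : ℝ) - 2) / (2 * Fintype.card Γ)) • X := by
  classical
  obtain ⟨o, ho⟩ := h.one
  rw [h.sumA, ← Finset.add_sum_erase _ _ (Finset.mem_univ o)]
  have h2 : ∀ γ ∈ Finset.univ.erase o, ((J γ)ᵀ * Xᵀ * (J γ)ᵀ - (X * J γ).trace • (J γ)ᵀ) = X := by
    intro γ hγ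
    have hne := Finset.ne_of_mem_erase hγ
    have e1 := h.tp_ne ho γ hne
    have e2 := h.tp_tp ho γ hne
    rw [ht, zero_smul, sub_zero, hX]
    calc (J γ)ᵀ * -X * (J γ)ᵀ = -((J γ)ᵀ * X * (J γ)ᵀ) := by
          rw [Matrix.mul_neg, Matrix.neg_mul]
      _ = -(X * ((J γ)ᵀ * (J γ)ᵀ)) := by
          have e3 : (J γ)ᵀ * X = X * (J γ)ᵀ := by
            rw [e1, Matrix.neg_mul, Matrix.mul_neg, hc γ]
          rw [e3, Matrix.mul_assoc]
      _ = X := by rw [e2, Matrix.mul_neg, Matrix.mul_one, neg_neg]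
  rw [Finset.sum_congr rfl h2, ht, ho, Matrix.transpose_one, Matrix.mul_one, Matrix.one_mul,
    zero_smul, sub_zero, hX, Finset.sum_const, Finset.card_erase_of_mem (Finset.mem_univ o),
    Finset.card_univ]
  have hcp := h.card_pos
  have hc1 : 1 ≤ Fintype.card Γ := by
    have : Nonempty Γ := ⟨o⟩
    exact Fintype.card_pos
  have e1 : ((Fintype.card Γ - 1 : ℕ) : ℝ) = (Fintype.card Γ : ℝ) - 1 := by
    rw [Nat.cast_sub hc1, Nat.cast_one]
  have e2 : -X + (Fintype.card Γ - 1) • X = ((Fintype.card Γ : ℝ) - 2) • X := by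
    rw [← Nat.cast_smul_eq_nsmul ℝ, e1, sub_smul, sub_smul, one_smul, two_smul]
    abel
  rw [e2, smul_smul]
  congr 1
  field_simp

/-- the quadratic form of `∑ A X A` -/
theorem QJ.quad (h : QJ J) (X : Matrix (Fin N) (Fin N) ℝ) (hX : ∀ γ, hs (J γ) X = 0) :
    -(1 / 2) * hs X X ≤ hs X (∑ k, Ak (PW J) k * X * Ak (PW J) k) := by
  classical
  have hcp := h.card_pos
  rw [h.sumA, hs_smul_right, hs_sum_right]
  have h1 : ∀ γ ∈ (Finset.univ : Finset Γ), -hs X X ≤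
      hs X ((J γ)ᵀ * Xᵀ * (J γ)ᵀ - (X * J γ).trace • (J γ)ᵀ) := by
    intro γ _
    have e1 : hs X (J γ)ᵀ = (X * J γ).trace := by
      rw [← hs_tp, Matrix.transpose_transpose, hs_tr, Matrix.transpose_transpose]
    have e2 : hs X (J γ)ᵀ = 0 := by
      obtain ⟨o, ho⟩ := h.one
      by_cases hγ : γ = o
      · rw [hγ, ho, Matrix.transpose_one, hs_comm, ← ho]
        exact hX o
      · rw [h.tp_ne ho γ hγ, hs_neg_right, hs_comm, hX γ, neg_zero]
    rw [hs_sub_right, hs_smul_right, e2, mul_zero, sub_zero]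
    have e3 : hs ((J γ)ᵀ * Xᵀ * (J γ)ᵀ) ((J γ)ᵀ * Xᵀ * (J γ)ᵀ) = hs X X := by
      rw [hs_mul_right, Matrix.transpose_transpose, Matrix.mul_assoc, h.orth, Matrix.mul_one,
        hs_mul_left, Matrix.transpose_transpose, ← Matrix.mul_assoc, h.orth', Matrix.one_mul,
        hs_tp]
    have e4 := hs_nonneg (X + (J γ)ᵀ * Xᵀ * (J γ)ᵀ)
    rw [hs_add_right, hs_comm (X + (J γ)ᵀ * Xᵀ * (J γ)ᵀ) X,
      hs_comm (X + (J γ)ᵀ * Xᵀ * (J γ)ᵀ) ((J γ)ᵀ * Xᵀ * (J γ)ᵀ), hs_add_right, hs_add_right, e3,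
      hs_comm ((J γ)ᵀ * Xᵀ * (J γ)ᵀ) X] at e4
    linarith
  have h2 := Finset.sum_le_sum h1
  rw [Finset.sum_const, Finset.card_univ, nsmul_eq_mul] at h2
  calc -(1 / 2) * hs X X = (2 * (Fintype.card Γ : ℝ))⁻¹ * (Fintype.card Γ * -hs X X) := by
        field_simp
    _ ≤ _ := mul_le_mul_of_nonneg_left h2 (by positivity)

/-- the component orthogonal to the `J γ` -/
theorem QJ.split (h : QJ J) (hN : 1 ≤ N) (X : Matrix (Fin N) (Fin N) ℝ) :
    ∃ X' : Matrix (Fin N) (Fin N) ℝ, (∀ γ, hs (J γ) X' = 0) ∧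
      hs X' X' = hs X X - ∑ γ, hs (J γ) X ^ 2 / N ∧
      ∀ A : Matrix (Fin N) (Fin N) ℝ, (∀ γ, A * J γ = J γ * A) →
        A * X' - X' * A = A * X - X * A := by
  classical
  have hN0 : (0 : ℝ) < N := by exact_mod_cast hN
  have hJJ : ∀ γ δ, hs (J γ) (J δ) = if δ = γ then (N : ℝ) else 0 := by
    intro γ δ
    rw [hs_tr]
    split_ifs with hd
    · rw [hd, h.orth, Matrix.trace_one, Fintype.card_fin]
    · have h1 := Matrix.trace_transpose ((J γ)ᵀ * J δ)
      rw [h.skew γ δ (fun e => hd e.symm), Matrix.trace_neg] at h1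
      linarith
  obtain ⟨Z, hZ⟩ : ∃ Z : Matrix (Fin N) (Fin N) ℝ, Z = ∑ γ, (hs (J γ) X / N) • J γ := ⟨_, rfl⟩
  have hJZ : ∀ γ, hs (J γ) Z = hs (J γ) X := by
    intro γ
    rw [hZ, hs_sum_right]
    have e1 : ∀ δ, hs (J γ) ((hs (J δ) X / N) • J δ) =
        if δ = γ then hs (J γ) X else 0 := by
      intro δ
      rw [hs_smul_right, hJJ]
      split_ifs with hd
      · rw [hd]
        field_simp
      · rw [mul_zero]
    rw [Finset.sum_congr rfl fun δ _ => e1 δ, Finset.sum_ite_eq' Finset.univ γ,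
      if_pos (Finset.mem_univ γ)]
  refine ⟨X - Z, fun γ => by rw [hs_sub_right, hJZ, sub_self], ?_, fun A hA => ?_⟩
  · have h1 : hs Z X = ∑ γ, hs (J γ) X ^ 2 / N := by
      rw [hZ, hs_sum_left]
      refine Finset.sum_congr rfl fun γ _ => ?_
      rw [hs_smul_left]
      ring
    have h2 : hs Z Z = ∑ γ, hs (J γ) X ^ 2 / N := by
      conv_lhs => rw [hZ]
      rw [hs_sum_left, ← hZ]
      refine Finset.sum_congr rfl fun γ _ => ?_
      rw [hs_smul_left, hJZ]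
      ring
    rw [hs_sub_left, hs_sub_right, hs_sub_right, hs_comm X Z, h1, h2]
    ring
  · have h1 : A * Z = Z * A := by
      rw [hZ, Finset.mul_sum, Finset.sum_mul]
      refine Finset.sum_congr rfl fun γ _ => ?_
      rw [Matrix.mul_smul, Matrix.smul_mul, hA]
    rw [Matrix.mul_sub, Matrix.sub_mul, h1]
    abel

end general

section quaternionic

variable {N : ℕ}

/-- `I`, `J` anticommuting orthogonal complex structures -/
structure Quat (I J : Matrix (Fin N) (Fin N) ℝ) : Prop where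
  oI : Iᵀ * I = 1
  oJ : Jᵀ * J = 1
  sI : I * I = -1
  sJ : J * J = -1
  anti : J * I = -(I * J)

/-- the four units -/
def QQ (I J : Matrix (Fin N) (Fin N) ℝ) : Fin 4 → Matrix (Fin N) (Fin N) ℝ := ![1, I, J, I * J]

theorem Quat.tI {I J : Matrix (Fin N) (Fin N) ℝ} (h : Quat I J) : Iᵀ = -I := by
  calc Iᵀ = Iᵀ * (-(I * I)) := by rw [h.sI, neg_neg, Matrix.mul_one]
    _ = -(Iᵀ * I * I) := by rw [Matrix.mul_neg, Matrix.mul_assoc]
    _ = -I := by rw [h.oI, Matrix.one_mul]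

theorem Quat.tJ {I J : Matrix (Fin N) (Fin N) ℝ} (h : Quat I J) : Jᵀ = -J := by
  calc Jᵀ = Jᵀ * (-(J * J)) := by rw [h.sJ, neg_neg, Matrix.mul_one]
    _ = -(Jᵀ * J * J) := by rw [Matrix.mul_neg, Matrix.mul_assoc]
    _ = -J := by rw [h.oJ, Matrix.one_mul]

theorem Quat.tK {I J : Matrix (Fin N) (Fin N) ℝ} (h : Quat I J) : (I * J)ᵀ = -(I * J) := by
  rw [Matrix.transpose_mul, h.tI, h.tJ, Matrix.neg_mul, Matrix.mul_neg, neg_neg, h.anti]

theorem Quat.IK {I J : Matrix (Fin N) (Fin N) ℝ} (h : Quat I J) : I * (I * J) = -J := by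
  rw [← Matrix.mul_assoc, h.sI, Matrix.neg_mul, Matrix.one_mul]

theorem Quat.JK {I J : Matrix (Fin N) (Fin N) ℝ} (h : Quat I J) : J * (I * J) = I := by
  rw [← Matrix.mul_assoc, h.anti, Matrix.neg_mul, Matrix.mul_assoc, h.sJ, Matrix.mul_neg,
    Matrix.mul_one, neg_neg]

theorem Quat.KI {I J : Matrix (Fin N) (Fin N) ℝ} (h : Quat I J) : (I * J) * I = J := by
  rw [Matrix.mul_assoc, h.anti, Matrix.mul_neg, h.IK, neg_neg]

theorem Quat.KJ {I J : Matrix (Fin N) (Fin N) ℝ} (h : Quat I J) : (I * J) * J = -I := by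
  rw [Matrix.mul_assoc, h.sJ, Matrix.mul_neg, Matrix.mul_one]

theorem Quat.KK {I J : Matrix (Fin N) (Fin N) ℝ} (h : Quat I J) : (I * J) * (I * J) = -1 := by
  rw [Matrix.mul_assoc, h.JK, h.sI]

theorem Quat.qj {I J : Matrix (Fin N) (Fin N) ℝ} (h : Quat I J) : QJ (QQ I J) := by
  have tI := h.tI
  have tJ := h.tJ
  have tK := h.tK
  have IK := h.IK
  have JK := h.JK
  have KI := h.KI
  have KJ := h.KJ
  have KK := h.KK
  have sI := h.sI
  have sJ := h.sJ
  have an := h.anti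
  refine ⟨?_, ?_, ⟨0, rfl⟩, ?_⟩
  · intro γ
    fin_cases γ
    · show (1 : Matrix (Fin N) (Fin N) ℝ)ᵀ * 1 = 1
      rw [Matrix.transpose_one, Matrix.mul_one]
    · exact h.oI
    · exact h.oJ
    · show (I * J)ᵀ * (I * J) = 1
      rw [tK, Matrix.neg_mul, KK, neg_neg]
  · intro γ δ hne
    have key : ∀ A B C : Matrix (Fin N) (Fin N) ℝ, Aᵀ * B = C → Cᵀ = -C →
        (Aᵀ * B)ᵀ = -(Aᵀ * B) := by
      intro A B C h1 h2
      rw [h1, h2]
    have tnI : (-I)ᵀ = -(-I) := by rw [Matrix.transpose_neg, tI]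
    have tnJ : (-J)ᵀ = -(-J) := by rw [Matrix.transpose_neg, tJ]
    have tnK : (-(I * J))ᵀ = -(-(I * J)) := by rw [Matrix.transpose_neg, tK]
    fin_cases γ <;> fin_cases δ
    · exact absurd rfl hne
    · exact key 1 I I (by rw [Matrix.transpose_one, Matrix.one_mul]) tI
    · exact key 1 J J (by rw [Matrix.transpose_one, Matrix.one_mul]) tJ
    · exact key 1 (I * J) (I * J) (by rw [Matrix.transpose_one, Matrix.one_mul]) tK
    · exact key I 1 (-I) (by rw [tI, Matrix.mul_one]) tnI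
    · exact absurd rfl hne
    · exact key I J (-(I * J)) (by rw [tI, Matrix.neg_mul]) tnK
    · exact key I (I * J) J (by rw [tI, Matrix.neg_mul, IK, neg_neg]) tJ
    · exact key J 1 (-J) (by rw [tJ, Matrix.mul_one]) tnJ
    · exact key J I (I * J) (by rw [tJ, Matrix.neg_mul, an, neg_neg]) tK
    · exact absurd rfl hne
    · exact key J (I * J) (-I) (by rw [tJ, Matrix.neg_mul, JK]) tnI
    · exact key (I * J) 1 (-(I * J)) (by rw [tK, Matrix.mul_one]) tnK
    · exact key (I * J) I (-J) (by rw [tK, Matrix.neg_mul, KI]) tnJ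
    · exact key (I * J) J I (by rw [tK, Matrix.neg_mul, KJ, neg_neg]) tI
    · exact absurd rfl hne
  · intro δ
    fin_cases δ
    · refine ⟨1, fun _ => 1, fun _ => by norm_num, fun γ => ?_⟩
      show (1 : Matrix (Fin N) (Fin N) ℝ) * QQ I J γ = (1 : ℝ) • QQ I J γ
      rw [Matrix.one_mul, one_smul]
    · refine ⟨⟨![1, 0, 3, 2], ![1, 0, 3, 2], by decide, by decide⟩, ![1, -1, 1, -1], ?_, ?_⟩
      · intro γ
        fin_cases γ <;> simp
      · intro γ
        fin_cases γ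
        · show I * 1 = (1 : ℝ) • I
          rw [Matrix.mul_one, one_smul]
        · show I * I = (-1 : ℝ) • (1 : Matrix (Fin N) (Fin N) ℝ)
          rw [sI, neg_smul, one_smul]
        · show I * J = (1 : ℝ) • (I * J)
          rw [one_smul]
        · show I * (I * J) = (-1 : ℝ) • J
          rw [IK, neg_smul, one_smul]
    · refine ⟨⟨![2, 3, 0, 1], ![2, 3, 0, 1], by decide, by decide⟩, ![1, -1, -1, 1], ?_, ?_⟩
      · intro γ
        fin_cases γ <;> simp
      · intro γ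
        fin_cases γ
        · show J * 1 = (1 : ℝ) • J
          rw [Matrix.mul_one, one_smul]
        · show J * I = (-1 : ℝ) • (I * J)
          rw [an, neg_smul, one_smul]
        · show J * J = (-1 : ℝ) • (1 : Matrix (Fin N) (Fin N) ℝ)
          rw [sJ, neg_smul, one_smul]
        · show J * (I * J) = (1 : ℝ) • I
          rw [JK, one_smul]
    · refine ⟨⟨![3, 2, 1, 0], ![3, 2, 1, 0], by decide, by decide⟩, ![1, 1, -1, -1], ?_, ?_⟩
      · intro γ
        fin_cases γ <;> simp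
      · intro γ
        fin_cases γ
        · show (I * J) * 1 = (1 : ℝ) • (I * J)
          rw [Matrix.mul_one, one_smul]
        · show (I * J) * I = (1 : ℝ) • J
          rw [KI, one_smul]
        · show (I * J) * J = (-1 : ℝ) • I
          rw [KJ, neg_smul, one_smul]
        · show (I * J) * (I * J) = (-1 : ℝ) • (1 : Matrix (Fin N) (Fin N) ℝ)
          rw [KK, neg_smul, one_smul]

/-- a matrix which commutes with `B`, times a matrix which anticommutes with `B`, has trace zero -/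
theorem tr_anti (A B C : Matrix (Fin N) (Fin N) ℝ) (hB : B * Bᵀ = 1) (hB' : Bᵀ * B = 1)
    (hA : A * B = B * A) (hC : B * C = -(C * B)) : (A * C).trace = 0 := by
  have h1 : (B * (A * C) * Bᵀ).trace = (A * C).trace := by
    rw [Matrix.trace_mul_comm, ← Matrix.mul_assoc, hB', Matrix.one_mul]
  have h2 : B * (A * C) * Bᵀ = -(A * C) := by
    rw [← Matrix.mul_assoc, ← hA, Matrix.mul_assoc A B C, hC, Matrix.mul_neg, Matrix.neg_mul,
      Matrix.mul_assoc, Matrix.mul_assoc, hB, Matrix.mul_one]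
  rw [h2, Matrix.trace_neg] at h1
  linarith

theorem Quat.tr_zero {I J : Matrix (Fin N) (Fin N) ℝ} (h : Quat I J)
    (A : Matrix (Fin N) (Fin N) ℝ) (hA : Aᵀ = -A) (hc : ∀ γ, A * QQ I J γ = QQ I J γ * A)
    (γ : Fin 4) : (A * QQ I J γ).trace = 0 := by
  have hAI : A * I = I * A := hc 1
  have hAJ : A * J = J * A := hc 2
  have hI' := h.qj.orth' 1
  have hJ' := h.qj.orth' 2
  fin_cases γ
  · show (A * 1).trace = 0
    have h1 := Matrix.trace_transpose A
    rw [hA, Matrix.trace_neg] at h1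
    rw [Matrix.mul_one]
    linarith
  · exact tr_anti A J I hJ' h.oJ hAJ h.anti
  · exact tr_anti A I J hI' h.oI hAI (by rw [h.anti, neg_neg])
  · exact tr_anti A I (I * J) hI' h.oI hAI (by rw [h.IK, h.KI])

theorem Quat.la {I J : Matrix (Fin N) (Fin N) ℝ} (h : Quat I J) :
    LA (Hc (QQ I J)) (Ak (PW (QQ I J))) (((N : ℝ) + 4) / 4) := by
  have hq := h.qj
  have hp := hq.pj
  have hcomm : ∀ k γ, Ak (PW (QQ I J)) k * QQ I J γ = QQ I J γ * Ak (PW (QQ I J)) k :=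
    fun k γ => hq.PW_comm _ γ
  refine ⟨hp.Ak_skew, fun k => path_comm _ _ (hp.Ak_skew k) (hcomm k), ?_, by positivity, hp.par⟩
  obtain ⟨c, h1, h2, h3, h4⟩ := hp.struc (((N : ℝ) + Fintype.card (Fin 4) - 2) /
    (2 * Fintype.card (Fin 4))) (((Fintype.card (Fin 4) : ℝ) - 2) / (2 * Fintype.card (Fin 4)))
    hq.alpha (fun l => hq.beta _ (hp.Ak_skew l) (hcomm l)
      (h.tr_zero _ (hp.Ak_skew l) (hcomm l)))
  refine ⟨c, h1, h2, h3, fun k => ?_⟩
  rw [h4, Fintype.card_fin]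
  congr 1
  push_cast
  ring

theorem Quat.ca {I J : Matrix (Fin N) (Fin N) ℝ} (h : Quat I J) (hN : 3 ≤ N) :
    CA (Hc (QQ I J)) (Ak (PW (QQ I J))) (QQ I J) (((N : ℝ) - 2) / 8) := by
  have hN3 : (3 : ℝ) ≤ N := by exact_mod_cast hN
  have hq := h.qj
  have hp := hq.pj
  have hcomm : ∀ k γ, Ak (PW (QQ I J)) k * QQ I J γ = QQ I J γ * Ak (PW (QQ I J)) k :=
    fun k γ => hq.PW_comm _ γ
  refine ⟨fun g hg => hg.2, by linarith, fun X => ?_, fun m Y => ?_⟩
  · obtain ⟨X', h1, h2, h3⟩ := hq.split (by omega) X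
    have h4 : ∀ k, hs (Ak (PW (QQ I J)) k * X - X * Ak (PW (QQ I J)) k)
        (Ak (PW (QQ I J)) k * X - X * Ak (PW (QQ I J)) k) =
        hs (Ak (PW (QQ I J)) k * X' - X' * Ak (PW (QQ I J)) k)
        (Ak (PW (QQ I J)) k * X' - X' * Ak (PW (QQ I J)) k) := by
      intro k
      rw [h3 _ (hcomm k)]
    rw [Finset.sum_congr rfl fun k _ => h4 k, hp.casM _ hq.alpha, ← h2]
    have h5 := hq.quad X' h1
    have h6 := hs_nonneg X'
    rw [Fintype.card_fin]
    push_cast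
    nlinarith
  · rw [hp.casV _ hq.alpha, Fintype.card_fin]
    refine mul_le_mul_of_nonneg_right ?_ (hs_nonneg Y)
    push_cast
    linarith

/-- **KLS for tuples of matrices and vectors invariant under the compact symplectic group.** -/
theorem sp_quat : ∃ C : ℝ, 0 < C ∧ ∀ {κ : Type} [Fintype κ] {q m N : ℕ}
    (I J : Matrix (Fin N) (Fin N) ℝ), Quat I J → 8 ≤ N →
    ∀ ι : V κ →ₗᵢ[ℝ] V (Ix q m N), InvH (Hc (QQ I J)) ι →
    SP (GH (Hc (QQ I J)) ι) (C * fac q m N) := by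
  obtain ⟨C, hC, hsp⟩ := spH
  refine ⟨C, hC, ?_⟩
  intro κ _ q m N I J h hN ι hι
  have hN8 : (8 : ℝ) ≤ N := by exact_mod_cast hN
  exact hsp (h.qj.st (by simp) (by simpa using hN) (by omega)) h.la (h.ca (by omega))
    (by linarith) (by linarith) ι hι

end quaternionic

end Pool.Agent.T6.H95.KS
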