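import Pool.Agent.T6.H95.KS.Trans
import Pool.Agent.TH591.TT.TailS

/-!
# Tails of the operator norms for groups commuting with a complex or quaternionic structure
-/

set_option autoImplicit false

namespace Pool.Agent.T6.H95.KS

open MeasureTheory Set Matrix
open scoped ENNReal InnerProductSpace
open Pool.Agent.TH591.TT
open Pool.Agent.H212R2.KLS (mu Bdd)

/-- the group `H` commutes with the structure `J` and is transitive -/
structure ST {Γ : Type} [Fintype Γ] {N : ℕ} (H : Set (Matrix (Fin N) (Fin N) ℝ))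
    (J : Γ → Matrix (Fin N) (Fin N) ℝ) : Prop where
  gp : Gp H
  qj : QJ J
  comm : ∀ g ∈ H, ∀ γ, g * J γ = J γ * g
  trans : ∀ v y z : EuclideanSpace ℝ (Fin N), Pe J v y → Pe J v z → ‖y‖ = ‖z‖ →
    ∃ g ∈ H, tm g v = v ∧ tm g y = z
  card4 : Fintype.card Γ ≤ 4
  cardN : 2 * Fintype.card Γ ≤ N
  two : 2 ≤ N

theorem QJ.st {Γ : Type} [Fintype Γ] {N : ℕ} {J : Γ → Matrix (Fin N) (Fin N) ℝ} (h : QJ J)
    (h4 : Fintype.card Γ ≤ 4) (hN : 2 * Fintype.card Γ ≤ N) (h2 : 2 ≤ N) : ST (Hc J) J :=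
  ⟨Hc_gp J, h, fun g hg => hg.2, h.trans, h4, hN, h2⟩

section geom

variable {Γ : Type} [Fintype Γ] {N : ℕ} {J : Γ → Matrix (Fin N) (Fin N) ℝ}

/-- the projection along the `J γ v`, for a unit vector `v` -/
def Pv (J : Γ → Matrix (Fin N) (Fin N) ℝ) (v : EuclideanSpace ℝ (Fin N)) :
    Matrix (Fin N) (Fin N) ℝ := 1 - WW J (vv v v)

theorem tm_Pv (v w : EuclideanSpace ℝ (Fin N)) :
    tm (Pv J v) w = w - ∑ γ, ⟪tm (J γ) v, w⟫_ℝ • tm (J γ) v := by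
  unfold Pv
  rw [map_sub, ContinuousLinearMap.sub_apply, tm_one, tm_W]

theorem QJ.pe_Pv (h : QJ J) (v w : EuclideanSpace ℝ (Fin N)) (hv : ‖v‖ = 1) :
    Pe J v (tm (Pv J v) w) := by
  classical
  intro γ
  rw [tm_Pv, inner_sub_right, inner_sum]
  have e1 : ∀ δ, ⟪tm (J γ) v, ⟪tm (J δ) v, w⟫_ℝ • tm (J δ) v⟫_ℝ =
      if δ = γ then ⟪tm (J γ) v, w⟫_ℝ else 0 := by
    intro δ
    rw [inner_smul_right]
    split_ifs with hd
    · rw [hd, real_inner_self_eq_norm_sq, h.norm, hv]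
      norm_num
    · rw [h.inner v γ δ (fun e => hd e.symm), mul_zero]
  rw [Finset.sum_congr rfl fun δ _ => e1 δ, Finset.sum_ite_eq' Finset.univ γ,
    if_pos (Finset.mem_univ γ), sub_self]

theorem inner_Pv {v w u : EuclideanSpace ℝ (Fin N)} (hu : Pe J v u) :
    ⟪u, tm (Pv J v) w⟫_ℝ = ⟪u, w⟫_ℝ := by
  rw [tm_Pv, inner_sub_right, inner_sum, Finset.sum_eq_zero, sub_zero]
  intro γ _
  rw [inner_smul_right, real_inner_comm _ u, hu γ, mul_zero]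

/-- an orthonormal basis of the orthogonal complement of the `J γ v` -/
theorem QJ.ons (h : QJ J) (hN : 2 * Fintype.card Γ ≤ N) (v : EuclideanSpace ℝ (Fin N))
    (hv : ‖v‖ = 1) : ∃ n : ℕ, N ≤ 2 * n ∧ n ≤ N ∧ ∃ b : Fin n → EuclideanSpace ℝ (Fin N),
    Orthonormal ℝ b ∧ (∀ i, Pe J v (b i)) ∧
    ∀ u, ∑ i, ⟪b i, u⟫_ℝ ^ 2 = ‖tm (Pv J v) u‖ ^ 2 := by
  obtain ⟨Q, hQ⟩ : ∃ Q : Submodule ℝ (EuclideanSpace ℝ (Fin N)),
    Q = Submodule.span ℝ (Set.range fun γ => tm (J γ) v) := ⟨_, rfl⟩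
  have hQm : ∀ γ, tm (J γ) v ∈ Q := fun γ => by
    rw [hQ]
    exact Submodule.subset_span ⟨γ, rfl⟩
  have hQd : Module.finrank ℝ Q ≤ Fintype.card Γ := by
    rw [hQ]
    exact finrank_range_le_card _
  have hsum := Q.finrank_add_finrank_orthogonal
  rw [finrank_euclideanSpace, Fintype.card_fin] at hsum
  have hmem : ∀ u ∈ Qᗮ, Pe J v u := fun u hu γ => hu _ (hQm γ)
  have hmem' : ∀ u, Pe J v u → u ∈ Qᗮ := by
    intro u hu
    rw [hQ, Submodule.mem_orthogonal]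
    intro w hw
    induction hw using Submodule.span_induction with
    | mem x hx =>
      obtain ⟨γ, rfl⟩ := hx
      exact hu γ
    | zero => exact inner_zero_left _
    | add x y _ _ hx hy => rw [inner_add_left, hx, hy, add_zero]
    | smul a x _ hx => rw [real_inner_smul_left, hx, mul_zero]
  refine ⟨Module.finrank ℝ Qᗮ, by omega, by omega,
    fun i => (stdOrthonormalBasis ℝ Qᗮ i : EuclideanSpace ℝ (Fin N)), ?_, ?_, ?_⟩
  · exact (stdOrthonormalBasis ℝ Qᗮ).orthonormal.comp_linearIsometry Qᗮ.subtypeₗᵢ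
  · intro i
    exact hmem _ (stdOrthonormalBasis ℝ Qᗮ i).2
  · intro u
    obtain ⟨w, hw⟩ : ∃ w : Qᗮ, (w : EuclideanSpace ℝ (Fin N)) = tm (Pv J v) u :=
      ⟨⟨_, hmem' _ (h.pe_Pv v u hv)⟩, rfl⟩
    have h1 := (stdOrthonormalBasis ℝ Qᗮ).sum_sq_norm_inner_right w
    have h2 : ‖w‖ = ‖tm (Pv J v) u‖ := by rw [← hw]; rfl
    rw [← h2, ← h1]
    refine Finset.sum_congr rfl fun i _ => ?_
    rw [Real.norm_eq_abs, sq_abs]
    congr 1
    have h3 : ⟪stdOrthonormalBasis ℝ Qᗮ i, w⟫_ℝ =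
      ⟪(stdOrthonormalBasis ℝ Qᗮ i : EuclideanSpace ℝ (Fin N)), (w : EuclideanSpace ℝ (Fin N))⟫_ℝ :=
      rfl
    rw [h3, hw, inner_Pv (hmem _ (stdOrthonormalBasis ℝ Qᗮ i).2)]

theorem Pv_comm {v : EuclideanSpace ℝ (Fin N)} {g : Matrix (Fin N) (Fin N) ℝ}
    (hg : g ∈ Matrix.orthogonalGroup (Fin N) ℝ) (hJ : ∀ γ, g * J γ = J γ * g) (hv : tm g v = v)
    (w : EuclideanSpace ℝ (Fin N)) : tm (Pv J v) (tm g w) = tm g (tm (Pv J v) w) := by
  have hgv : tm gᵀ v = v := by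
    conv_lhs => rw [← hv]
    rw [← tm_mul, orth2 hg, tm_one]
  have h1 : ∀ γ, tm g (tm (J γ) v) = tm (J γ) v := by
    intro γ
    rw [← tm_mul, hJ, tm_mul, hv]
  rw [tm_Pv, tm_Pv, map_sub, map_sum]
  congr 1
  refine Finset.sum_congr rfl fun γ _ => ?_
  rw [map_smul, h1]
  congr 1
  have h2 : ⟪tm g (tm (J γ) v), tm g w⟫_ℝ = ⟪tm (J γ) v, w⟫_ℝ := by
    rw [← inner_tm, ← tm_mul, orth2 hg, tm_one]
  rw [h1] at h2
  exact h2

end geom

section tails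

variable {κ Γ : Type} [Fintype κ] [Fintype Γ] {q m N : ℕ} {ι : V κ →ₗᵢ[ℝ] V (Ix q m N)}
  {ρ : V κ → ℝ} {H : Set (Matrix (Fin N) (Fin N) ℝ)} {J : Γ → Matrix (Fin N) (Fin N) ℝ}

theorem TvH_tail (hS : ST H J) (hι : InvH H ι) (hρ : GD (GH H ι) ρ) (hb : Bdd ρ)
    (h1 : mu ρ univ = 1) (s : ℝ) (hs : 0 < s)
    (hmom : ∀ θ : V κ, ∫ x, ⟪θ, x⟫_ℝ ^ 2 ∂(mu ρ) ≤ s * ‖θ‖ ^ 2)
    (w : EuclideanSpace ℝ (Fin m)) (hw : ‖w‖ ≤ 1) (r : ℝ) :
    mu ρ {x | r ≤ ‖tm (vt (ι x)) w‖} ≤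
      ENNReal.ofReal (Real.exp (N * (5 / 2 - r / (20 * Real.sqrt (N * s))))) := by
  have h2N := hS.two
  refine rad_tail hρ hb h1 s hs hmom (by omega) (Tv w ∘ₗ ι.toLinearMap) (fun x => ?_)
    (fun y z hyz => ?_) r
  · show ‖tm (vt (ι x)) w‖ ≤ ‖x‖
    have h2 : ‖tm (vt (ι x)) w‖ ^ 2 ≤ ‖x‖ ^ 2 := by
      refine (tm_le_hs _ _).trans ?_
      have h3 : ‖w‖ ^ 2 ≤ 1 := pow_le_one₀ (norm_nonneg _) hw
      have h4 := hs_vt_le (ι x)
      have h5 := hs_nonneg (vt (ι x))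
      rw [ι.norm_map] at h4
      nlinarith
    exact (abs_le_of_sq_le_sq' h2 (norm_nonneg _)).2
  · have hP : ∀ y : EuclideanSpace ℝ (Fin N), Pe J 0 y := fun y γ => by
      rw [map_zero, inner_zero_left]
    obtain ⟨g, hg, -, hgy⟩ := hS.trans 0 y z (hP y) (hP z) hyz
    refine ⟨isoH hS.gp hι g hg, isoH_mem hS.gp hι g hg, fun x => ?_⟩
    show ‖tm (vt (ι (isoH hS.gp hι g hg x))) w - z‖ = ‖tm (vt (ι x)) w - y‖
    rw [isoH_apply, vt_RR, tm_mul, ← hgy, ← map_sub, norm_orth g (orth2 (hS.gp.orth g hg))]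

/-- the coordinates of `X v` in an orthonormal family -/
noncomputable def Tb {n : ℕ} (b : Fin n → EuclideanSpace ℝ (Fin N)) (l : Fin q)
    (v : EuclideanSpace ℝ (Fin N)) : V (Ix q m N) →ₗ[ℝ] EuclideanSpace ℝ (Fin n) where
  toFun x := WithLp.toLp 2 fun i => ⟪b i, tm (mt l x) v⟫_ℝ
  map_add' x y := by
    ext i
    simp only [map_add, ContinuousLinearMap.add_apply, inner_add_right, PiLp.add_apply]
  map_smul' c x := by
    ext i
    simp only [map_smul, ContinuousLinearMap.smul_apply, inner_smul_right, PiLp.smul_apply,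
      smul_eq_mul, RingHom.id_apply]

theorem off_tail (hS : ST H J) (hι : InvH H ι) (hρ : GD (GH H ι) ρ) (hb : Bdd ρ)
    (h1 : mu ρ univ = 1) (s : ℝ) (hs : 0 < s)
    (hmom : ∀ θ : V κ, ∫ x, ⟪θ, x⟫_ℝ ^ 2 ∂(mu ρ) ≤ s * ‖θ‖ ^ 2)
    (l : Fin q) (v : EuclideanSpace ℝ (Fin N)) (hv : ‖v‖ = 1) (u : ℝ) :
    mu ρ {x | u * Real.sqrt (N * s) ≤ ‖tm (Pv J v) (tm (mt l (ι x)) v)‖} ≤
      ENNReal.ofReal (Real.exp (N * (5 - u / 30))) := by
  have hP : IsProbabilityMeasure (mu ρ) := ⟨h1⟩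
  have h2N := hS.two
  have hN0 : (0 : ℝ) < N := by exact_mod_cast (by omega : 0 < N)
  rcases lt_or_ge u 0 with hu | hu
  · calc mu ρ {x | u * Real.sqrt (N * s) ≤ ‖tm (Pv J v) (tm (mt l (ι x)) v)‖} ≤ 1 := prob_le_one
      _ = ENNReal.ofReal 1 := ENNReal.ofReal_one.symm
      _ ≤ _ := by
        apply ENNReal.ofReal_le_ofReal
        apply Real.one_le_exp
        apply mul_nonneg hN0.le
        linarith
  obtain ⟨n, hn1, hn2, b, hbo, hbP, hbs⟩ := hS.qj.ons hS.cardN v hv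
  have hn0 : 1 ≤ n := by omega
  have hT : ∀ x, ‖Tb b l v (ι x)‖ = ‖tm (Pv J v) (tm (mt l (ι x)) v)‖ := by
    intro x
    have h2 : ‖Tb b l v (ι x)‖ ^ 2 = ‖tm (Pv J v) (tm (mt l (ι x)) v)‖ ^ 2 := by
      rw [← hbs, EuclideanSpace.real_norm_sq_eq]
      rfl
    exact (sq_eq_sq₀ (norm_nonneg _) (norm_nonneg _)).1 h2
  have hset : {x | u * Real.sqrt (N * s) ≤ ‖tm (Pv J v) (tm (mt l (ι x)) v)‖} =
      {x | u * Real.sqrt (N * s) ≤ ‖(Tb b l v ∘ₗ ι.toLinearMap) x‖} := by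
    ext x
    show u * Real.sqrt (N * s) ≤ ‖tm (Pv J v) (tm (mt l (ι x)) v)‖ ↔
      u * Real.sqrt (N * s) ≤ ‖Tb b l v (ι x)‖
    rw [hT]
  rw [hset]
  refine le_trans (rad_tail hρ hb h1 s hs hmom hn0 (Tb b l v ∘ₗ ι.toLinearMap)
    (fun x => ?_) (fun y z hyz => ?_) (u * Real.sqrt (N * s))) ?_
  · show ‖Tb b l v (ι x)‖ ≤ ‖x‖
    have h2 : ‖Tb b l v (ι x)‖ ^ 2 ≤ ‖tm (mt l (ι x)) v‖ ^ 2 := by
      rw [EuclideanSpace.real_norm_sq_eq]
      have h3 := hbo.sum_inner_products_le (tm (mt l (ι x)) v) (s := Finset.univ)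
      simp only [Real.norm_eq_abs, sq_abs] at h3
      exact h3
    have h3 : ‖tm (mt l (ι x)) v‖ ^ 2 ≤ ‖x‖ ^ 2 := by
      refine (tm_le_hs _ _).trans ?_
      rw [hv, one_pow, mul_one, ← ι.norm_map x]
      exact hs_mt_le (ι x) l
    exact (abs_le_of_sq_le_sq' (h2.trans h3) (norm_nonneg _)).2
  · -- transitivity
    have hlift : ∀ y : EuclideanSpace ℝ (Fin n), ∃ y' : EuclideanSpace ℝ (Fin N),
        Pe J v y' ∧ ‖y'‖ = ‖y‖ ∧ ∀ i, ⟪b i, y'⟫_ℝ = y i := by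
      intro y
      refine ⟨∑ i, y i • b i, Pe.sum _ fun i _ => Pe.smul (hbP i) _, ?_, ?_⟩
      · have h2 : ‖∑ i, y i • b i‖ ^ 2 = ‖y‖ ^ 2 := by
          rw [← real_inner_self_eq_norm_sq, hbo.inner_sum, EuclideanSpace.real_norm_sq_eq]
          refine Finset.sum_congr rfl fun i _ => ?_
          simp [sq]
        exact (sq_eq_sq₀ (norm_nonneg _) (norm_nonneg _)).1 h2
      · intro i
        rw [hbo.inner_right_fintype]
    obtain ⟨y', hy1, hy2, hy3⟩ := hlift y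
    obtain ⟨z', hz1, hz2, hz3⟩ := hlift z
    obtain ⟨g, hg, hgv, hgy⟩ := hS.trans v y' z' hy1 hz1 (by rw [hy2, hz2, hyz])
    have hgo := hS.gp.orth g hg
    refine ⟨isoH hS.gp hι g hg, isoH_mem hS.gp hι g hg, fun x => ?_⟩
    show ‖Tb b l v (ι (isoH hS.gp hι g hg x)) - z‖ = ‖Tb b l v (ι x) - y‖
    rw [isoH_apply]
    have hgv' : tm gᵀ v = v := by
      conv_lhs => rw [← hgv]
      rw [← tm_mul, orth2 hgo, tm_one]
    have e1 : ∀ (x : V (Ix q m N)) (z : EuclideanSpace ℝ (Fin n)) (z' : EuclideanSpace ℝ (Fin N)),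
        (∀ i, ⟪b i, z'⟫_ℝ = z i) →
        ‖Tb b l v x - z‖ ^ 2 = ‖tm (Pv J v) (tm (mt l x) v - z')‖ ^ 2 := by
      intro x z z' hz
      rw [← hbs, EuclideanSpace.real_norm_sq_eq]
      refine Finset.sum_congr rfl fun i _ => ?_
      rw [inner_sub_right, hz]
      rfl
    have e2 : ‖Tb b l v (RR g (ι x)) - z‖ ^ 2 = ‖Tb b l v (ι x) - y‖ ^ 2 := by
      rw [e1 _ _ _ hz3, e1 _ _ _ hy3]
      have e3 : tm (mt l (RR g (ι x))) v - z' = tm g (tm (mt l (ι x)) v - y') := by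
        rw [mt_RR, tm_mul, tm_mul, hgv', map_sub, hgy]
      rw [e3, Pv_comm hgo (hS.comm g hg) hgv, norm_orth g (orth2 hgo)]
    exact (sq_eq_sq₀ (norm_nonneg _) (norm_nonneg _)).1 e2
  apply ENNReal.ofReal_le_ofReal
  apply Real.exp_le_exp.2
  set m' : ℝ := (n : ℝ) with hm
  have hmR2 : (N : ℝ) ≤ 2 * m' := by
    rw [hm]
    exact_mod_cast hn1
  have hmR3 : m' ≤ 2 * N := by
    rw [hm]
    have : n ≤ 2 * N := by omega
    exact_mod_cast this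
  have hm0 : 0 < m' := by linarith
  set A := Real.sqrt (N * s) with hA
  set B := Real.sqrt (m' * s) with hB
  have hA0 : 0 < A := Real.sqrt_pos.2 (by positivity)
  have hB0 : 0 < B := Real.sqrt_pos.2 (by positivity)
  have hA2 : A ^ 2 = N * s := Real.sq_sqrt (by positivity)
  have hB2 : B ^ 2 = m' * s := Real.sq_sqrt (by positivity)
  have hkey : 2 * N * B ≤ 3 * m' * A := by
    have h2 : (2 * N * B) ^ 2 ≤ (3 * m' * A) ^ 2 := by
      rw [mul_pow, mul_pow, mul_pow, mul_pow, hA2, hB2]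
      have h3 : 0 ≤ N * m' * s * (9 * m' - 4 * N) := by
        apply mul_nonneg (by positivity)
        linarith
      nlinarith
    exact (abs_le_of_sq_le_sq' h2 (by positivity)).2
  have h4 : N * (u / 30) ≤ m' * (u * A / (20 * B)) := by
    rw [mul_div_assoc', mul_div_assoc', div_le_div_iff₀ (by norm_num) (by positivity)]
    nlinarith [mul_le_mul_of_nonneg_left hkey hu]
  have h5 : m' * (5 / 2) ≤ N * 5 := by linarith
  have h6 : m' * (5 / 2 - u * A / (20 * B)) = m' * (5 / 2) - m' * (u * A / (20 * B)) := by ring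
  rw [h6]
  linarith

/-- `⟪J γ v, X v⟫` -/
noncomputable def ph (J : Γ → Matrix (Fin N) (Fin N) ℝ) (γ : Γ) (X : Matrix (Fin N) (Fin N) ℝ)
    (v : EuclideanSpace ℝ (Fin N)) : ℝ := ⟪tm (J γ) v, tm X v⟫_ℝ

theorem QJ.diff (h : QJ J) (γ : Γ) (X : Matrix (Fin N) (Fin N) ℝ)
    (e f : EuclideanSpace ℝ (Fin N)) (he : ‖e‖ = 1) (hf : ‖f‖ = 1) (hef : Pe J e f) :
    ∃ a b : EuclideanSpace ℝ (Fin N), ‖a‖ = 1 ∧ ‖b‖ = 1 ∧
      ∀ X : Matrix (Fin N) (Fin N) ℝ, |ph J γ X e - ph J γ X f| ≤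
      ‖tm (Pv J a) (tm X a)‖ + ‖tm (Pv J b) (tm X b)‖ := by
  obtain ⟨t, ht⟩ : ∃ t : ℝ, t = (Real.sqrt 2)⁻¹ := ⟨_, rfl⟩
  have ht2 : t ^ 2 = 1 / 2 := by
    rw [ht, inv_pow, Real.sq_sqrt (by norm_num)]
    norm_num
  have ht0 : 0 < t := by rw [ht]; positivity
  obtain ⟨o, ho⟩ := h.one
  have hef0 : ⟪e, f⟫_ℝ = 0 := by
    have := hef o
    rwa [ho, tm_one] at this
  have hfe := h.pe_symm hef
  have hna : ‖t • (e + f)‖ = 1 := by
    have h2 : ‖t • (e + f)‖ ^ 2 = 1 := by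
      rw [norm_smul, mul_pow, Real.norm_of_nonneg ht0.le, ht2, norm_add_sq_real, hef0, he, hf]
      norm_num
    have h3 := norm_nonneg (t • (e + f))
    nlinarith
  have hnb : ‖t • (e - f)‖ = 1 := by
    have h2 : ‖t • (e - f)‖ ^ 2 = 1 := by
      rw [norm_smul, mul_pow, Real.norm_of_nonneg ht0.le, ht2, norm_sub_sq_real, hef0, he, hf]
      norm_num
    have h3 := norm_nonneg (t • (e - f))
    nlinarith
  have hab : Pe J (t • (e + f)) (t • (e - f)) := by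
    intro δ
    rw [map_smul, map_add, real_inner_smul_left, inner_smul_right, inner_add_left, inner_sub_right,
      inner_sub_right, hef δ, hfe δ]
    by_cases hδ : δ = o
    · rw [hδ, ho, tm_one, tm_one, real_inner_self_eq_norm_sq, real_inner_self_eq_norm_sq, he, hf]
      ring
    · have h2 := h.inner e δ o hδ
      have h3 := h.inner f δ o hδ
      rw [ho, tm_one] at h2 h3
      rw [h2, h3]
      ring
  have hba := h.pe_symm hab
  refine ⟨t • (e + f), t • (e - f), hna, hnb, fun X => ?_⟩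
  have e1 : ph J γ X e - ph J γ X f =
      ⟪tm (J γ) (t • (e + f)), tm X (t • (e - f))⟫_ℝ +
      ⟪tm (J γ) (t • (e - f)), tm X (t • (e + f))⟫_ℝ := by
    unfold ph
    simp only [map_smul, map_add, map_sub, real_inner_smul_left, inner_smul_right, inner_add_left,
      inner_add_right, inner_sub_left, inner_sub_right]
    have : t * (t * 2) = 1 := by nlinarith
    linear_combination (-(⟪tm (J γ) e, tm X e⟫_ℝ - ⟪tm (J γ) f, tm X f⟫_ℝ)) * this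
  have hbound : ∀ a b : EuclideanSpace ℝ (Fin N), ‖a‖ = 1 → Pe J b a →
      |⟪tm (J γ) a, tm X b⟫_ℝ| ≤ ‖tm (Pv J b) (tm X b)‖ := by
    intro a b ha hab
    rw [← inner_Pv (h.pe_right hab γ)]
    refine (abs_real_inner_le_norm _ _).trans ?_
    rw [h.norm, ha, one_mul]
  rw [e1]
  refine (abs_add_le _ _).trans ?_
  rw [add_comm]
  exact add_le_add (hbound _ _ hnb hab) (hbound _ _ hna hba)

theorem diffH_tail (hS : ST H J) (hι : InvH H ι) (hρ : GD (GH H ι) ρ) (hb : Bdd ρ)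
    (h1 : mu ρ univ = 1) (s : ℝ) (hs : 0 < s)
    (hmom : ∀ θ : V κ, ∫ x, ⟪θ, x⟫_ℝ ^ 2 ∂(mu ρ) ≤ s * ‖θ‖ ^ 2)
    (l : Fin q) (γ : Γ) (e f : EuclideanSpace ℝ (Fin N)) (he : ‖e‖ = 1) (hf : ‖f‖ = 1)
    (hef : Pe J e f) (u : ℝ) :
    mu ρ {x | 2 * u * Real.sqrt (N * s) ≤ |ph J γ (mt l (ι x)) e - ph J γ (mt l (ι x)) f|} ≤
      ENNReal.ofReal (2 * Real.exp (N * (5 - u / 30))) := by
  obtain ⟨a, b, ha, hb', hab⟩ := hS.qj.diff γ 0 e f he hf hef
  have hcov : {x | 2 * u * Real.sqrt (N * s) ≤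
      |ph J γ (mt l (ι x)) e - ph J γ (mt l (ι x)) f|} ⊆
      {x | u * Real.sqrt (N * s) ≤ ‖tm (Pv J a) (tm (mt l (ι x)) a)‖} ∪
      {x | u * Real.sqrt (N * s) ≤ ‖tm (Pv J b) (tm (mt l (ι x)) b)‖} := by
    intro x hx
    by_contra hnot
    rw [mem_union, not_or] at hnot
    have hn1 : ‖tm (Pv J a) (tm (mt l (ι x)) a)‖ < u * Real.sqrt (N * s) := not_le.1 hnot.1
    have hn2 : ‖tm (Pv J b) (tm (mt l (ι x)) b)‖ < u * Real.sqrt (N * s) := not_le.1 hnot.2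
    have hx' : 2 * u * Real.sqrt (N * s) ≤
      |ph J γ (mt l (ι x)) e - ph J γ (mt l (ι x)) f| := hx
    have := hab (mt l (ι x))
    linarith
  refine (measure_mono hcov).trans ((measure_union_le _ _).trans ?_)
  rw [two_mul, ENNReal.ofReal_add (Real.exp_pos _).le (Real.exp_pos _).le]
  exact add_le_add (off_tail hS hι hρ hb h1 s hs hmom l a ha u)
    (off_tail hS hι hρ hb h1 s hs hmom l b hb' u)

/-- comparison with `e` of a unit vector `b` which is orthogonal to the `J δ e` or is one of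
them -/
theorem diff2_tail (hS : ST H J) (hι : InvH H ι) (hρ : GD (GH H ι) ρ) (hb : Bdd ρ)
    (h1 : mu ρ univ = 1) (s : ℝ) (hs : 0 < s)
    (hmom : ∀ θ : V κ, ∫ x, ⟪θ, x⟫_ℝ ^ 2 ∂(mu ρ) ≤ s * ‖θ‖ ^ 2)
    (l : Fin q) (γ : Γ) (e b : EuclideanSpace ℝ (Fin N)) (he : ‖e‖ = 1) (hb1 : ‖b‖ = 1)
    (heb : Pe J e b ∨ ∃ δ, b = tm (J δ) e) (u : ℝ) (hu : 0 ≤ u) :
    mu ρ {x | 4 * u * Real.sqrt (N * s) ≤ |ph J γ (mt l (ι x)) e - ph J γ (mt l (ι x)) b|} ≤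
      ENNReal.ofReal (4 * Real.exp (N * (5 - u / 30))) := by
  have hsq : 0 ≤ u * Real.sqrt (N * s) := by positivity
  rcases heb with heb | ⟨δ, hδ⟩
  · refine (measure_mono ?_).trans ((diffH_tail hS hι hρ hb h1 s hs hmom l γ e b he hb1 heb
      u).trans ?_)
    · intro x hx
      have hx' : 4 * u * Real.sqrt (N * s) ≤
        |ph J γ (mt l (ι x)) e - ph J γ (mt l (ι x)) b| := hx
      show 2 * u * Real.sqrt (N * s) ≤ |ph J γ (mt l (ι x)) e - ph J γ (mt l (ι x)) b|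
      linarith
    · apply ENNReal.ofReal_le_ofReal
      have := Real.exp_pos (N * (5 - u / 30))
      linarith
  · -- a unit vector `f` orthogonal to the `J δ e`
    obtain ⟨n, hn1, hn2, bb, hbo, hbP, hbs⟩ := hS.qj.ons hS.cardN e he
    have h2N := hS.two
    obtain ⟨i⟩ : Nonempty (Fin n) := ⟨⟨0, by omega⟩⟩
    have hf1 : ‖bb i‖ = 1 := hbo.1 i
    have hef : Pe J e (bb i) := hbP i
    have hbf : Pe J b (bb i) := by rw [hδ]; exact hS.qj.pe_left hef δ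
    have hcov : {x | 4 * u * Real.sqrt (N * s) ≤
        |ph J γ (mt l (ι x)) e - ph J γ (mt l (ι x)) b|} ⊆
        {x | 2 * u * Real.sqrt (N * s) ≤
          |ph J γ (mt l (ι x)) e - ph J γ (mt l (ι x)) (bb i)|} ∪
        {x | 2 * u * Real.sqrt (N * s) ≤
          |ph J γ (mt l (ι x)) b - ph J γ (mt l (ι x)) (bb i)|} := by
      intro x hx
      by_contra hnot
      rw [mem_union, not_or] at hnot
      have hn1 : |ph J γ (mt l (ι x)) e - ph J γ (mt l (ι x)) (bb i)| <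
        2 * u * Real.sqrt (N * s) := not_le.1 hnot.1
      have hn2 : |ph J γ (mt l (ι x)) b - ph J γ (mt l (ι x)) (bb i)| <
        2 * u * Real.sqrt (N * s) := not_le.1 hnot.2
      have hx' : 4 * u * Real.sqrt (N * s) ≤
        |ph J γ (mt l (ι x)) e - ph J γ (mt l (ι x)) b| := hx
      have h3 := abs_sub_le (ph J γ (mt l (ι x)) e) (ph J γ (mt l (ι x)) (bb i))
        (ph J γ (mt l (ι x)) b)
      rw [abs_sub_comm (ph J γ (mt l (ι x)) (bb i))] at h3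
      linarith
    refine (measure_mono hcov).trans ((measure_union_le _ _).trans ?_)
    have e4 : 4 * Real.exp (N * (5 - u / 30)) = 2 * Real.exp (N * (5 - u / 30)) +
      2 * Real.exp (N * (5 - u / 30)) := by ring
    rw [e4, ENNReal.ofReal_add (by positivity) (by positivity)]
    exact add_le_add (diffH_tail hS hι hρ hb h1 s hs hmom l γ e (bb i) he hf1 hef u)
      (diffH_tail hS hι hρ hb h1 s hs hmom l γ b (bb i) hb1 hf1 hbf u)

end tails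

end Pool.Agent.T6.H95.KS
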