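import Pool.Agent.T6.H95.KS.Tail

/-!
# Tails of the operator norms for groups commuting with a complex or quaternionic structure, II
-/

set_option autoImplicit false

namespace Pool.Agent.T6.H95.KS

open MeasureTheory Set Matrix
open scoped ENNReal InnerProductSpace
open Pool.Agent.TH591.TT
open Pool.Agent.H212R2.KLS (mu Bdd)

section basis

variable {Γ : Type} [Fintype Γ] {N : ℕ} {J : Γ → Matrix (Fin N) (Fin N) ℝ}

/-- an orthonormal basis which consists of the `J γ e` and of vectors orthogonal to them -/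
theorem QJ.basis (h : QJ J) (e : EuclideanSpace ℝ (Fin N)) (he : ‖e‖ = 1) :
    ∃ b : Fin N → EuclideanSpace ℝ (Fin N), (∀ i, ‖b i‖ = 1) ∧
      (∀ i, Pe J e (b i) ∨ ∃ δ, b i = tm (J δ) e) ∧
      ∀ M : Matrix (Fin N) (Fin N) ℝ, ∑ i, ⟪b i, tm M (b i)⟫_ℝ = M.trace := by
  have ho : Orthonormal ℝ ((↑) : (Set.range fun γ => tm (J γ) e) → EuclideanSpace ℝ (Fin N)) := by
    constructor
    · rintro ⟨_, γ, rfl⟩
      show ‖tm (J γ) e‖ = 1
      rw [h.norm, he]
    · rintro ⟨_, γ, rfl⟩ ⟨_, δ, rfl⟩ hne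
      show ⟪tm (J γ) e, tm (J δ) e⟫_ℝ = 0
      apply h.inner
      intro hγδ
      exact hne (by subst hγδ; rfl)
  obtain ⟨u, b, hu, hb⟩ := ho.exists_orthonormalBasis_extension
  have hcard : Fintype.card u = Fintype.card (Fin N) := by
    have h1 := Module.finrank_eq_card_basis b.toBasis
    rw [finrank_euclideanSpace] at h1
    exact h1.symm
  obtain ⟨σ⟩ : Nonempty (u ≃ Fin N) := Fintype.card_eq.1 hcard
  obtain ⟨b', hb'⟩ : ∃ b' : OrthonormalBasis (Fin N) ℝ (EuclideanSpace ℝ (Fin N)),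
    b' = b.reindex σ := ⟨_, rfl⟩
  have hval : ∀ i, b' i = (σ.symm i : EuclideanSpace ℝ (Fin N)) := by
    intro i
    rw [hb', OrthonormalBasis.reindex_apply, hb]
  refine ⟨b', fun i => b'.orthonormal.1 i, fun i => ?_, fun M => ?_⟩
  · by_cases hi : b' i ∈ Set.range fun γ => tm (J γ) e
    · obtain ⟨δ, hδ⟩ := hi
      exact Or.inr ⟨δ, hδ.symm⟩
    · left
      intro γ
      have hmem : tm (J γ) e ∈ u := hu ⟨γ, rfl⟩
      obtain ⟨j, hj⟩ : ∃ j, b' j = tm (J γ) e := by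
        refine ⟨σ ⟨_, hmem⟩, ?_⟩
        rw [hval, Equiv.symm_apply_apply]
      rw [← hj]
      apply b'.orthonormal.2
      intro hji
      apply hi
      rw [← hji, hj]
      exact ⟨γ, rfl⟩
  · have h1 := LinearMap.trace_eq_sum_inner (tm M : EuclideanSpace ℝ (Fin N) →ₗ[ℝ]
      EuclideanSpace ℝ (Fin N)) b'
    have h2 := LinearMap.trace_eq_sum_inner (tm M : EuclideanSpace ℝ (Fin N) →ₗ[ℝ]
      EuclideanSpace ℝ (Fin N)) (EuclideanSpace.basisFun (Fin N) ℝ)
    rw [h2] at h1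
    refine Eq.trans h1.symm ?_
    rw [Matrix.trace]
    refine Finset.sum_congr rfl fun i _ => ?_
    rw [EuclideanSpace.basisFun_apply, EuclideanSpace.inner_single_left]
    show (starRingEnd ℝ) 1 * (M *ᵥ (EuclideanSpace.single i (1 : ℝ)).ofLp) i = _
    rw [map_one, one_mul, Matrix.mulVec, dotProduct, Finset.sum_eq_single i]
    · simp
    · intro c _ hc
      simp [hc]
    · intro h
      exact absurd (Finset.mem_univ i) h

end basis

section tails

variable {κ Γ : Type} [Fintype κ] [Fintype Γ] {q m N : ℕ} {ι : V κ →ₗᵢ[ℝ] V (Ix q m N)}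
  {ρ : V κ → ℝ} {H : Set (Matrix (Fin N) (Fin N) ℝ)} {J : Γ → Matrix (Fin N) (Fin N) ℝ}

theorem eJ_norm (hN : 1 ≤ N) (h : QJ J) (l : Fin q) (γ : Γ) :
    ‖(eJ J l γ : V (Ix q m N))‖ = 1 := by
  have hN0 : (0 : ℝ) < N := by exact_mod_cast hN
  have h1 : ‖(eJ J l γ : V (Ix q m N))‖ ^ 2 = 1 := by
    rw [← real_inner_self_eq_norm_sq, inner_eJ]
    have h2 : mt l (eJ J l γ : V (Ix q m N)) = (Real.sqrt N)⁻¹ • J γ := by
      unfold eJ
      rw [mt_mk, if_pos rfl]
    rw [h2, hs_smul_right, hs_tr, h.orth, Matrix.trace_one, Fintype.card_fin, ← mul_assoc,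
      ← mul_inv, Real.mul_self_sqrt hN0.le]
    field_simp
  have h3 := norm_nonneg (eJ J l γ : V (Ix q m N))
  nlinarith

theorem trH_tail (hS : ST H J) (hρ : GD (GH H ι) ρ) (hb : Bdd ρ)
    (h1 : mu ρ univ = 1) (s : ℝ) (hs : 0 < s)
    (hmom : ∀ θ : V κ, ∫ x, ⟪θ, x⟫_ℝ ^ 2 ∂(mu ρ) ≤ s * ‖θ‖ ^ 2)
    (l : Fin q) (γ : Γ) (b : ℝ) (hb0 : 0 ≤ b) :
    mu ρ {x | b ≤ |⟪eJ J l γ, ι x⟫_ℝ|} ≤
      2 * ENNReal.ofReal (Real.exp (-(b / (4 * Real.sqrt s)))) := by
  have hP : IsProbabilityMeasure (mu ρ) := ⟨h1⟩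
  have hball := ball_null hρ.meas hb
  have h2N := hS.two
  have hn : ‖(eJ J l γ : V (Ix q m N))‖ = 1 := eJ_norm (by omega) hS.qj l γ
  have e : ∀ x, ⟪eJ J l γ, ι x⟫_ℝ = ⟪pj ι (eJ J l γ), x⟫_ℝ := fun x => (pj_inner _ _).symm
  simp only [e]
  refine Pool.Agent.H888R2.KC.lin_tail ρ hρ.nonneg hρ.meas hρ.logc h1 (pj ι (eJ J l γ)) s hs
    (intg (mu ρ) hball _ (by fun_prop)) ?_ b hb0
  have h2 := hmom (pj ι (eJ J l γ))
  have h3 : ‖pj ι (eJ J l γ)‖ ≤ 1 := (pj_norm _).trans hn.le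
  have h4 : ‖pj ι (eJ J l γ)‖ ^ 2 ≤ 1 := pow_le_one₀ (norm_nonneg _) h3
  nlinarith

theorem entryH_tail (hS : ST H J) (hι : InvH H ι) (hρ : GD (GH H ι) ρ) (hb : Bdd ρ)
    (h1 : mu ρ univ = 1) (s : ℝ) (hs : 0 < s)
    (hmom : ∀ θ : V κ, ∫ x, ⟪θ, x⟫_ℝ ^ 2 ∂(mu ρ) ≤ s * ‖θ‖ ^ 2)
    (l : Fin q) (γ : Γ) (e : EuclideanSpace ℝ (Fin N)) (he : ‖e‖ = 1) (u : ℝ) :
    mu ρ {x | 5 * u * Real.sqrt (N * s) ≤ |ph J γ (mt l (ι x)) e|} ≤
      ENNReal.ofReal (Real.exp (N * (7 - u / 30))) := by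
  have h2N := hS.two
  have hNr : (2:ℝ) ≤ N := by exact_mod_cast h2N
  have hN0 : (0:ℝ) < N := by linarith
  by_cases hu : u ≤ 210
  · calc mu ρ {x | 5 * u * Real.sqrt (N * s) ≤ |ph J γ (mt l (ι x)) e|} ≤ mu ρ univ :=
          measure_mono (subset_univ _)
      _ = 1 := h1
      _ ≤ ENNReal.ofReal (Real.exp (N * (7 - u / 30))) := by
        rw [← ENNReal.ofReal_one]
        apply ENNReal.ofReal_le_ofReal
        apply Real.one_le_exp
        apply mul_nonneg hN0.le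
        linarith
  · push Not at hu
    have hu0 : 0 < u := by linarith
    have hsq : 0 < Real.sqrt s := Real.sqrt_pos.mpr hs
    have hsN : 0 < Real.sqrt N := Real.sqrt_pos.mpr hN0
    have hNs : Real.sqrt (N * s) = Real.sqrt N * Real.sqrt s := Real.sqrt_mul hN0.le s
    have hNN : Real.sqrt N * Real.sqrt N = N := Real.mul_self_sqrt hN0.le
    obtain ⟨b, hb1, hbe, hbt⟩ := hS.qj.basis e he
    have hcov : {x : V κ | 5 * u * Real.sqrt (N * s) ≤ |ph J γ (mt l (ι x)) e|} ⊆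
        {x : V κ | u * N * Real.sqrt s ≤ |⟪eJ J l γ, ι x⟫_ℝ|} ∪
        ⋃ j ∈ (Finset.univ : Finset (Fin N)),
          {x : V κ | 4 * u * Real.sqrt (N * s) ≤
            |ph J γ (mt l (ι x)) e - ph J γ (mt l (ι x)) (b j)|} := by
      intro x hx
      by_contra hnot
      rw [mem_union, not_or] at hnot
      obtain ⟨hn1, hn2⟩ := hnot
      have hn1' : |⟪eJ J l γ, ι x⟫_ℝ| < u * N * Real.sqrt s := not_le.mp hn1
      have hn2' : ∀ j, |ph J γ (mt l (ι x)) e - ph J γ (mt l (ι x)) (b j)| <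
          4 * u * Real.sqrt (N * s) := by
        intro j
        by_contra hc
        apply hn2
        rw [mem_iUnion₂]
        exact ⟨j, Finset.mem_univ _, not_lt.mp hc⟩
      have htv : ⟪eJ J l γ, ι x⟫_ℝ = (Real.sqrt N)⁻¹ *
          TH591.TT.hs (J γ) (mt l (ι x)) := inner_eJ l γ (ι x)
      have htr : ∑ j, ph J γ (mt l (ι x)) (b j) = TH591.TT.hs (J γ) (mt l (ι x)) := by
        rw [hs_tr, ← hbt]
        refine Finset.sum_congr rfl fun j _ => ?_
        unfold ph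
        rw [tm_mul, ← inner_tm (J γ)ᵀ, Matrix.transpose_transpose]
      have hSm : |∑ j, ph J γ (mt l (ι x)) (b j)| < u * N * Real.sqrt (N * s) := by
        have e : ∑ j, ph J γ (mt l (ι x)) (b j) = Real.sqrt N * ⟪eJ J l γ, ι x⟫_ℝ := by
          rw [htr, htv]; field_simp
        rw [e, abs_mul, abs_of_pos hsN, hNs]
        calc Real.sqrt N * |⟪eJ J l γ, ι x⟫_ℝ| < Real.sqrt N * (u * N * Real.sqrt s) :=
              mul_lt_mul_of_pos_left hn1' hsN
          _ = u * N * (Real.sqrt N * Real.sqrt s) := by ring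
      have hsum : (N:ℝ) * ph J γ (mt l (ι x)) e = ∑ j, ph J γ (mt l (ι x)) (b j) +
          ∑ j, (ph J γ (mt l (ι x)) e - ph J γ (mt l (ι x)) (b j)) := by
        rw [Finset.sum_sub_distrib]
        simp
      have hdb : |∑ j, (ph J γ (mt l (ι x)) e - ph J γ (mt l (ι x)) (b j))| ≤
          N * (4 * u * Real.sqrt (N * s)) := by
        refine (Finset.abs_sum_le_sum_abs _ _).trans ?_
        refine (Finset.sum_le_sum fun j _ => (hn2' j).le).trans ?_
        simp
      have hfin : (N:ℝ) * |ph J γ (mt l (ι x)) e| < N * (5 * u * Real.sqrt (N * s)) := by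
        have e1 : (N:ℝ) * |ph J γ (mt l (ι x)) e| = |(N:ℝ) * ph J γ (mt l (ι x)) e| := by
          rw [abs_mul, abs_of_pos hN0]
        rw [e1, hsum]
        have := abs_add_le (∑ j, ph J γ (mt l (ι x)) (b j))
          (∑ j, (ph J γ (mt l (ι x)) e - ph J γ (mt l (ι x)) (b j)))
        linarith
      have hx' : 5 * u * Real.sqrt (N * s) ≤ |ph J γ (mt l (ι x)) e| := hx
      have := mul_le_mul_of_nonneg_left hx' hN0.le
      linarith
    have hA : mu ρ {x | u * N * Real.sqrt s ≤ |⟪eJ J l γ, ι x⟫_ℝ|} ≤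
        ENNReal.ofReal (2 * Real.exp (N * (5 - u / 30))) := by
      refine (trH_tail hS hρ hb h1 s hs hmom l γ _ (by positivity)).trans ?_
      rw [ENNReal.ofReal_mul (by norm_num)]
      simp only [ENNReal.ofReal_ofNat]
      gcongr
      have e : u * N * Real.sqrt s / (4 * Real.sqrt s) = u * N / 4 := by field_simp
      rw [e]
      nlinarith
    have hB : mu ρ (⋃ j ∈ (Finset.univ : Finset (Fin N)), {x | 4 * u * Real.sqrt (N * s) ≤
        |ph J γ (mt l (ι x)) e - ph J γ (mt l (ι x)) (b j)|}) ≤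
        ENNReal.ofReal (N * (4 * Real.exp (N * (5 - u / 30)))) := by
      refine (measure_biUnion_finset_le _ _).trans ?_
      refine (Finset.sum_le_sum fun j _ =>
        diff2_tail hS hι hρ hb h1 s hs hmom l γ e (b j) he (hb1 j) (hbe j) u hu0.le).trans ?_
      rw [Finset.sum_const, Finset.card_univ, Fintype.card_fin, nsmul_eq_mul,
        ENNReal.ofReal_mul (Nat.cast_nonneg _), ENNReal.ofReal_natCast]
    calc mu ρ {x | 5 * u * Real.sqrt (N * s) ≤ |ph J γ (mt l (ι x)) e|} ≤ _ := measure_mono hcov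
      _ ≤ _ := measure_union_le _ _
      _ ≤ ENNReal.ofReal (2 * Real.exp (N * (5 - u / 30))) +
          ENNReal.ofReal (N * (4 * Real.exp (N * (5 - u / 30)))) := add_le_add hA hB
      _ = ENNReal.ofReal ((4 * (N:ℝ) + 2) * Real.exp (N * (5 - u / 30))) := by
        rw [← ENNReal.ofReal_add (by positivity) (by positivity)]
        congr 1; ring
      _ ≤ ENNReal.ofReal (Real.exp (N * (7 - u / 30))) := by
        apply ENNReal.ofReal_le_ofReal
        have e : Real.exp (N * (7 - u / 30)) =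
            Real.exp (2 * N) * Real.exp (N * (5 - u / 30)) := by
          rw [← Real.exp_add]; congr 1; ring
        rw [e]
        apply mul_le_mul_of_nonneg_right _ (Real.exp_pos _).le
        have h3 := Real.quadratic_le_exp_of_nonneg (x := 2 * (N : ℝ)) (by positivity)
        nlinarith

theorem unitH_tail (hS : ST H J) (hι : InvH H ι) (hρ : GD (GH H ι) ρ) (hb : Bdd ρ)
    (h1 : mu ρ univ = 1) (s : ℝ) (hs : 0 < s)
    (hmom : ∀ θ : V κ, ∫ x, ⟪θ, x⟫_ℝ ^ 2 ∂(mu ρ) ≤ s * ‖θ‖ ^ 2)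
    (l : Fin q) (e : EuclideanSpace ℝ (Fin N)) (he : ‖e‖ = 1) (u : ℝ) :
    mu ρ {x | 21 * u * Real.sqrt (N * s) ≤ ‖tm (mt l (ι x)) e‖} ≤
      ENNReal.ofReal (Real.exp (N * (8 - u / 30))) := by
  have h2N := hS.two
  have hNr : (2:ℝ) ≤ N := by exact_mod_cast h2N
  have hN0 : (0:ℝ) < N := by linarith
  by_cases hu : u ≤ 210
  · calc mu ρ {x | 21 * u * Real.sqrt (N * s) ≤ ‖tm (mt l (ι x)) e‖} ≤ mu ρ univ :=
          measure_mono (subset_univ _)
      _ = 1 := h1
      _ ≤ ENNReal.ofReal (Real.exp (N * (8 - u / 30))) := by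
        rw [← ENNReal.ofReal_one]
        apply ENNReal.ofReal_le_ofReal
        apply Real.one_le_exp
        apply mul_nonneg hN0.le
        linarith
  push Not at hu
  have hu0 : 0 < u := by linarith
  have hcov : {x : V κ | 21 * u * Real.sqrt (N * s) ≤ ‖tm (mt l (ι x)) e‖} ⊆
      {x : V κ | u * Real.sqrt (N * s) ≤ ‖tm (Pv J e) (tm (mt l (ι x)) e)‖} ∪
        ⋃ γ ∈ (Finset.univ : Finset Γ),
          {x : V κ | 5 * u * Real.sqrt (N * s) ≤ |ph J γ (mt l (ι x)) e|} := by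
    intro x hx
    by_contra hnot
    rw [mem_union, not_or] at hnot
    obtain ⟨hn1, hn2⟩ := hnot
    have hn1' : ‖tm (Pv J e) (tm (mt l (ι x)) e)‖ < u * Real.sqrt (N * s) := not_le.mp hn1
    have hn2' : ∀ γ, |ph J γ (mt l (ι x)) e| < 5 * u * Real.sqrt (N * s) := by
      intro γ
      by_contra hc
      apply hn2
      rw [mem_iUnion₂]
      exact ⟨γ, Finset.mem_univ _, not_lt.mp hc⟩
    have hx' : 21 * u * Real.sqrt (N * s) ≤ ‖tm (mt l (ι x)) e‖ := hx
    have e1 : tm (mt l (ι x)) e = tm (Pv J e) (tm (mt l (ι x)) e) +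
        ∑ γ, ph J γ (mt l (ι x)) e • tm (J γ) e := by
      rw [tm_Pv]
      unfold ph
      abel
    have e2 : ‖∑ γ, ph J γ (mt l (ι x)) e • tm (J γ) e‖ ≤ 20 * u * Real.sqrt (N * s) := by
      refine (norm_sum_le _ _).trans ?_
      have e3 : ∀ γ ∈ (Finset.univ : Finset Γ), ‖ph J γ (mt l (ι x)) e • tm (J γ) e‖ ≤
          5 * u * Real.sqrt (N * s) := by
        intro γ _
        rw [norm_smul, hS.qj.norm, he, mul_one, Real.norm_eq_abs]
        exact (hn2' γ).le
      refine (Finset.sum_le_sum e3).trans ?_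
      rw [Finset.sum_const, Finset.card_univ, nsmul_eq_mul]
      have h4 : (Fintype.card Γ : ℝ) ≤ 4 := by exact_mod_cast hS.card4
      have h5 : 0 ≤ u * Real.sqrt (N * s) := by positivity
      nlinarith
    have h3 := norm_add_le (tm (Pv J e) (tm (mt l (ι x)) e))
      (∑ γ, ph J γ (mt l (ι x)) e • tm (J γ) e)
    rw [← e1] at h3
    linarith
  calc mu ρ {x | 21 * u * Real.sqrt (N * s) ≤ ‖tm (mt l (ι x)) e‖}
      ≤ _ := measure_mono hcov
    _ ≤ _ := measure_union_le _ _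
    _ ≤ ENNReal.ofReal (Real.exp (N * (5 - u / 30))) +
        ENNReal.ofReal (4 * Real.exp (N * (7 - u / 30))) := by
        refine add_le_add (off_tail hS hι hρ hb h1 s hs hmom l e he u) ?_
        refine (measure_biUnion_finset_le _ _).trans ?_
        refine (Finset.sum_le_sum fun γ _ =>
          entryH_tail hS hι hρ hb h1 s hs hmom l γ e he u).trans ?_
        rw [Finset.sum_const, Finset.card_univ, nsmul_eq_mul, ← ENNReal.ofReal_natCast,
          ← ENNReal.ofReal_mul (Nat.cast_nonneg _)]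
        apply ENNReal.ofReal_le_ofReal
        have h4 : (Fintype.card Γ : ℝ) ≤ 4 := by exact_mod_cast hS.card4
        exact mul_le_mul_of_nonneg_right h4 (Real.exp_pos _).le
    _ = ENNReal.ofReal (Real.exp (N * (5 - u / 30)) + 4 * Real.exp (N * (7 - u / 30))) := by
        rw [ENNReal.ofReal_add (Real.exp_pos _).le (by positivity)]
    _ ≤ ENNReal.ofReal (Real.exp (N * (8 - u / 30))) := by
        apply ENNReal.ofReal_le_ofReal
        have e1 : Real.exp (N * (5 - u / 30)) ≤ Real.exp (N * (7 - u / 30)) :=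
          Real.exp_le_exp.2 (by nlinarith)
        have e2 : Real.exp (N * (8 - u / 30)) = Real.exp N * Real.exp (N * (7 - u / 30)) := by
          rw [← Real.exp_add]; congr 1; ring
        rw [e2]
        have e3 : (5 : ℝ) ≤ Real.exp N := by
          have := Real.quadratic_le_exp_of_nonneg (x := (N : ℝ)) (by positivity)
          nlinarith
        have := mul_le_mul_of_nonneg_right e3 (Real.exp_pos (N * (7 - u / 30))).le
        linarith

theorem vecH_tail (hS : ST H J) (hι : InvH H ι) (hρ : GD (GH H ι) ρ) (hb : Bdd ρ)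
    (h1 : mu ρ univ = 1) (s : ℝ) (hs : 0 < s)
    (hmom : ∀ θ : V κ, ∫ x, ⟪θ, x⟫_ℝ ^ 2 ∂(mu ρ) ≤ s * ‖θ‖ ^ 2)
    (l : Fin q) (v : EuclideanSpace ℝ (Fin N)) (hv : ‖v‖ ≤ 1) (u : ℝ) (hu : 0 < u) :
    mu ρ {x | 21 * u * Real.sqrt (N * s) ≤ ‖tm (mt l (ι x)) v‖} ≤
      ENNReal.ofReal (Real.exp (N * (8 - u / 30))) := by
  have h2N := hS.two
  have hN0 : (0:ℝ) < N := by exact_mod_cast (by omega : 0 < N)
  have hpos : 0 < 21 * u * Real.sqrt (N * s) := by
    have : 0 < Real.sqrt (N * s) := Real.sqrt_pos.2 (by positivity)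
    positivity
  by_cases hv0 : v = 0
  · have : {x : V κ | 21 * u * Real.sqrt (N * s) ≤ ‖tm (mt l (ι x)) v‖} = ∅ := by
      ext x
      simp only [mem_setOf_eq, mem_empty_iff_false, iff_false, not_le]
      rw [hv0, map_zero, norm_zero]
      exact hpos
    rw [this, measure_empty]
    exact zero_le
  have hvn : 0 < ‖v‖ := norm_pos_iff.2 hv0
  refine (measure_mono ?_).trans (unitH_tail hS hι hρ hb h1 s hs hmom l (‖v‖⁻¹ • v)
    (by rw [norm_smul, norm_inv, norm_norm, inv_mul_cancel₀ hvn.ne']) u)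
  intro x hx
  have hx' : 21 * u * Real.sqrt (N * s) ≤ ‖tm (mt l (ι x)) v‖ := hx
  show 21 * u * Real.sqrt (N * s) ≤ ‖tm (mt l (ι x)) (‖v‖⁻¹ • v)‖
  rw [map_smul, norm_smul, norm_inv, norm_norm]
  have h3 : 1 ≤ ‖v‖⁻¹ := (one_le_inv₀ hvn).2 hv
  have h4 := norm_nonneg (tm (mt l (ι x)) v)
  nlinarith

theorem BBH_tail (hS : ST H J) (hι : InvH H ι) (hρ : GD (GH H ι) ρ) (hb : Bdd ρ)
    (h1 : mu ρ univ = 1) (s : ℝ) (hs : 0 < s)
    (hmom : ∀ θ : V κ, ∫ x, ⟪θ, x⟫_ℝ ^ 2 ∂(mu ρ) ≤ s * ‖θ‖ ^ 2) (u : ℝ) :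
    mu ρ (ι ⁻¹' (BB q m N (28 * u * Real.sqrt (N * s))))ᶜ ≤
      ENNReal.ofReal (Real.exp (q + 3 * m + N * (11 - u / 30))) := by
  have hP : IsProbabilityMeasure (mu ρ) := ⟨h1⟩
  have h2N := hS.two
  have hNr : (2:ℝ) ≤ N := by exact_mod_cast h2N
  have hN0 : (0:ℝ) < N := by linarith
  rcases le_or_gt u 0 with hu | hu
  · calc mu ρ (ι ⁻¹' (BB q m N (28 * u * Real.sqrt (N * s))))ᶜ ≤ 1 := prob_le_one
      _ = ENNReal.ofReal 1 := ENNReal.ofReal_one.symm
      _ ≤ _ := by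
        apply ENNReal.ofReal_le_ofReal
        apply Real.one_le_exp
        have : 0 ≤ (N : ℝ) * (11 - u / 30) := mul_nonneg hN0.le (by linarith)
        positivity
  obtain ⟨A, hA⟩ : ∃ A : ℝ, A = N * (11 - u / 30) := ⟨_, rfl⟩
  rw [← hA]
  have hsq : 0 < Real.sqrt (N * s) := Real.sqrt_pos.2 (by positivity)
  obtain ⟨t, ht⟩ : ∃ t : ℝ, t = 28 * u * Real.sqrt (N * s) := ⟨_, rfl⟩
  rw [← ht]
  have ht0 : 0 < t := by rw [ht]; positivity
  have h34 : 3 / 4 * t = 21 * u * Real.sqrt (N * s) := by rw [ht]; ring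
  have hX : ∀ l : Fin q, mu ρ {x | t < ‖tm (mt l (ι x))‖} ≤ ENNReal.ofReal (Real.exp A) := by
    intro l
    have h2 := net_tail (mu ρ) (fun x : V κ => tm (mt l (ι x)))
      ((tm ∘ₗ mt l ∘ₗ ι.toLinearMap).continuous_of_finiteDimensional) t ht0
      (ENNReal.ofReal (Real.exp (N * (8 - u / 30)))) (fun v hv => by
        have h5 := vecH_tail hS hι hρ hb h1 s hs hmom l v hv u hu
        rw [h34]
        exact h5)
    refine h2.trans ?_
    rw [finrank_euclideanSpace, Fintype.card_fin, ← ENNReal.ofReal_mul (by positivity)]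
    apply ENNReal.ofReal_le_ofReal
    calc (8 : ℝ) ^ N * Real.exp (N * (8 - u / 30)) ≤
          Real.exp (3 * N) * Real.exp (N * (8 - u / 30)) :=
          mul_le_mul_of_nonneg_right (exp3 N) (Real.exp_pos _).le
      _ = Real.exp A := by rw [← Real.exp_add, hA]; congr 1; ring
  have hY : mu ρ {x | t < ‖tm (vt (ι x))‖} ≤ ENNReal.ofReal (Real.exp (3 * m + A)) := by
    have h2 := net_tail (mu ρ) (fun x : V κ => tm (vt (ι x)))
      ((tm ∘ₗ vt ∘ₗ ι.toLinearMap).continuous_of_finiteDimensional) t ht0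
      (ENNReal.ofReal (Real.exp (N * (5 / 2 - (3 / 4 * t) / (20 * Real.sqrt (N * s))))))
      (fun v hv => TvH_tail hS hι hρ hb h1 s hs hmom v hv (3 / 4 * t))
    refine h2.trans ?_
    rw [finrank_euclideanSpace, Fintype.card_fin, ← ENNReal.ofReal_mul (by positivity)]
    apply ENNReal.ofReal_le_ofReal
    calc (8 : ℝ) ^ m * Real.exp (N * (5 / 2 - (3 / 4 * t) / (20 * Real.sqrt (N * s)))) ≤
          Real.exp (3 * m) * Real.exp (N * (5 / 2 - (3 / 4 * t) / (20 * Real.sqrt (N * s)))) :=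
          mul_le_mul_of_nonneg_right (exp3 m) (Real.exp_pos _).le
      _ ≤ Real.exp (3 * m + A) := by
          rw [← Real.exp_add]
          apply Real.exp_le_exp.2
          have e1 : 3 / 4 * t / (20 * Real.sqrt (N * s)) = 21 / 20 * u := by
            rw [h34]
            field_simp
          rw [e1, hA]
          have : (N : ℝ) * (5 / 2 - 21 / 20 * u) ≤ N * (11 - u / 30) :=
            mul_le_mul_of_nonneg_left (by linarith) hN0.le
          linarith
  have hcov : (ι ⁻¹' (BB q m N t))ᶜ ⊆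
      (⋃ l : Fin q, {x | t < ‖tm (mt l (ι x))‖}) ∪ {x | t < ‖tm (vt (ι x))‖} := by
    intro x hx
    by_contra hnot
    rw [mem_union, not_or] at hnot
    obtain ⟨hn1, hn2⟩ := hnot
    apply hx
    refine ⟨fun l => ?_, not_lt.1 hn2⟩
    by_contra hc
    apply hn1
    rw [mem_iUnion]
    exact ⟨l, not_le.1 hc⟩
  calc mu ρ (ι ⁻¹' (BB q m N t))ᶜ ≤ _ := measure_mono hcov
    _ ≤ _ := measure_union_le _ _
    _ ≤ ∑ _l : Fin q, ENNReal.ofReal (Real.exp A) + ENNReal.ofReal (Real.exp (3 * m + A)) := by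
        refine add_le_add ?_ hY
        refine (measure_iUnion_fintype_le _ _).trans ?_
        exact Finset.sum_le_sum fun l _ => hX l
    _ = ENNReal.ofReal (q * Real.exp A + Real.exp (3 * m + A)) := by
        rw [ENNReal.ofReal_add (by positivity) (Real.exp_pos _).le,
          ENNReal.ofReal_mul (Nat.cast_nonneg _), ENNReal.ofReal_natCast]
        simp
    _ ≤ _ := by
        apply ENNReal.ofReal_le_ofReal
        have e1 : Real.exp (q + 3 * m + A) = Real.exp q * Real.exp (3 * m + A) := by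
          rw [← Real.exp_add]; congr 1; ring
        have e2 : Real.exp A ≤ Real.exp (3 * m + A) := Real.exp_le_exp.2 (by
          have : (0 : ℝ) ≤ 3 * m := by positivity
          linarith)
        have e3 := Real.add_one_le_exp (q : ℝ)
        have e4 := mul_le_mul_of_nonneg_left e2 (Nat.cast_nonneg (α := ℝ) q)
        have e5 := mul_le_mul_of_nonneg_right e3 (Real.exp_pos (3 * m + A)).le
        rw [e1]
        linarith

end tails

end Pool.Agent.T6.H95.KS
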