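import Pool.Agent.T6.H95.KS.Grp

/-!
# The orthogonal matrices commuting with a complex or quaternionic structure: transitivity
-/

set_option autoImplicit false

namespace Pool.Agent.T6.H95.KS

open MeasureTheory Set Matrix
open scoped ENNReal InnerProductSpace
open Pool.Agent.TH591.TT

variable {Γ : Type} [Fintype Γ] {N : ℕ} {J : Γ → Matrix (Fin N) (Fin N) ℝ}

/-- orthogonal matrices, one of them the identity, whose quotients are skew, and which are closed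
under multiplication up to signs -/
structure QJ {Γ : Type} [Fintype Γ] {N : ℕ} (J : Γ → Matrix (Fin N) (Fin N) ℝ) : Prop where
  orth : ∀ γ, (J γ)ᵀ * J γ = 1
  skew : ∀ γ δ, γ ≠ δ → ((J γ)ᵀ * J δ)ᵀ = -((J γ)ᵀ * J δ)
  one : ∃ o, J o = 1
  cl : ∀ δ, ∃ σ : Equiv.Perm Γ, ∃ s : Γ → ℝ, (∀ γ, s γ ^ 2 = 1) ∧
    ∀ γ, J δ * J γ = s γ • J (σ γ)

/-- the orthogonal matrices commuting with the `J γ` -/
def Hc (J : Γ → Matrix (Fin N) (Fin N) ℝ) : Set (Matrix (Fin N) (Fin N) ℝ) :=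
  {g | g ∈ Matrix.orthogonalGroup (Fin N) ℝ ∧ ∀ γ, g * J γ = J γ * g}

theorem QJ.orth' (h : QJ J) (γ : Γ) : J γ * (J γ)ᵀ = 1 := by
  rw [← Matrix.mul_eq_one_comm_of_equiv (Equiv.refl _)]
  exact h.orth γ

/-- the average over the `J γ`, times their number -/
def WW (J : Γ → Matrix (Fin N) (Fin N) ℝ) (M : Matrix (Fin N) (Fin N) ℝ) :
    Matrix (Fin N) (Fin N) ℝ := ∑ γ, J γ * M * (J γ)ᵀ

theorem QJ.W_comm (h : QJ J) (M : Matrix (Fin N) (Fin N) ℝ) (δ : Γ) :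
    WW J M * J δ = J δ * WW J M := by
  obtain ⟨σ, s, hs, hσ⟩ := h.cl δ
  have h1 : J δ * WW J M * (J δ)ᵀ = WW J M := by
    unfold WW
    rw [Finset.mul_sum, Finset.sum_mul]
    refine Eq.trans ?_ (Equiv.sum_comp σ (fun γ => J γ * M * (J γ)ᵀ))
    refine Finset.sum_congr rfl fun γ _ => ?_
    have e1 : J δ * (J γ * M * (J γ)ᵀ) * (J δ)ᵀ = (J δ * J γ) * M * (J δ * J γ)ᵀ := by
      rw [Matrix.transpose_mul]
      simp only [Matrix.mul_assoc]
    rw [e1, hσ, Matrix.transpose_smul, Matrix.smul_mul, Matrix.smul_mul, Matrix.mul_smul,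
      smul_smul, ← sq, hs, one_smul]
  calc WW J M * J δ = J δ * WW J M * (J δ)ᵀ * J δ := by rw [h1]
    _ = J δ * WW J M := by rw [Matrix.mul_assoc, h.orth, Matrix.mul_one]

theorem tm_ext {X Y : Matrix (Fin N) (Fin N) ℝ} (h : ∀ v, tm X v = tm Y v) : X = Y := by
  ext i j
  have h1 := congrArg (fun w : EuclideanSpace ℝ (Fin N) => w i) (h (EuclideanSpace.single j 1))
  simp only [tm_apply] at h1
  have h3 : ∀ Z : Matrix (Fin N) (Fin N) ℝ,
      (Z *ᵥ (EuclideanSpace.single j (1 : ℝ)).ofLp) i = Z i j := by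
    intro Z
    rw [Matrix.mulVec, dotProduct, Finset.sum_eq_single j]
    · simp
    · intro c _ hc
      simp [hc]
    · intro h
      exact absurd (Finset.mem_univ j) h
  rw [h3, h3] at h1
  exact h1

/-- `a bᵀ` -/
def vv (a b : EuclideanSpace ℝ (Fin N)) : Matrix (Fin N) (Fin N) ℝ :=
  Matrix.vecMulVec a.ofLp b.ofLp

theorem tm_vv (a b x : EuclideanSpace ℝ (Fin N)) : tm (vv a b) x = ⟪b, x⟫_ℝ • a := by
  rw [tm_apply]
  unfold vv
  rw [Matrix.vecMulVec_mulVec]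
  have h1 : b.ofLp ⬝ᵥ x.ofLp = ⟪b, x⟫_ℝ := by
    rw [PiLp.inner_apply, dotProduct]
    refine Finset.sum_congr rfl fun i _ => ?_
    simp [mul_comm]
  rw [h1]
  ext i
  simp [mul_comm]

theorem tm_W (a b x : EuclideanSpace ℝ (Fin N)) :
    tm (WW J (vv a b)) x = ∑ γ, ⟪tm (J γ) b, x⟫_ℝ • tm (J γ) a := by
  unfold WW
  rw [map_sum, ContinuousLinearMap.sum_apply]
  refine Finset.sum_congr rfl fun γ _ => ?_
  rw [tm_mul, tm_mul, tm_vv, map_smul]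
  congr 1
  rw [real_inner_comm, inner_tm, real_inner_comm]

theorem QJ.inner (h : QJ J) (u : EuclideanSpace ℝ (Fin N)) (γ δ : Γ) (hγδ : γ ≠ δ) :
    ⟪tm (J γ) u, tm (J δ) u⟫_ℝ = 0 := by
  have h1 : ⟪tm (J γ) u, tm (J δ) u⟫_ℝ = ⟪u, tm ((J γ)ᵀ * J δ) u⟫_ℝ := by
    rw [tm_mul, ← inner_tm (J γ)ᵀ, Matrix.transpose_transpose]
  have h2 : ⟪u, tm ((J γ)ᵀ * J δ) u⟫_ℝ = -⟪u, tm ((J γ)ᵀ * J δ) u⟫_ℝ := by
    conv_lhs => rw [← inner_tm, h.skew γ δ hγδ, map_neg, ContinuousLinearMap.neg_apply,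
      inner_neg_left, real_inner_comm]
  rw [h1]
  linarith

theorem QJ.norm (h : QJ J) (u : EuclideanSpace ℝ (Fin N)) (γ : Γ) : ‖tm (J γ) u‖ = ‖u‖ :=
  norm_orth (J γ) (h.orth γ) u

/-- `b ⊥ J_γ a` for all `γ` -/
def Pe (J : Γ → Matrix (Fin N) (Fin N) ℝ) (a b : EuclideanSpace ℝ (Fin N)) : Prop :=
  ∀ γ, ⟪tm (J γ) a, b⟫_ℝ = 0

theorem QJ.tp_mul (h : QJ J) (γ δ : Γ) : ∃ ε, ∃ t : ℝ, (J γ)ᵀ * J δ = t • J ε := by
  obtain ⟨σ, s, hs, hσ⟩ := h.cl γ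
  refine ⟨σ.symm δ, s (σ.symm δ), ?_⟩
  have h1 := hσ (σ.symm δ)
  rw [Equiv.apply_symm_apply] at h1
  have h2 : J δ = s (σ.symm δ) • (J γ * J (σ.symm δ)) := by
    rw [h1, smul_smul, ← sq, hs, one_smul]
  rw [h2, Matrix.mul_smul, ← Matrix.mul_assoc, h.orth, Matrix.one_mul]

theorem QJ.inner_inner (h : QJ J) (γ δ : Γ) : ∃ ε, ∃ t : ℝ, ∀ a b : EuclideanSpace ℝ (Fin N),
    ⟪tm (J γ) a, tm (J δ) b⟫_ℝ = t * ⟪a, tm (J ε) b⟫_ℝ := by
  obtain ⟨ε, t, ht⟩ := h.tp_mul γ δ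
  refine ⟨ε, t, fun a b => ?_⟩
  have h1 : ⟪tm (J γ) a, tm (J δ) b⟫_ℝ = ⟪a, tm ((J γ)ᵀ * J δ) b⟫_ℝ := by
    rw [tm_mul, ← inner_tm (J γ)ᵀ, Matrix.transpose_transpose]
  rw [h1, ht, map_smul, ContinuousLinearMap.smul_apply, inner_smul_right]

theorem QJ.pe_symm (h : QJ J) {a b : EuclideanSpace ℝ (Fin N)} (hab : Pe J a b) : Pe J b a := by
  obtain ⟨o, ho⟩ := h.one
  intro γ
  -- `⟪J γ b, a⟫ = ⟪b, (J γ)ᵀ a⟫` and `(J γ)ᵀ = (J γ)ᵀ * J o = t • J ε`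
  obtain ⟨ε, t, ht⟩ := h.tp_mul γ o
  rw [ho, Matrix.mul_one] at ht
  have h1 : ⟪tm (J γ) b, a⟫_ℝ = ⟪tm (J γ)ᵀ a, b⟫_ℝ := by
    rw [inner_tm, real_inner_comm]
  rw [h1, ht, map_smul, ContinuousLinearMap.smul_apply, real_inner_smul_left, hab ε, mul_zero]

theorem QJ.pe_J (h : QJ J) {a b : EuclideanSpace ℝ (Fin N)} (hab : Pe J a b) (γ δ : Γ) :
    ⟪tm (J γ) a, tm (J δ) b⟫_ℝ = 0 := by
  have hba := h.pe_symm hab
  obtain ⟨ε, t, ht⟩ := h.inner_inner γ δ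
  rw [ht, real_inner_comm, hba ε, mul_zero]

theorem QJ.pe_right (h : QJ J) {a b : EuclideanSpace ℝ (Fin N)} (hab : Pe J a b) (δ : Γ) :
    Pe J a (tm (J δ) b) := fun γ => h.pe_J hab γ δ

theorem QJ.pe_left (h : QJ J) {a b : EuclideanSpace ℝ (Fin N)} (hab : Pe J a b) (δ : Γ) :
    Pe J (tm (J δ) a) b := h.pe_symm (h.pe_right (h.pe_symm hab) δ)

theorem Pe.add {a b c : EuclideanSpace ℝ (Fin N)} (hb : Pe J a b) (hc : Pe J a c) :
    Pe J a (b + c) := fun γ => by rw [inner_add_right, hb γ, hc γ, add_zero]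

theorem Pe.sub {a b c : EuclideanSpace ℝ (Fin N)} (hb : Pe J a b) (hc : Pe J a c) :
    Pe J a (b - c) := fun γ => by rw [inner_sub_right, hb γ, hc γ, sub_zero]

theorem Pe.smul {a b : EuclideanSpace ℝ (Fin N)} (hb : Pe J a b) (t : ℝ) :
    Pe J a (t • b) := fun γ => by rw [inner_smul_right, hb γ, mul_zero]

theorem Pe.sum {ι : Type} (S : Finset ι) {a : EuclideanSpace ℝ (Fin N)}
    {b : ι → EuclideanSpace ℝ (Fin N)} (hb : ∀ i ∈ S, Pe J a (b i)) : Pe J a (∑ i ∈ S, b i) :=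
  fun γ => by
    rw [inner_sum]
    exact Finset.sum_eq_zero fun i hi => hb i hi γ

theorem W_perp {a b x : EuclideanSpace ℝ (Fin N)} (hb : Pe J b x) : tm (WW J (vv a b)) x = 0 := by
  rw [tm_W]
  refine Finset.sum_eq_zero fun γ _ => ?_
  rw [hb γ, zero_smul]

/-- applied to a vector `x` with `⟪J γ b, x⟫ = 0` for `J γ ≠ 1` -/
theorem QJ.W_dir (h : QJ J) {a b x : EuclideanSpace ℝ (Fin N)} {o : Γ} (ho : J o = 1)
    (hb : ∀ γ, γ ≠ o → ⟪tm (J γ) b, x⟫_ℝ = 0) :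
    tm (WW J (vv a b)) x = ⟪b, x⟫_ℝ • a := by
  rw [tm_W, Finset.sum_eq_single o]
  · rw [ho, tm_one, tm_one]
  · intro γ _ hγ
    rw [hb γ hγ, zero_smul]
  · intro h
    exact absurd (Finset.mem_univ o) h

theorem QJ.W_self (h : QJ J) (a b : EuclideanSpace ℝ (Fin N)) :
    tm (WW J (vv a b)) b = ‖b‖ ^ 2 • a := by
  obtain ⟨o, ho⟩ := h.one
  rw [h.W_dir ho, real_inner_self_eq_norm_sq]
  intro γ hγ
  have h1 := h.inner b γ o hγ
  rwa [ho, tm_one] at h1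

theorem W_tp (a b : EuclideanSpace ℝ (Fin N)) : (WW J (vv a b))ᵀ = WW J (vv b a) := by
  unfold WW vv
  rw [Matrix.transpose_sum]
  refine Finset.sum_congr rfl fun γ _ => ?_
  rw [Matrix.transpose_mul, Matrix.transpose_mul, Matrix.transpose_transpose, Matrix.mul_assoc]
  congr 2
  ext i j
  simp [Matrix.vecMulVec_apply, mul_comm]

/-- `W` of a vector which is itself in the image -/
theorem QJ.W_W (h : QJ J) (a b c : EuclideanSpace ℝ (Fin N)) :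
    WW J (vv a b) * WW J (vv b c) = ‖b‖ ^ 2 • WW J (vv a c) := by
  apply tm_ext
  intro x
  rw [tm_mul, tm_W (a := b), map_sum, map_smul, ContinuousLinearMap.smul_apply, tm_W,
    Finset.smul_sum]
  refine Finset.sum_congr rfl fun γ _ => ?_
  rw [map_smul, ← tm_mul, h.W_comm, tm_mul, h.W_self, map_smul, smul_comm]

/-- the reflection -/
noncomputable def Rf (J : Γ → Matrix (Fin N) (Fin N) ℝ) (u : EuclideanSpace ℝ (Fin N)) :
    Matrix (Fin N) (Fin N) ℝ := 1 - (2 / ‖u‖ ^ 2) • WW J (vv u u)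

theorem QJ.Rf_mem (h : QJ J) (u : EuclideanSpace ℝ (Fin N)) (hu : u ≠ 0) : Rf J u ∈ Hc J := by
  have hn : ‖u‖ ^ 2 ≠ 0 := by
    rw [Ne, pow_eq_zero_iff two_ne_zero, norm_eq_zero]
    exact hu
  constructor
  · rw [Matrix.mem_orthogonalGroup_iff]
    show Rf J u * (Rf J u)ᵀ = 1
    have h1 : (Rf J u)ᵀ = Rf J u := by
      unfold Rf
      rw [Matrix.transpose_sub, Matrix.transpose_one, Matrix.transpose_smul, W_tp]
    rw [h1]
    unfold Rf
    rw [Matrix.sub_mul, Matrix.mul_sub, Matrix.mul_one, Matrix.one_mul, Matrix.mul_sub,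
      Matrix.mul_one, Matrix.smul_mul, Matrix.mul_smul, h.W_W, smul_smul, smul_smul]
    have e1 : 2 / ‖u‖ ^ 2 * (2 / ‖u‖ ^ 2) * ‖u‖ ^ 2 = 2 * (2 / ‖u‖ ^ 2) := by
      field_simp
    rw [e1, two_mul, add_smul]
    abel
  · intro γ
    unfold Rf
    rw [Matrix.sub_mul, Matrix.mul_sub, Matrix.one_mul, Matrix.mul_one, Matrix.smul_mul,
      Matrix.mul_smul, h.W_comm]

/-- the quaternionic scalar which maps `y` to `m ∈ Q_y` -/
noncomputable def Sc (J : Γ → Matrix (Fin N) (Fin N) ℝ) (y m : EuclideanSpace ℝ (Fin N)) :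
    Matrix (Fin N) (Fin N) ℝ := 1 - (‖y‖ ^ 2)⁻¹ • WW J (vv y y) + (‖y‖ ^ 2)⁻¹ • WW J (vv m y)

theorem QJ.Sc_mem (h : QJ J) (y m : EuclideanSpace ℝ (Fin N)) (hy : y ≠ 0) (hn : ‖m‖ = ‖y‖)
    (hm : tm (WW J (vv y y)) m = ‖y‖ ^ 2 • m) : Sc J y m ∈ Hc J := by
  have hn0 : ‖y‖ ^ 2 ≠ 0 := by
    rw [Ne, pow_eq_zero_iff two_ne_zero, norm_eq_zero]
    exact hy
  obtain ⟨p, hp⟩ : ∃ p : Matrix (Fin N) (Fin N) ℝ, p = (‖y‖ ^ 2)⁻¹ • WW J (vv y y) := ⟨_, rfl⟩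
  obtain ⟨r, hr⟩ : ∃ r : Matrix (Fin N) (Fin N) ℝ, r = (‖y‖ ^ 2)⁻¹ • WW J (vv m y) := ⟨_, rfl⟩
  have hS : Sc J y m = 1 - p + r := by rw [hp, hr]; rfl
  have hpt : pᵀ = p := by rw [hp, Matrix.transpose_smul, W_tp]
  have hpp : p * p = p := by
    rw [hp, Matrix.smul_mul, Matrix.mul_smul, h.W_W, smul_smul, smul_smul]
    congr 1
    field_simp
  have hrt : rᵀ = (‖y‖ ^ 2)⁻¹ • WW J (vv y m) := by rw [hr, Matrix.transpose_smul, W_tp]
  have hrr : rᵀ * r = p := by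
    rw [hrt, hr, hp, Matrix.smul_mul, Matrix.mul_smul, h.W_W, smul_smul, smul_smul, hn]
    congr 1
    field_simp
  have hpr : p * r = r := by
    rw [hp, hr, Matrix.smul_mul, Matrix.mul_smul]
    have e1 : WW J (vv y y) * WW J (vv m y) = ‖y‖ ^ 2 • WW J (vv m y) := by
      apply tm_ext
      intro x
      rw [tm_mul, tm_W (a := m), map_sum, map_smul, ContinuousLinearMap.smul_apply, tm_W,
        Finset.smul_sum]
      refine Finset.sum_congr rfl fun γ _ => ?_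
      rw [map_smul, ← tm_mul, h.W_comm, tm_mul, hm, map_smul, smul_comm]
    rw [e1, smul_smul, smul_smul]
    congr 1
    field_simp
  constructor
  · rw [Matrix.mem_orthogonalGroup_iff']
    show (Sc J y m)ᵀ * Sc J y m = 1
    rw [hS, Matrix.transpose_add, Matrix.transpose_sub, Matrix.transpose_one, hpt]
    have hrp : rᵀ * p = rᵀ := by
      have := congrArg Matrix.transpose hpr
      rwa [Matrix.transpose_mul, hpt] at this
    simp only [Matrix.add_mul, Matrix.sub_mul, Matrix.mul_add, Matrix.mul_sub, Matrix.one_mul,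
      Matrix.mul_one, hpp, hrr, hpr, hrp]
    abel
  · intro γ
    rw [hS, hp, hr]
    simp only [Matrix.add_mul, Matrix.sub_mul, Matrix.mul_add, Matrix.mul_sub, Matrix.one_mul,
      Matrix.mul_one, Matrix.smul_mul, Matrix.mul_smul, h.W_comm]

theorem Hc_gp (J : Γ → Matrix (Fin N) (Fin N) ℝ) : Gp (Hc J) := by
  refine ⟨fun g hg => hg.1, fun g hg => ⟨orth_tp hg.1, fun γ => ?_⟩,
    fun g hg h hh => ⟨mul_mem hg.1 hh.1, fun γ => ?_⟩⟩
  · have h1 := orth1 hg.1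
    have h2 := orth2 hg.1
    calc gᵀ * J γ = gᵀ * J γ * (g * gᵀ) := by rw [h1, Matrix.mul_one]
      _ = gᵀ * (J γ * g) * gᵀ := by simp only [Matrix.mul_assoc]
      _ = gᵀ * g * J γ * gᵀ := by rw [← hg.2 γ]; simp only [Matrix.mul_assoc]
      _ = J γ * gᵀ := by rw [h2, Matrix.one_mul]
  · rw [Matrix.mul_assoc, hh.2 γ, ← Matrix.mul_assoc, hg.2 γ, Matrix.mul_assoc]

theorem Hc_one (J : Γ → Matrix (Fin N) (Fin N) ℝ) : (1 : Matrix (Fin N) (Fin N) ℝ) ∈ Hc J :=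
  ⟨one_mem _, fun γ => by rw [Matrix.one_mul, Matrix.mul_one]⟩

/-- **Transitivity**: `Hc J` is transitive on the spheres of the orthogonal complement of the
`J γ v`, with matrices which fix `v`. -/
theorem QJ.trans (h : QJ J) (v y z : EuclideanSpace ℝ (Fin N)) (hy : Pe J v y) (hz : Pe J v z)
    (hn : ‖y‖ = ‖z‖) : ∃ g ∈ Hc J, tm g v = v ∧ tm g y = z := by
  classical
  by_cases hy0 : y = 0
  · have hz0 : z = 0 := by rw [← norm_eq_zero, ← hn, hy0, norm_zero]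
    exact ⟨1, Hc_one J, tm_one v, by rw [tm_one, hy0, hz0]⟩
  have hyn : 0 < ‖y‖ := norm_pos_iff.2 hy0
  obtain ⟨o, ho⟩ := h.one
  -- the projection of `z` to `Q_y`
  obtain ⟨p, hp⟩ : ∃ p : EuclideanSpace ℝ (Fin N), p = (‖y‖ ^ 2)⁻¹ • tm (WW J (vv y y)) z :=
    ⟨_, rfl⟩
  have hWp : tm (WW J (vv y y)) p = ‖y‖ ^ 2 • p := by
    rw [hp, map_smul, ← tm_mul, h.W_W, map_smul, ContinuousLinearMap.smul_apply, smul_comm]
  have hzp : Pe J y (z - p) := by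
    intro γ
    rw [inner_sub_right, hp, inner_smul_right, tm_W, inner_sum]
    have e1 : ∀ δ, ⟪tm (J γ) y, ⟪tm (J δ) y, z⟫_ℝ • tm (J δ) y⟫_ℝ =
        if δ = γ then ⟪tm (J γ) y, z⟫_ℝ * ‖y‖ ^ 2 else 0 := by
      intro δ
      rw [inner_smul_right]
      split_ifs with hd
      · rw [hd, real_inner_self_eq_norm_sq, h.norm]
      · rw [h.inner y γ δ (fun e => hd e.symm), mul_zero]
    rw [Finset.sum_congr rfl fun δ _ => e1 δ, Finset.sum_ite_eq' Finset.univ γ,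
      if_pos (Finset.mem_univ γ)]
    field_simp
    ring
  have hvp : Pe J v p := by
    rw [hp, tm_W]
    refine Pe.smul (Pe.sum _ fun γ _ => Pe.smul (h.pe_right hy γ) _) _
  -- the vector `m`
  obtain ⟨m, hWm, hmn, hvm, t, ht⟩ : ∃ m : EuclideanSpace ℝ (Fin N),
      tm (WW J (vv y y)) m = ‖y‖ ^ 2 • m ∧ ‖m‖ = ‖y‖ ∧ Pe J v m ∧ ∃ t : ℝ, p = t • m := by
    by_cases hp0 : p = 0
    · refine ⟨y, h.W_self y y, rfl, hy, 0, ?_⟩
      rw [zero_smul, hp0]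
    · have hpn : 0 < ‖p‖ := norm_pos_iff.2 hp0
      refine ⟨(‖y‖ / ‖p‖) • p, ?_, ?_, Pe.smul hvp _, ‖p‖ / ‖y‖, ?_⟩
      · rw [map_smul, hWp, smul_comm]
      · rw [norm_smul, Real.norm_of_nonneg (by positivity)]
        field_simp
      · rw [smul_smul]
        have : ‖p‖ / ‖y‖ * (‖y‖ / ‖p‖) = 1 := by field_simp
        rw [this, one_smul]
  have hS := h.Sc_mem y m hy0 hmn hWm
  have hSy : tm (Sc J y m) y = m := by
    unfold Sc
    rw [map_add, map_sub, ContinuousLinearMap.add_apply, ContinuousLinearMap.sub_apply, tm_one,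
      map_smul, map_smul, ContinuousLinearMap.smul_apply, ContinuousLinearMap.smul_apply,
      h.W_self, h.W_self, smul_smul, smul_smul, inv_mul_cancel₀ (by positivity), one_smul, one_smul,
      sub_self, zero_add]
  have hyv := h.pe_symm hy
  have hSv : tm (Sc J y m) v = v := by
    unfold Sc
    rw [map_add, map_sub, ContinuousLinearMap.add_apply, ContinuousLinearMap.sub_apply, tm_one,
      map_smul, map_smul, ContinuousLinearMap.smul_apply, ContinuousLinearMap.smul_apply,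
      W_perp hyv, W_perp hyv, smul_zero, sub_zero, add_zero]
  by_cases hu : m - z = 0
  · exact ⟨_, hS, hSv, by rw [hSy]; exact sub_eq_zero.1 hu⟩
  have hun : 0 < ‖m - z‖ := norm_pos_iff.2 hu
  refine ⟨Rf J (m - z) * Sc J y m, (Hc_gp J).mul _ (h.Rf_mem _ hu) _ hS, ?_, ?_⟩
  · rw [tm_mul, hSv]
    unfold Rf
    rw [map_sub, ContinuousLinearMap.sub_apply, tm_one, map_smul, ContinuousLinearMap.smul_apply,
      W_perp (h.pe_symm (Pe.sub hvm hz)), smul_zero, sub_zero]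
  · rw [tm_mul, hSy]
    unfold Rf
    -- `⟪J γ (m - z), m⟫ = 0` for `γ ≠ o`
    have hJm : ∀ γ, γ ≠ o → ⟪tm (J γ) m, m⟫_ℝ = 0 := by
      intro γ hγ
      have h1 := h.inner m γ o hγ
      rwa [ho, tm_one] at h1
    have hJmz : ∀ γ, γ ≠ o → ⟪tm (J γ) z, m⟫_ℝ = 0 := by
      intro γ hγ
      -- `m` is in `Q_y` and `z - p ⊥ Q_y`
      have h2 : Pe J m (z - p) := by
        have h3 : m = (‖y‖ ^ 2)⁻¹ • ∑ δ, ⟪tm (J δ) y, m⟫_ℝ • tm (J δ) y := by
          rw [← tm_W, hWm, smul_smul, inv_mul_cancel₀ (by positivity), one_smul]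
        have h4 : Pe J (z - p) m := by
          rw [h3]
          exact Pe.smul (Pe.sum _ fun δ _ => Pe.smul (h.pe_right (h.pe_symm hzp) δ) _) _
        exact h.pe_symm h4
      have h5 := h.pe_symm h2 γ
      rw [map_sub, inner_sub_left, ht, map_smul, real_inner_smul_left, hJm γ hγ, mul_zero,
        sub_zero] at h5
      exact h5
    have h6 : ∀ γ, γ ≠ o → ⟪tm (J γ) (m - z), m⟫_ℝ = 0 := by
      intro γ hγ
      rw [map_sub, inner_sub_left, hJm γ hγ, hJmz γ hγ, sub_zero]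
    rw [map_sub, ContinuousLinearMap.sub_apply, tm_one, map_smul, ContinuousLinearMap.smul_apply,
      h.W_dir ho h6, smul_smul]
    have h7 : 2 / ‖m - z‖ ^ 2 * ⟪m - z, m⟫_ℝ = 1 := by
      have h8 : ‖m - z‖ ^ 2 = 2 * ⟪m - z, m⟫_ℝ := by
        have h9 := norm_sub_sq_real m z
        have h10 : ‖m‖ ^ 2 = ‖z‖ ^ 2 := by rw [hmn, hn]
        rw [inner_sub_left, real_inner_self_eq_norm_sq, real_inner_comm]
        linarith
      have h9 : ‖m - z‖ ^ 2 ≠ 0 := by positivity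
      rw [h8] at h9 ⊢
      have h10 : ⟪m - z, m⟫_ℝ ≠ 0 := fun e => h9 (by rw [e, mul_zero])
      field_simp
    rw [h7, one_smul]
    abel

end Pool.Agent.T6.H95.KS
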