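import Pool.Agent.T6.H95.KS.Spn
import Pool.Agent.T6.H95.KS.Small

/-!
# The unitary group
-/

set_option autoImplicit false

namespace Pool.Agent.T6.H95.KS

open MeasureTheory Set Matrix
open scoped ENNReal InnerProductSpace
open Pool.Agent.TH591.TT
open Pool.Agent.H888R2.KC (KI Km ip Km_skew Km_complete Km_parseval)

section complex

variable {N : ℕ}

/-- `I` is an orthogonal complex structure -/
structure Cpx (I : Matrix (Fin N) (Fin N) ℝ) : Prop where
  oI : Iᵀ * I = 1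
  sI : I * I = -1

/-- the two units -/
def CC (I : Matrix (Fin N) (Fin N) ℝ) : Fin 2 → Matrix (Fin N) (Fin N) ℝ := ![1, I]

theorem Cpx.tI {I : Matrix (Fin N) (Fin N) ℝ} (h : Cpx I) : Iᵀ = -I := by
  calc Iᵀ = Iᵀ * (-(I * I)) := by rw [h.sI, neg_neg, Matrix.mul_one]
    _ = -(Iᵀ * I * I) := by rw [Matrix.mul_neg, Matrix.mul_assoc]
    _ = -I := by rw [h.oI, Matrix.one_mul]

theorem Cpx.qj {I : Matrix (Fin N) (Fin N) ℝ} (h : Cpx I) : QJ (CC I) := by
  have tI := h.tI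
  have sI := h.sI
  refine ⟨?_, ?_, ⟨0, rfl⟩, ?_⟩
  · intro γ
    fin_cases γ
    · show (1 : Matrix (Fin N) (Fin N) ℝ)ᵀ * 1 = 1
      rw [Matrix.transpose_one, Matrix.mul_one]
    · exact h.oI
  · intro γ δ hne
    have key : ∀ A B C : Matrix (Fin N) (Fin N) ℝ, Aᵀ * B = C → Cᵀ = -C →
        (Aᵀ * B)ᵀ = -(Aᵀ * B) := by
      intro A B C h1 h2
      rw [h1, h2]
    have tnI : (-I)ᵀ = -(-I) := by rw [Matrix.transpose_neg, tI]
    fin_cases γ <;> fin_cases δ
    · exact absurd rfl hne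
    · exact key 1 I I (by rw [Matrix.transpose_one, Matrix.one_mul]) tI
    · exact key I 1 (-I) (by rw [tI, Matrix.mul_one]) tnI
    · exact absurd rfl hne
  · intro δ
    fin_cases δ
    · refine ⟨1, fun _ => 1, fun _ => by norm_num, fun γ => ?_⟩
      show (1 : Matrix (Fin N) (Fin N) ℝ) * CC I γ = (1 : ℝ) • CC I γ
      rw [Matrix.one_mul, one_smul]
    · refine ⟨⟨![1, 0], ![1, 0], by decide, by decide⟩, ![1, -1], ?_, ?_⟩
      · intro γ
        fin_cases γ <;> simp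
      · intro γ
        fin_cases γ
        · show I * 1 = (1 : ℝ) • I
          rw [Matrix.mul_one, one_smul]
        · show I * I = (-1 : ℝ) • (1 : Matrix (Fin N) (Fin N) ℝ)
          rw [sI, neg_smul, one_smul]

theorem Cpx.hs_self {I : Matrix (Fin N) (Fin N) ℝ} (h : Cpx I) : hs I I = N := by
  rw [hs_tr, h.oI, Matrix.trace_one, Fintype.card_fin]

/-- the projection onto `𝔰𝔲` -/
noncomputable def PU (I : Matrix (Fin N) (Fin N) ℝ) :
    Matrix (Fin N) (Fin N) ℝ →ₗ[ℝ] Matrix (Fin N) (Fin N) ℝ where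
  toFun K := PW (CC I) K - (hs I K / N) • I
  map_add' K L := by
    rw [map_add, hs_add_right, add_div, add_smul]
    abel
  map_smul' c K := by
    rw [map_smul, hs_smul_right, RingHom.id_apply, smul_sub, smul_smul, mul_div_assoc]

theorem PU_apply (I K : Matrix (Fin N) (Fin N) ℝ) :
    PU I K = PW (CC I) K - (hs I K / N) • I := rfl

theorem Cpx.I_comm {I : Matrix (Fin N) (Fin N) ℝ} (γ : Fin 2) :
    I * CC I γ = CC I γ * I := by
  fin_cases γ
  · show I * 1 = 1 * I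
    rw [Matrix.mul_one, Matrix.one_mul]
  · rfl

theorem Cpx.hs_PW {I : Matrix (Fin N) (Fin N) ℝ} (h : Cpx I) (K : Matrix (Fin N) (Fin N) ℝ) :
    hs I (PW (CC I) K) = hs I K := by
  rw [← h.qj.pj.sym, h.qj.PW_of_comm I Cpx.I_comm]

theorem Cpx.hs_PU {I : Matrix (Fin N) (Fin N) ℝ} (h : Cpx I) (hN : 1 ≤ N)
    (K : Matrix (Fin N) (Fin N) ℝ) : hs I (PU I K) = 0 := by
  have hN0 : (N : ℝ) ≠ 0 := by
    have : (1 : ℝ) ≤ N := by exact_mod_cast hN
    linarith
  rw [PU_apply, hs_sub_right, h.hs_PW, hs_smul_right, h.hs_self]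
  field_simp
  ring

theorem Cpx.PU_comm {I : Matrix (Fin N) (Fin N) ℝ} (h : Cpx I) (K : Matrix (Fin N) (Fin N) ℝ)
    (γ : Fin 2) : PU I K * CC I γ = CC I γ * PU I K := by
  rw [PU_apply, Matrix.sub_mul, Matrix.mul_sub, h.qj.PW_comm, Matrix.smul_mul, Matrix.mul_smul,
    Cpx.I_comm]

theorem Cpx.PU_of {I : Matrix (Fin N) (Fin N) ℝ} (h : Cpx I) (M : Matrix (Fin N) (Fin N) ℝ)
    (hM : ∀ γ, M * CC I γ = CC I γ * M) (h0 : hs I M = 0) : PU I M = M := by
  rw [PU_apply, h.qj.PW_of_comm M hM, h0, zero_div, zero_smul, sub_zero]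

theorem Cpx.pj {I : Matrix (Fin N) (Fin N) ℝ} (h : Cpx I) (hN : 1 ≤ N) : PJ (PU I) := by
  refine ⟨fun K => h.PU_of _ (h.PU_comm K) (h.hs_PU hN K), fun K L => ?_, fun K hK => ?_,
    fun K L hK hL => ?_⟩
  · rw [PU_apply, PU_apply, hs_sub_left, hs_sub_right, h.qj.pj.sym, hs_smul_left, hs_smul_right,
      hs_comm K I]
    ring
  · rw [PU_apply, Matrix.transpose_sub, h.qj.pj.skew K hK, Matrix.transpose_smul, h.tI, smul_neg]
    abel
  · have hsk : ∀ K : Matrix (Fin N) (Fin N) ℝ, Kᵀ = -K → (PU I K)ᵀ = -(PU I K) := by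
      intro K hK
      rw [PU_apply, Matrix.transpose_sub, h.qj.pj.skew K hK, Matrix.transpose_smul, h.tI, smul_neg]
      abel
    refine h.PU_of _ (fun γ => ?_) ?_
    · have e : ∀ A B : Matrix (Fin N) (Fin N) ℝ, A * CC I γ = CC I γ * A →
          B * CC I γ = CC I γ * B → A * B * CC I γ = CC I γ * (A * B) := by
        intro A B hA hB
        rw [Matrix.mul_assoc, hB, ← Matrix.mul_assoc, hA, Matrix.mul_assoc]
      rw [Matrix.sub_mul, Matrix.mul_sub, e _ _ (h.PU_comm K γ) (h.PU_comm L γ),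
        e _ _ (h.PU_comm L γ) (h.PU_comm K γ)]
    · have h1 : PU I K * I = I * PU I K := h.PU_comm K 1
      rw [hs_comm, hs_br _ _ _ (hsk K hK), h1, sub_self]
      simp [hs]

theorem Cpx.sumU {I : Matrix (Fin N) (Fin N) ℝ} (h : Cpx I) (hN : 1 ≤ N)
    (X : Matrix (Fin N) (Fin N) ℝ) :
    ∑ k, Ak (PU I) k * X * Ak (PU I) k =
      ∑ k, Ak (PW (CC I)) k * X * Ak (PW (CC I)) k - (N : ℝ)⁻¹ • (I * X * I) := by
  rw [(h.pj hN).sum_APA, h.qj.pj.sum_APA]
  have h1 : ∀ k : KI N, Km ℝ k * X * Ak (PU I) k =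
      Km ℝ k * X * Ak (PW (CC I)) k - (N : ℝ)⁻¹ • ((hs (Km ℝ k) I • Km ℝ k) * X * I) := by
    intro k
    unfold Ak
    rw [PU_apply, Matrix.mul_sub, Matrix.mul_smul, Matrix.smul_mul, Matrix.smul_mul, smul_smul,
      hs_comm I]
    congr 2
    ring
  rw [Finset.sum_congr rfl fun k _ => h1 k, Finset.sum_sub_distrib, ← Finset.smul_sum,
    ← Finset.sum_mul, ← Finset.sum_mul, complete I h.tI]

theorem Cpx.alpha {I : Matrix (Fin N) (Fin N) ℝ} (h : Cpx I) (hN : 1 ≤ N) :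
    ∑ k, Ak (PU I) k * Ak (PU I) k =
      (-((N : ℝ) / 4 - 1 / N)) • (1 : Matrix (Fin N) (Fin N) ℝ) := by
  have h1 := h.sumU hN 1
  simp only [Matrix.mul_one] at h1
  rw [h1, h.qj.alpha, h.sI, Fintype.card_fin, smul_neg, ← neg_smul, ← sub_smul]
  congr 1
  push_cast
  ring

theorem Cpx.beta {I : Matrix (Fin N) (Fin N) ℝ} (h : Cpx I) (hN : 1 ≤ N) (l : KI N) :
    ∑ k, Ak (PU I) k * Ak (PU I) l * Ak (PU I) k = (1 / (N : ℝ)) • Ak (PU I) l := by
  have hp := h.pj hN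
  have hc : ∀ γ, Ak (PU I) l * CC I γ = CC I γ * Ak (PU I) l := fun γ => h.PU_comm _ γ
  have hI : Ak (PU I) l * I = I * Ak (PU I) l := hc 1
  have ht : ∀ γ, (Ak (PU I) l * CC I γ).trace = 0 := by
    intro γ
    fin_cases γ
    · show (Ak (PU I) l * 1).trace = 0
      have h1 := Matrix.trace_transpose (Ak (PU I) l)
      rw [hp.Ak_skew, Matrix.trace_neg] at h1
      rw [Matrix.mul_one]
      linarith
    · show (Ak (PU I) l * I).trace = 0
      have h1 : hs I (Ak (PU I) l) = 0 := h.hs_PU hN _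
      rw [hs_tr, h.tI, Matrix.neg_mul, Matrix.trace_neg, ← hI] at h1
      linarith
  rw [h.sumU hN, h.qj.beta _ (hp.Ak_skew l) hc ht, ← hI, Matrix.mul_assoc, h.sI,
    Matrix.mul_neg, Matrix.mul_one, smul_neg, sub_neg_eq_add, Fintype.card_fin]
  have : (((2 : ℕ) : ℝ) - 2) / (2 * ((2 : ℕ) : ℝ)) = 0 := by norm_num
  rw [this, zero_smul, zero_add, one_div]

theorem Cpx.la {I : Matrix (Fin N) (Fin N) ℝ} (h : Cpx I) (hN : 1 ≤ N) :
    LA (Hc (CC I)) (Ak (PU I)) ((N : ℝ) / 2) := by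
  have hN0 : (0 : ℝ) < N := by exact_mod_cast hN
  have hp := h.pj hN
  refine ⟨hp.Ak_skew, fun k => path_comm _ _ (hp.Ak_skew k) (fun γ => h.PU_comm _ γ), ?_,
    by positivity, hp.par⟩
  obtain ⟨c, h1, h2, h3, h4⟩ := hp.struc _ _ (h.alpha hN) (h.beta hN)
  refine ⟨c, h1, h2, h3, fun k => ?_⟩
  rw [h4]
  congr 1
  field_simp
  ring

theorem Cpx.ca {I : Matrix (Fin N) (Fin N) ℝ} (h : Cpx I) (hN : 6 ≤ N) :
    CA (Hc (CC I)) (Ak (PU I)) (CC I) ((N : ℝ) / 16) := by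
  have hN6 : (6 : ℝ) ≤ N := by exact_mod_cast hN
  have hN0 : (0 : ℝ) < N := by linarith
  have hq := h.qj
  have hp := h.pj (by omega)
  have hcomm : ∀ k γ, Ak (PU I) k * CC I γ = CC I γ * Ak (PU I) k :=
    fun k γ => h.PU_comm _ γ
  have hinv : 1 / (N : ℝ) ≤ 1 / 6 := one_div_le_one_div_of_le (by norm_num) hN6
  refine ⟨fun g hg => hg.2, by positivity, fun X => ?_, fun m Y => ?_⟩
  · obtain ⟨X', h1, h2, h3⟩ := hq.split (by omega) X
    have h4 : ∀ k, hs (Ak (PU I) k * X - X * Ak (PU I) k) (Ak (PU I) k * X - X * Ak (PU I) k) =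
        hs (Ak (PU I) k * X' - X' * Ak (PU I) k) (Ak (PU I) k * X' - X' * Ak (PU I) k) := by
      intro k
      rw [h3 _ (hcomm k)]
    rw [Finset.sum_congr rfl fun k _ => h4 k, hp.casM _ (h.alpha (by omega)), ← h2,
      h.sumU (by omega), hs_sub_right, hs_smul_right]
    have h5 := hq.quad X' h1
    have h6 := hs_nonneg X'
    have h7 : hs X' (I * X' * I) ≤ hs X' X' := by
      have e3 : hs (I * X' * I) (I * X' * I) = hs X' X' := by
        have hI' : I * Iᵀ = 1 := hq.orth' 1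
        rw [hs_mul_right, Matrix.mul_assoc, hI', Matrix.mul_one, hs_mul_left, ← Matrix.mul_assoc,
          h.oI, Matrix.one_mul]
      have e4 := hs_nonneg (X' - I * X' * I)
      rw [hs_sub_left, hs_sub_right, hs_sub_right, e3, hs_comm (I * X' * I) X'] at e4
      linarith
    have h8 : (N : ℝ)⁻¹ * hs X' (I * X' * I) ≤ 1 / 6 * hs X' X' := by
      rw [← one_div]
      have h9 : 0 ≤ 1 / (N : ℝ) := by positivity
      calc 1 / (N : ℝ) * hs X' (I * X' * I) ≤ 1 / (N : ℝ) * hs X' X' :=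
            mul_le_mul_of_nonneg_left h7 h9
        _ ≤ _ := mul_le_mul_of_nonneg_right hinv h6
    nlinarith
  · rw [hp.casV _ (h.alpha (by omega))]
    refine mul_le_mul_of_nonneg_right ?_ (hs_nonneg Y)
    linarith

/-- **KLS for tuples of matrices and vectors invariant under the unitary group.** -/
theorem sp_cpx : ∃ C : ℝ, 0 < C ∧ ∀ {κ : Type} [Fintype κ] {q m N : ℕ}
    (I : Matrix (Fin N) (Fin N) ℝ), Cpx I →
    ∀ ι : V κ →ₗᵢ[ℝ] V (Ix q m N), InvH (Hc (CC I)) ι →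
    SP (GH (Hc (CC I)) ι) (C * fac q m N) := by
  obtain ⟨C, hC, hsp⟩ := spH
  obtain ⟨C', hC', hsm⟩ := spSmall
  refine ⟨max C C', lt_max_of_lt_left hC, ?_⟩
  intro κ _ q m N I h ι hι
  have hmono : ∀ C1 C2 : ℝ, C1 ≤ C2 → SP (GH (Hc (CC I)) ι) (C1 * fac q m N) →
      SP (GH (Hc (CC I)) ι) (C2 * fac q m N) := by
    intro C1 C2 h12 h1 ρ hρ hb hu s hs hmom f hf
    refine (h1 ρ hρ hb hu s hs hmom f hf).trans
      (mul_le_mul_of_nonneg_right ?_ (integral_nonneg fun x => by positivity))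
    have := fac_pos q m N
    exact mul_le_mul_of_nonneg_right (mul_le_mul_of_nonneg_right h12 this.le) hs.le
  by_cases hN : N < 8
  · exact hmono _ _ (le_max_right _ _) (hsm _ hN ι)
  · have hN8 : (8 : ℝ) ≤ N := by exact_mod_cast (by omega : 8 ≤ N)
    refine hmono _ _ (le_max_left _ _) ?_
    exact hsp (h.qj.st (by simp) (by simp; omega) (by omega)) (h.la (by omega)) (h.ca (by omega))
      (by linarith) le_rfl ι hι

/-- **KLS for tuples of matrices and vectors invariant under the compact symplectic group.** -/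
theorem sp_quat' : ∃ C : ℝ, 0 < C ∧ ∀ {κ : Type} [Fintype κ] {q m N : ℕ}
    (I J : Matrix (Fin N) (Fin N) ℝ), Quat I J →
    ∀ ι : V κ →ₗᵢ[ℝ] V (Ix q m N), InvH (Hc (QQ I J)) ι →
    SP (GH (Hc (QQ I J)) ι) (C * fac q m N) := by
  obtain ⟨C, hC, hsp⟩ := sp_quat
  obtain ⟨C', hC', hsm⟩ := spSmall
  refine ⟨max C C', lt_max_of_lt_left hC, ?_⟩
  intro κ _ q m N I J h ι hι
  have hmono : ∀ C1 C2 : ℝ, C1 ≤ C2 → SP (GH (Hc (QQ I J)) ι) (C1 * fac q m N) →
      SP (GH (Hc (QQ I J)) ι) (C2 * fac q m N) := by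
    intro C1 C2 h12 h1 ρ hρ hb hu s hs hmom f hf
    refine (h1 ρ hρ hb hu s hs hmom f hf).trans
      (mul_le_mul_of_nonneg_right ?_ (integral_nonneg fun x => by positivity))
    have := fac_pos q m N
    exact mul_le_mul_of_nonneg_right (mul_le_mul_of_nonneg_right h12 this.le) hs.le
  by_cases hN : N < 8
  · exact hmono _ _ (le_max_right _ _) (hsm _ hN ι)
  · exact hmono _ _ (le_max_left _ _) (hsp I J h (by omega) ι hι)

end complex

end Pool.Agent.T6.H95.KS
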